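import Mathlib

/-!
# Ramsey goodness of degenerate graphs: basic lemmas on the blue graph

`B` is the blue graph. `HasK B t m S`: there are `t` sets of `m` vertices in `S`, completely joined in blue.
-/

set_option autoImplicit false

namespace Pool.Agent.L7h70.RG

open Finset
open scoped Classical

/-- the neighbours of `v` in `S` -/
noncomputable def nb {V : Type} (B : SimpleGraph V) (S : Finset V) (v : V) : Finset V :=
  S.filter (fun w => B.Adj v w)

/-- the number of neighbours of `v` in `S` -/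
noncomputable def dg {V : Type} (B : SimpleGraph V) (S : Finset V) (v : V) : ℕ := (nb B S v).card

/-- the common neighbours of `X` in `Y` -/
noncomputable def cn {V : Type} (B : SimpleGraph V) (X Y : Finset V) : Finset V :=
  Y.filter (fun y => ∀ x ∈ X, B.Adj x y)

/-- complete join -/
def Cmp {V : Type} (B : SimpleGraph V) (X Y : Finset V) : Prop := ∀ x ∈ X, ∀ y ∈ Y, B.Adj x y

def HasK {V : Type} (B : SimpleGraph V) (t m : ℕ) (S : Finset V) : Prop :=
  ∃ A : Fin t → Finset V, (∀ i, A i ⊆ S ∧ (A i).card = m) ∧ ∀ i j, i < j → Cmp B (A i) (A j)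

lemma nb_sub {V : Type} (B : SimpleGraph V) (S : Finset V) (v : V) : nb B S v ⊆ S :=
  Finset.filter_subset _ _

lemma dg_le {V : Type} (B : SimpleGraph V) (S : Finset V) (v : V) : dg B S v ≤ S.card :=
  Finset.card_le_card (nb_sub B S v)

lemma nb_mono {V : Type} (B : SimpleGraph V) {S T : Finset V} (h : S ⊆ T) (v : V) :
    nb B S v ⊆ nb B T v := Finset.filter_subset_filter _ h

lemma dg_mono {V : Type} (B : SimpleGraph V) {S T : Finset V} (h : S ⊆ T) (v : V) :
    dg B S v ≤ dg B T v := Finset.card_le_card (nb_mono B h v)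

lemma cn_sub {V : Type} (B : SimpleGraph V) (X Y : Finset V) : cn B X Y ⊆ Y :=
  Finset.filter_subset _ _

lemma cn_anti {V : Type} (B : SimpleGraph V) {X X' : Finset V} (h : X' ⊆ X) (Y : Finset V) :
    cn B X Y ⊆ cn B X' Y := by
  intro y hy
  simp only [cn, Finset.mem_filter] at hy ⊢
  exact ⟨hy.1, fun x hx => hy.2 x (h hx)⟩

/-- double counting -/
lemma sum_dg_comm {V : Type} (B : SimpleGraph V) (X Y : Finset V) :
    ∑ x ∈ X, dg B Y x = ∑ y ∈ Y, dg B X y := by
  have h := Finset.sum_card_bipartiteAbove_eq_sum_card_bipartiteBelow (s := X) (t := Y)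
    (fun a b => B.Adj a b)
  have h1 : ∀ x, dg B Y x = (Finset.bipartiteAbove (fun a b => B.Adj a b) Y x).card := by
    intro x; rfl
  have h2 : ∀ y, dg B X y = (Finset.bipartiteBelow (fun a b => B.Adj a b) X y).card := by
    intro y
    unfold dg nb Finset.bipartiteBelow
    congr 1
    ext a
    simp only [Finset.mem_filter]
    constructor
    · rintro ⟨h, h'⟩; exact ⟨h, h'.symm⟩
    · rintro ⟨h, h'⟩; exact ⟨h, h'.symm⟩
  simp only [h1, h2]
  exact h

lemma HasK.mono {V : Type} {B : SimpleGraph V} {t m : ℕ} {S T : Finset V} (h : HasK B t m S)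
    (hST : S ⊆ T) : HasK B t m T := by
  obtain ⟨A, hA, hC⟩ := h
  exact ⟨A, fun i => ⟨(hA i).1.trans hST, (hA i).2⟩, hC⟩

lemma HasK.zero {V : Type} (B : SimpleGraph V) (m : ℕ) (S : Finset V) : HasK B 0 m S :=
  ⟨fun i => i.elim0, fun i => i.elim0, fun i => i.elim0⟩

/-- add one more part -/
lemma HasK.cons {V : Type} {B : SimpleGraph V} {t m : ℕ} {S W X : Finset V} (hX : X ⊆ S)
    (hXc : X.card = m) (hW : W ⊆ cn B X S) (h : HasK B t m W) : HasK B (t + 1) m S := by
  obtain ⟨A, hA, hC⟩ := h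
  refine ⟨Fin.cons X A, ?_, ?_⟩
  · intro i
    refine Fin.cases ?_ (fun j => ?_) i
    · exact ⟨by simpa using hX, by simpa using hXc⟩
    · simp only [Fin.cons_succ]
      exact ⟨((hA j).1.trans hW).trans (cn_sub B X S), (hA j).2⟩
  · intro i j hij
    revert hij
    refine Fin.cases ?_ (fun i' => ?_) i
    · refine Fin.cases ?_ (fun j' => ?_) j
      · intro h; exact absurd h (lt_irrefl _)
      · intro _
        simp only [Fin.cons_zero, Fin.cons_succ]
        intro x hx y hy
        have := hW ((hA j').1 hy)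
        simp only [cn, Finset.mem_filter] at this
        exact this.2 x hx
    · refine Fin.cases ?_ (fun j' => ?_) j
      · intro h; exact absurd h (by simp)
      · intro h
        simp only [Fin.cons_succ]
        exact hC i' j' (by simpa using h)

/-- Many vertices with dense neighbourhoods in `Y`: some `r` of them have many common neighbours. -/
theorem common (α : ℝ) (hα : 0 < α) (r : ℕ) : ∃ p : ℕ, ∃ κ : ℝ, 0 < κ ∧ κ ≤ 1 ∧
    ∀ {V : Type} (B : SimpleGraph V) (X Y : Finset V), p ≤ X.card →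
      (∀ x ∈ X, α * Y.card ≤ dg B Y x) →
      ∃ X' ⊆ X, X'.card = r ∧ κ * Y.card ≤ (cn B X' Y).card := by
  rcases Nat.eq_zero_or_pos r with hr | hr
  · subst hr
    refine ⟨0, 1, one_pos, le_refl _, ?_⟩
    intro V B X Y _ _
    refine ⟨∅, Finset.empty_subset _, rfl, ?_⟩
    simp [cn]
  set p : ℕ := max r ⌈2 * (r : ℝ) / α⌉₊ with hp
  have hp1 : 2 * (r : ℝ) / α ≤ p :=
    (Nat.le_ceil _).trans (Nat.cast_le.mpr (le_max_right _ _))
  have hp2 : 2 * (r : ℝ) ≤ α * p := by
    rw [div_le_iff₀ hα] at hp1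
    linarith
  have hrp : r ≤ p := le_max_left _ _
  have hppos : 0 < p := lt_of_lt_of_le hr hrp
  refine ⟨p, min 1 (α / 2 / 2 ^ p), by positivity, min_le_left _ _, ?_⟩
  intro V B X Y hX hd
  obtain ⟨X0, hX0, hX0c⟩ := Finset.exists_subset_card_eq hX
  set Yg : Finset V := Y.filter (fun y => r ≤ dg B X0 y) with hYg
  have hcount : α * p * Y.card ≤ p * Yg.card + r * Y.card := by
    have h1 : (∑ x ∈ X0, (dg B Y x : ℝ)) = ∑ y ∈ Y, (dg B X0 y : ℝ) := by
      have := sum_dg_comm B X0 Y
      exact_mod_cast this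
    have h2 : α * p * Y.card ≤ ∑ x ∈ X0, (dg B Y x : ℝ) := by
      have : ∑ x ∈ X0, (α * Y.card) ≤ ∑ x ∈ X0, (dg B Y x : ℝ) :=
        Finset.sum_le_sum (fun x hx => hd x (hX0 hx))
      rw [Finset.sum_const, hX0c, nsmul_eq_mul] at this
      linarith
    have h3 : ∑ y ∈ Y, (dg B X0 y : ℝ) ≤ ∑ y ∈ Y, ((if r ≤ dg B X0 y then (p : ℝ) else 0) + r) := by
      apply Finset.sum_le_sum
      intro y _
      split_ifs with h
      · have : dg B X0 y ≤ p := by rw [← hX0c]; exact dg_le B X0 y
        have : (dg B X0 y : ℝ) ≤ p := by exact_mod_cast this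
        have hr0 : (0:ℝ) ≤ r := Nat.cast_nonneg _
        linarith
      · push Not at h
        have : (dg B X0 y : ℝ) ≤ r := by exact_mod_cast h.le
        linarith
    rw [Finset.sum_add_distrib, Finset.sum_const, nsmul_eq_mul, ← Finset.sum_filter,
      Finset.sum_const, nsmul_eq_mul, ← hYg] at h3
    linarith
  have hYgc : α / 2 * Y.card ≤ Yg.card := by
    have hpp : (0:ℝ) < p := by exact_mod_cast hppos
    have hY0 : (0:ℝ) ≤ Y.card := Nat.cast_nonneg _
    have h4 : (r : ℝ) * Y.card ≤ α * p / 2 * Y.card := by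
      apply mul_le_mul_of_nonneg_right _ hY0
      linarith
    have h5 : p * (α / 2 * Y.card) ≤ p * (Yg.card : ℝ) := by nlinarith
    exact le_of_mul_le_mul_left h5 hpp
  -- choose an r-subset for each good y
  have hch : ∀ y ∈ Yg, ∃ T ∈ Finset.powersetCard r X0, ∀ x ∈ T, B.Adj x y := by
    intro y hy
    simp only [hYg, Finset.mem_filter] at hy
    obtain ⟨T, hT, hTc⟩ := Finset.exists_subset_card_eq hy.2
    refine ⟨T, ?_, ?_⟩
    · rw [Finset.mem_powersetCard]
      exact ⟨hT.trans (nb_sub B X0 y), hTc⟩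
    · intro x hx
      have := hT hx
      simp only [nb, Finset.mem_filter] at this
      exact this.2.symm
  choose! g hg1 hg2 using hch
  have hne : (Finset.powersetCard r X0).Nonempty := by
    rw [Finset.powersetCard_nonempty, hX0c]
    exact hrp
  obtain ⟨T, hT, hTb⟩ := Finset.exists_le_card_fiber_of_nsmul_le_card_of_maps_to
    (b := (Yg.card : ℝ) / (Finset.powersetCard r X0).card) hg1 hne (by
      rw [nsmul_eq_mul]
      have : ((Finset.powersetCard r X0).card : ℝ) ≠ 0 := by
        have := Finset.card_pos.mpr hne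
        exact_mod_cast this.ne'
      rw [mul_div_cancel₀ _ this])
  rw [Finset.mem_powersetCard] at hT
  refine ⟨T, hT.1.trans hX0, hT.2, ?_⟩
  have hsub : {x ∈ Yg | g x = T} ⊆ cn B T Y := by
    intro y hy
    simp only [Finset.mem_filter] at hy
    simp only [cn, Finset.mem_filter]
    refine ⟨?_, ?_⟩
    · have := hy.1
      simp only [hYg, Finset.mem_filter] at this
      exact this.1
    · have := hg2 y hy.1
      rw [hy.2] at this
      exact this
  have h6 : (({x ∈ Yg | g x = T}.card : ℕ) : ℝ) ≤ (cn B T Y).card := by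
    exact_mod_cast Finset.card_le_card hsub
  have hcc : ((Finset.powersetCard r X0).card : ℝ) ≤ 2 ^ p := by
    rw [Finset.card_powersetCard, hX0c]
    have : p.choose r ≤ 2 ^ p := Nat.choose_le_two_pow _ _
    exact_mod_cast this
  have hcpos : (0:ℝ) < ((Finset.powersetCard r X0).card : ℝ) := by
    exact_mod_cast Finset.card_pos.mpr hne
  have h7 : (Yg.card : ℝ) / 2 ^ p ≤ (Yg.card : ℝ) / (Finset.powersetCard r X0).card :=
    div_le_div_of_nonneg_left (Nat.cast_nonneg _) hcpos hcc
  have h8 : min 1 (α / 2 / 2 ^ p) * (Y.card : ℝ) ≤ α / 2 / 2 ^ p * Y.card :=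
    mul_le_mul_of_nonneg_right (min_le_right _ _) (Nat.cast_nonneg _)
  have h9 : α / 2 / 2 ^ p * (Y.card : ℝ) ≤ Yg.card / 2 ^ p := by
    rw [div_mul_eq_mul_div]
    exact div_le_div_of_nonneg_right hYgc (by positivity)
  linarith

/-- several target sets at once -/
theorem common_multi (α : ℝ) (hα : 0 < α) (r l : ℕ) : ∃ p : ℕ, ∃ κ : ℝ, 0 < κ ∧ κ ≤ 1 ∧
    ∀ {V : Type} (B : SimpleGraph V) (X : Finset V) (Y : Fin l → Finset V), p ≤ X.card →
      (∀ x ∈ X, ∀ i, α * (Y i).card ≤ dg B (Y i) x) →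
      ∃ X' ⊆ X, X'.card = r ∧ ∀ i, κ * (Y i).card ≤ (cn B X' (Y i)).card := by
  induction l with
  | zero =>
    refine ⟨r, 1, one_pos, le_refl _, ?_⟩
    intro V B X Y hX _
    obtain ⟨X', hX', hc⟩ := Finset.exists_subset_card_eq hX
    exact ⟨X', hX', hc, fun i => i.elim0⟩
  | succ l ih =>
    obtain ⟨p0, κ0, hκ0, hκ01, h0⟩ := ih
    obtain ⟨p1, κ1, hκ1, hκ11, h1⟩ := common α hα p0
    refine ⟨p1, min κ0 κ1, lt_min hκ0 hκ1, (min_le_left _ _).trans hκ01, ?_⟩
    intro V B X Y hX hd
    obtain ⟨X1, hX1, hX1c, hX1k⟩ := h1 B X (Y 0) hX (fun x hx => hd x hx 0)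
    obtain ⟨X', hX', hX'c, hX'k⟩ := h0 B X1 (fun i => Y i.succ) hX1c.ge
      (fun x hx i => hd x (hX1 hx) i.succ)
    refine ⟨X', hX'.trans hX1, hX'c, ?_⟩
    intro i
    refine Fin.cases ?_ (fun j => ?_) i
    · have h2 : ((cn B X1 (Y 0)).card : ℝ) ≤ (cn B X' (Y 0)).card := by
        exact_mod_cast Finset.card_le_card (cn_anti B hX' (Y 0))
      have h3 : min κ0 κ1 * ((Y 0).card : ℝ) ≤ κ1 * (Y 0).card :=
        mul_le_mul_of_nonneg_right (min_le_right _ _) (Nat.cast_nonneg _)
      linarith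
    · have h2 := hX'k j
      have h3 : min κ0 κ1 * ((Y j.succ).card : ℝ) ≤ κ0 * (Y j.succ).card :=
        mul_le_mul_of_nonneg_right (min_le_left _ _) (Nat.cast_nonneg _)
      linarith

/-- density condition: few vertices of `X` have small degree into any large subset of `Y` -/
def Dn {V : Type} (B : SimpleGraph V) (X Y : Finset V) (lx ly α : ℝ) : Prop :=
  ∀ Y' ⊆ Y, ly ≤ Y'.card → ((X.filter (fun x => (dg B Y' x : ℝ) < α * Y'.card)).card : ℝ) ≤ lx

lemma Dn.mono {V : Type} {B : SimpleGraph V} {X Y X' Y' : Finset V} {lx ly α : ℝ}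
    (h : Dn B X Y lx ly α) (hX : X' ⊆ X) (hY : Y' ⊆ Y) : Dn B X' Y' lx ly α := by
  intro Z hZ hl
  have h1 := h Z (hZ.trans hY) hl
  have h2 : ((X'.filter (fun x => (dg B Z x : ℝ) < α * Z.card)).card : ℝ) ≤
      ((X.filter (fun x => (dg B Z x : ℝ) < α * Z.card)).card : ℝ) := by
    exact_mod_cast Finset.card_le_card (Finset.filter_subset_filter _ hX)
  linarith

/-- mutually dense sets contain a complete multipartite graph -/
theorem find_K (α : ℝ) (hα : 0 < α) (m t : ℕ) : ∃ p : ℕ, ∃ κ : ℝ, 0 < κ ∧ κ ≤ 1 ∧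
    ∀ {V : Type} (B : SimpleGraph V) (X : Fin t → Finset V) (L : Fin t → ℝ),
      (∀ i, 0 ≤ L i) → (∀ i j, i < j → Dn B (X i) (X j) (L i) (L j) α) →
      (∀ i, t * L i + p ≤ κ * (X i).card) →
      ∃ A : Fin t → Finset V, (∀ i, A i ⊆ X i ∧ (A i).card = m) ∧
        ∀ i j, i < j → Cmp B (A i) (A j) := by
  induction t with
  | zero => exact ⟨0, 1, one_pos, le_refl _, fun B X L _ _ _ =>
      ⟨fun i => i.elim0, fun i => i.elim0, fun i => i.elim0⟩⟩
  | succ t ih =>
    obtain ⟨p0, κ0, hκ0, hκ01, h0⟩ := ih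
    obtain ⟨p1, κ1, hκ1, hκ11, h1⟩ := common_multi α hα m t
    refine ⟨max p0 p1, κ0 * κ1, by positivity, by nlinarith, ?_⟩
    intro V B X L hL hD hS
    have hκle : κ0 * κ1 ≤ 1 := by nlinarith
    have hsize : ∀ i, (t + 1 : ℝ) * L i + max (p0 : ℝ) p1 ≤ (X i).card := by
      intro i
      have := hS i
      push_cast at this
      have h2 : κ0 * κ1 * ((X i).card : ℝ) ≤ 1 * (X i).card :=
        mul_le_mul_of_nonneg_right hκle (Nat.cast_nonneg _)
      linarith
    have hLX : ∀ i, L i ≤ (X i).card := by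
      intro i
      have := hsize i
      have h2 : (0:ℝ) ≤ max (p0:ℝ) p1 := le_max_of_le_left (Nat.cast_nonneg _)
      have h3 := hL i
      have h4 : (0:ℝ) ≤ t := Nat.cast_nonneg _
      nlinarith
    -- good vertices of X 0
    set X0 : Finset V := (X 0).filter (fun x => ∀ j : Fin t, α * (X j.succ).card ≤ dg B (X j.succ) x)
      with hX0
    have hbad : ((X 0).filter (fun x => ¬ ∀ j : Fin t, α * (X j.succ).card ≤ dg B (X j.succ) x)) ⊆
        (Finset.univ : Finset (Fin t)).biUnion (fun j => (X 0).filter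
          (fun x => (dg B (X j.succ) x : ℝ) < α * (X j.succ).card)) := by
      intro x hx
      simp only [Finset.mem_filter, not_forall, not_le] at hx
      obtain ⟨hx0, j, hj⟩ := hx
      simp only [Finset.mem_biUnion, Finset.mem_univ, true_and, Finset.mem_filter]
      exact ⟨j, hx0, hj⟩
    have hbadc : (((X 0).filter (fun x => ¬ ∀ j : Fin t, α * (X j.succ).card ≤
        dg B (X j.succ) x)).card : ℝ) ≤ t * L 0 := by
      have h2 : (((X 0).filter (fun x => ¬ ∀ j : Fin t, α * (X j.succ).card ≤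
          dg B (X j.succ) x)).card : ℝ) ≤ ∑ j : Fin t, (((X 0).filter
          (fun x => (dg B (X j.succ) x : ℝ) < α * (X j.succ).card)).card : ℝ) := by
        have := (Finset.card_le_card hbad).trans Finset.card_biUnion_le
        exact_mod_cast this
      have h3 : ∑ j : Fin t, (((X 0).filter
          (fun x => (dg B (X j.succ) x : ℝ) < α * (X j.succ).card)).card : ℝ) ≤
          ∑ _j : Fin t, L 0 := by
        apply Finset.sum_le_sum
        intro j _
        exact hD 0 j.succ (Fin.succ_pos j) _ (Finset.Subset.refl _) (hLX _)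
      rw [Finset.sum_const, Finset.card_univ, Fintype.card_fin, nsmul_eq_mul] at h3
      linarith
    have hX0c : (p1 : ℝ) ≤ X0.card := by
      have h2 : X0.card + ((X 0).filter (fun x => ¬ ∀ j : Fin t, α * (X j.succ).card ≤
          dg B (X j.succ) x)).card = (X 0).card := by
        rw [hX0]
        exact Finset.card_filter_add_card_filter_not _
      have h3 : (X0.card : ℝ) + ((X 0).filter (fun x => ¬ ∀ j : Fin t, α * (X j.succ).card ≤
          dg B (X j.succ) x)).card = (X 0).card := by exact_mod_cast h2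
      have h4 := hsize 0
      have h5 : (p1:ℝ) ≤ max (p0:ℝ) p1 := le_max_right _ _
      have h6 := hL 0
      linarith
    obtain ⟨A0, hA0, hA0c, hA0k⟩ := h1 B X0 (fun j => X j.succ) (by exact_mod_cast hX0c) (by
      intro x hx i
      rw [hX0, Finset.mem_filter] at hx
      exact hx.2 i)
    obtain ⟨A, hA, hAC⟩ := h0 B (fun j => cn B A0 (X j.succ)) (fun j => L j.succ)
      (fun j => hL _) (by
        intro i j hij
        exact (hD i.succ j.succ (by simpa using hij)).mono (cn_sub _ _ _) (cn_sub _ _ _)) (by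
        intro j
        have h2 := hA0k j
        have h3 := hS j.succ
        push_cast at h3
        have h4 : (p0:ℝ) ≤ max (p0:ℝ) p1 := le_max_left _ _
        have h5 : κ0 * κ1 * ((X j.succ).card : ℝ) ≤ κ0 * (cn B A0 (X j.succ)).card := by
          rw [mul_assoc]
          exact mul_le_mul_of_nonneg_left h2 hκ0.le
        have h6 := hL j.succ
        nlinarith)
    refine ⟨Fin.cons A0 A, ?_, ?_⟩
    · intro i
      refine Fin.cases ?_ (fun j => ?_) i
      · refine ⟨?_, by simpa using hA0c⟩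
        simp only [Fin.cons_zero]
        exact hA0.trans (Finset.filter_subset _ _)
      · simp only [Fin.cons_succ]
        exact ⟨(hA j).1.trans (cn_sub _ _ _), (hA j).2⟩
    · intro i j hij
      revert hij
      refine Fin.cases ?_ (fun i' => ?_) i
      · refine Fin.cases ?_ (fun j' => ?_) j
        · intro h; exact absurd h (lt_irrefl _)
        · intro _
          simp only [Fin.cons_zero, Fin.cons_succ]
          intro x hx y hy
          have := (hA j').1 hy
          simp only [cn, Finset.mem_filter] at this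
          exact this.2 x hx
      · refine Fin.cases ?_ (fun j' => ?_) j
        · intro h; exact absurd h (by simp)
        · intro h
          simp only [Fin.cons_succ]
          exact hAC i' j' (by simpa using h)

/-- near-cliques of the red graph -/
theorem near_clique (m : ℕ) (δ : ℝ) (hδ : 0 < δ) (t : ℕ) : ∃ c : ℝ, ∃ u0 : ℕ, 0 < c ∧ c ≤ 1 ∧
    ∀ {V : Type} (B : SimpleGraph V) (U : Finset V), ¬ HasK B t m U → u0 ≤ U.card →
      ∃ Q ⊆ U, c * U.card ≤ Q.card ∧ ∀ v ∈ Q, (dg B Q v : ℝ) ≤ δ * Q.card := by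
  induction t with
  | zero => exact ⟨1, 0, one_pos, le_refl _, fun B U h _ => absurd (HasK.zero B m U) h⟩
  | succ t ih =>
    obtain ⟨c0, u00, hc0, hc01, h0⟩ := ih
    obtain ⟨p, κ, hκ, hκ1, h1⟩ := common (δ / 2) (by positivity) m
    refine ⟨min (1/2) (κ * c0), max (2 * p) ⌈(u00 : ℝ) / κ⌉₊, by positivity,
      (min_le_left _ _).trans (by norm_num), ?_⟩
    intro V B U hU hUc
    have hUc1 : 2 * p ≤ U.card := (le_max_left _ _).trans hUc
    have hUc2 : (u00 : ℝ) ≤ κ * U.card := by
      have h2 : (⌈(u00 : ℝ) / κ⌉₊ : ℝ) ≤ U.card := by exact_mod_cast (le_max_right _ _).trans hUc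
      have h3 := (Nat.le_ceil ((u00 : ℝ) / κ)).trans h2
      rw [div_le_iff₀ hκ] at h3
      linarith
    have hU0 : (0:ℝ) ≤ U.card := Nat.cast_nonneg _
    set lo : Finset V := U.filter (fun v => (dg B U v : ℝ) ≤ δ / 2 * U.card) with hlo
    set hi : Finset V := U.filter (fun v => ¬ (dg B U v : ℝ) ≤ δ / 2 * U.card) with hhi
    have hsum : lo.card + hi.card = U.card := Finset.card_filter_add_card_filter_not _
    have hsumR : (lo.card : ℝ) + hi.card = U.card := by exact_mod_cast hsum
    rcases le_total hi.card lo.card with hle | hle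
    · refine ⟨lo, Finset.filter_subset _ _, ?_, ?_⟩
      · have h2 : (hi.card : ℝ) ≤ lo.card := by exact_mod_cast hle
        have h3 : min (1/2) (κ * c0) * (U.card : ℝ) ≤ 1/2 * U.card :=
          mul_le_mul_of_nonneg_right (min_le_left _ _) hU0
        linarith
      · intro v hv
        have h2 : (dg B lo v : ℝ) ≤ dg B U v := by
          exact_mod_cast dg_mono B (Finset.filter_subset _ _) v
        have h3 : (dg B U v : ℝ) ≤ δ / 2 * U.card := by
          rw [hlo, Finset.mem_filter] at hv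
          exact hv.2
        have h4 : (hi.card : ℝ) ≤ lo.card := by exact_mod_cast hle
        nlinarith
    · have hpc : p ≤ hi.card := by omega
      obtain ⟨X', hX', hX'c, hX'k⟩ := h1 B hi U hpc (by
        intro x hx
        rw [hhi, Finset.mem_filter, not_le] at hx
        exact hx.2.le)
      have hnK : ¬ HasK B t m (cn B X' U) := by
        intro hK
        exact hU (HasK.cons (hX'.trans (Finset.filter_subset _ _)) hX'c (Finset.Subset.refl _) hK)
      obtain ⟨Q, hQ, hQc, hQd⟩ := h0 B (cn B X' U) hnK (by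
        have : (u00 : ℝ) ≤ (cn B X' U).card := hUc2.trans hX'k
        exact_mod_cast this)
      refine ⟨Q, hQ.trans (cn_sub _ _ _), ?_, hQd⟩
      have h2 : min (1/2) (κ * c0) * (U.card : ℝ) ≤ κ * c0 * U.card :=
        mul_le_mul_of_nonneg_right (min_le_right _ _) hU0
      have h3 : κ * c0 * (U.card : ℝ) ≤ c0 * (cn B X' U).card := by
        calc κ * c0 * (U.card : ℝ) = c0 * (κ * U.card) := by ring
          _ ≤ c0 * (cn B X' U).card := mul_le_mul_of_nonneg_left hX'k hc0.le
      linarith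

/-- red cliques -/
theorem red_clique (t m p : ℕ) : ∃ u0 : ℕ, ∀ {V : Type} (B : SimpleGraph V) (U : Finset V),
    ¬ HasK B t m U → u0 ≤ U.card →
      ∃ T ⊆ U, T.card = p ∧ ∀ x ∈ T, ∀ y ∈ T, ¬ B.Adj x y := by
  obtain ⟨c, u0, hc, hc1, h⟩ := near_clique m (1 / (2 * (p + 1) : ℝ)) (by positivity) t
  refine ⟨max u0 ⌈(2 * (p + 1) : ℝ) / c⌉₊, ?_⟩
  intro V B U hU hUc
  obtain ⟨Q, hQ, hQc, hQd⟩ := h B U hU ((le_max_left _ _).trans hUc)
  have hQ2 : (2 * (p + 1) : ℝ) ≤ Q.card := by
    have h2 : ((⌈(2 * (p + 1) : ℝ) / c⌉₊ : ℕ) : ℝ) ≤ U.card := by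
      exact_mod_cast (le_max_right _ _).trans hUc
    have h3 := (Nat.le_ceil ((2 * (p + 1) : ℝ) / c)).trans h2
    rw [div_le_iff₀ hc] at h3
    linarith
  have key : ∀ j : ℕ, j ≤ p → ∃ T ⊆ Q, T.card = j ∧ ∀ x ∈ T, ∀ y ∈ T, ¬ B.Adj x y := by
    intro j
    induction j with
    | zero => intro _; exact ⟨∅, Finset.empty_subset _, rfl, by simp⟩
    | succ j ih =>
      intro hj
      obtain ⟨T, hT, hTc, hTi⟩ := ih (by omega)
      have hbig : (T ∪ T.biUnion (fun x => nb B Q x)).card < Q.card := by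
        have h2 : (T ∪ T.biUnion (fun x => nb B Q x)).card ≤ T.card + ∑ x ∈ T, dg B Q x :=
          (Finset.card_union_le _ _).trans (Nat.add_le_add_left Finset.card_biUnion_le _)
        have h3 : (∑ x ∈ T, (dg B Q x : ℝ)) ≤ ∑ _x ∈ T, (1 / (2 * (p + 1) : ℝ) * Q.card) :=
          Finset.sum_le_sum (fun x hx => hQd x (hT hx))
        rw [Finset.sum_const, nsmul_eq_mul, hTc] at h3
        have hjp : ((j : ℕ) : ℝ) + 1 ≤ p := by exact_mod_cast hj
        have hp0 : (0:ℝ) < p + 1 := by positivity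
        have h4 : (j : ℝ) * (1 / (2 * (p + 1) : ℝ) * Q.card) ≤ Q.card / 2 := by
          have h5 : (j : ℝ) * (1 / (2 * (p + 1) : ℝ)) ≤ 1 / 2 := by
            rw [mul_one_div, div_le_div_iff₀ (by positivity) (by norm_num)]
            linarith
          have := mul_le_mul_of_nonneg_right h5 (Nat.cast_nonneg (α := ℝ) Q.card)
          linarith
        have h6 : (((T ∪ T.biUnion (fun x => nb B Q x)).card : ℕ) : ℝ) ≤ j + Q.card / 2 := by
          have h7 : (((T ∪ T.biUnion (fun x => nb B Q x)).card : ℕ) : ℝ) ≤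
              T.card + ∑ x ∈ T, (dg B Q x : ℝ) := by exact_mod_cast h2
          rw [hTc] at h7
          linarith
        have h8 : (((T ∪ T.biUnion (fun x => nb B Q x)).card : ℕ) : ℝ) < Q.card := by linarith
        exact_mod_cast h8
      obtain ⟨z, hzQ, hz⟩ := Finset.exists_mem_notMem_of_card_lt_card hbig
      simp only [Finset.mem_union, Finset.mem_biUnion, not_or, not_exists, not_and] at hz
      refine ⟨insert z T, Finset.insert_subset hzQ hT, ?_, ?_⟩
      · rw [Finset.card_insert_of_notMem hz.1, hTc]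
      · intro x hx y hy
        rw [Finset.mem_insert] at hx hy
        have hz2 : ∀ x ∈ T, ¬ B.Adj x z := by
          intro x hx hadj
          exact hz.2 x hx (by simp [nb, hzQ, hadj])
        rcases hx with rfl | hx
        · rcases hy with rfl | hy
          · exact B.loopless.irrefl _
          · intro hadj; exact hz2 y hy hadj.symm
        · rcases hy with rfl | hy
          · exact hz2 x hx
          · exact hTi x hx y hy
  obtain ⟨T, hT, hTc, hTi⟩ := key p (le_refl _)
  exact ⟨T, hT.trans hQ, hTc, hTi⟩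

end Pool.Agent.L7h70.RG
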