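import Pool.Agent.L7h70.RG.Basic

/-!
# Greedy embedding of a degenerate graph into a system of nearly complete sets, and selection of
small sets from a sequence of pools
-/

set_option autoImplicit false

namespace Pool.Agent.L7h70.RG

open Finset
open scoped Classical

/-- greedy embedding -/
theorem embed_greedy {α V : Type} [Nonempty V] (G : SimpleGraph α) (B : SimpleGraph V) (d : ℕ)
    (hG : ∀ S : Finset α, S.Nonempty → ∃ v ∈ S, dg G S v ≤ d) (lam : α → ℕ) (S : ℕ → Finset V)
    (T : Finset α)
    (hdisj : ∀ u ∈ T, ∀ v ∈ T, lam u ≠ lam v → Disjoint (S (lam u)) (S (lam v))) (θ : ℝ)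
    (hlink : ∀ u ∈ T, ∀ v ∈ T, G.Adj u v → ∀ y ∈ S (lam u),
      (dg B (S (lam v)) y : ℝ) ≤ θ * (S (lam v)).card)
    (hcap : ∀ v ∈ T, ((T.filter (fun u => lam u = lam v)).card : ℝ) + d * (θ * (S (lam v)).card) ≤
      (S (lam v)).card) (hθ : 0 ≤ θ) :
    ∃ φ : α → V, Set.InjOn φ T ∧ (∀ v ∈ T, φ v ∈ S (lam v)) ∧
      ∀ u ∈ T, ∀ v ∈ T, G.Adj u v → ¬ B.Adj (φ u) (φ v) := by
  have key : ∀ T' : Finset α, T' ⊆ T → ∃ φ : α → V, Set.InjOn φ T' ∧ (∀ v ∈ T', φ v ∈ S (lam v)) ∧
      ∀ u ∈ T', ∀ v ∈ T', G.Adj u v → ¬ B.Adj (φ u) (φ v) := by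
    intro T'
    induction T' using Finset.strongInduction with
    | H T' ih =>
      intro hT'
      rcases T'.eq_empty_or_nonempty with h0 | hne
      · subst h0
        exact ⟨fun _ => Classical.arbitrary V, by simp, by simp, by simp⟩
      · obtain ⟨v, hv, hvd⟩ := hG T' hne
        obtain ⟨φ, hinj, hmem, hadj⟩ := ih (T'.erase v) (Finset.erase_ssubset hv)
          ((Finset.erase_subset _ _).trans hT')
        set forb : Finset V := ((T'.erase v).filter (fun u => lam u = lam v)).image φ ∪
          (nb G T' v).biUnion (fun u => nb B (S (lam v)) (φ u)) with hforb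
        have hnbmem : ∀ u ∈ nb G T' v, u ∈ T'.erase v ∧ G.Adj v u := by
          intro u hu
          simp only [nb, Finset.mem_filter] at hu
          refine ⟨Finset.mem_erase.mpr ⟨?_, hu.1⟩, hu.2⟩
          rintro rfl
          exact G.loopless.irrefl _ hu.2
        have hlt : forb.card < (S (lam v)).card := by
          have h1 : (((T'.erase v).filter (fun u => lam u = lam v)).image φ).card + 1 ≤
              (T.filter (fun u => lam u = lam v)).card := by
            have h2 : ((T'.erase v).filter (fun u => lam u = lam v)) ⊆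
                (T.filter (fun u => lam u = lam v)).erase v := by
              intro u hu
              simp only [Finset.mem_filter, Finset.mem_erase] at hu ⊢
              exact ⟨hu.1.1, hT' hu.1.2, hu.2⟩
            have h3 := (Finset.card_image_le (s := (T'.erase v).filter (fun u => lam u = lam v))
              (f := φ)).trans (Finset.card_le_card h2)
            have h4 : ((T.filter (fun u => lam u = lam v)).erase v).card + 1 =
                (T.filter (fun u => lam u = lam v)).card :=
              Finset.card_erase_add_one (by simp [hT' hv])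
            omega
          have h2 : (((nb G T' v).biUnion (fun u => nb B (S (lam v)) (φ u))).card : ℝ) ≤
              d * (θ * (S (lam v)).card) := by
            have h3 : (((nb G T' v).biUnion (fun u => nb B (S (lam v)) (φ u))).card : ℝ) ≤
                ∑ u ∈ nb G T' v, (dg B (S (lam v)) (φ u) : ℝ) := by
              exact_mod_cast Finset.card_biUnion_le
            have h4 : ∑ u ∈ nb G T' v, (dg B (S (lam v)) (φ u) : ℝ) ≤
                ∑ _u ∈ nb G T' v, (θ * (S (lam v)).card) := by
              apply Finset.sum_le_sum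
              intro u hu
              obtain ⟨hu1, hu2⟩ := hnbmem u hu
              exact hlink u (hT' (Finset.mem_of_mem_erase hu1)) v (hT' hv) hu2.symm _ (hmem u hu1)
            rw [Finset.sum_const, nsmul_eq_mul] at h4
            have h5 : ((nb G T' v).card : ℝ) * (θ * (S (lam v)).card) ≤
                d * (θ * (S (lam v)).card) := by
              apply mul_le_mul_of_nonneg_right _ (by positivity)
              exact_mod_cast hvd
            linarith
          have h3 := hcap v (hT' hv)
          have h4 : (forb.card : ℝ) ≤ (((T'.erase v).filter (fun u => lam u = lam v)).image φ).card +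
              ((nb G T' v).biUnion (fun u => nb B (S (lam v)) (φ u))).card := by
            exact_mod_cast Finset.card_union_le _ _
          have h5 : ((((T'.erase v).filter (fun u => lam u = lam v)).image φ).card : ℝ) + 1 ≤
              (T.filter (fun u => lam u = lam v)).card := by exact_mod_cast h1
          have h6 : (forb.card : ℝ) < (S (lam v)).card := by linarith
          exact_mod_cast h6
        obtain ⟨y, hyS, hy⟩ := Finset.exists_mem_notMem_of_card_lt_card hlt
        simp only [hforb, Finset.mem_union, Finset.mem_image, Finset.mem_biUnion, not_or, not_exists,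
          not_and] at hy
        obtain ⟨hy1, hy2⟩ := hy
        have hne' : ∀ u ∈ T'.erase v, φ u ≠ y := by
          intro u hu he
          by_cases hl : lam u = lam v
          · exact hy1 u (by simp only [Finset.mem_filter]; exact ⟨hu, hl⟩) he
          · have h1 := hdisj u (hT' (Finset.mem_of_mem_erase hu)) v (hT' hv) hl
            exact Finset.disjoint_left.mp h1 (hmem u hu) (he ▸ hyS)
        refine ⟨Function.update φ v y, ?_, ?_, ?_⟩
        · intro a ha b hb hab
          by_cases hav : a = v
          · by_cases hbv : b = v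
            · rw [hav, hbv]
            · exfalso
              subst hav
              rw [Function.update_self, Function.update_of_ne hbv] at hab
              exact hne' b (Finset.mem_erase.mpr ⟨hbv, hb⟩) hab.symm
          · by_cases hbv : b = v
            · exfalso
              subst hbv
              rw [Function.update_self, Function.update_of_ne hav] at hab
              exact hne' a (Finset.mem_erase.mpr ⟨hav, ha⟩) hab
            · rw [Function.update_of_ne hav, Function.update_of_ne hbv] at hab
              exact hinj (Finset.mem_coe.mpr (Finset.mem_erase.mpr ⟨hav, ha⟩))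
                (Finset.mem_coe.mpr (Finset.mem_erase.mpr ⟨hbv, hb⟩)) hab
        · intro u hu
          by_cases huv : u = v
          · subst huv; rw [Function.update_self]; exact hyS
          · rw [Function.update_of_ne huv]; exact hmem u (Finset.mem_erase.mpr ⟨huv, hu⟩)
        · have hz : ∀ u ∈ T', G.Adj v u → ¬ B.Adj y (Function.update φ v y u) := by
            intro u hu hvu
            have huv : u ≠ v := by rintro rfl; exact G.loopless.irrefl _ hvu
            rw [Function.update_of_ne huv]
            intro hB
            refine hy2 u (by simp [nb, hu, hvu]) ?_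
            simp only [nb, Finset.mem_filter]
            exact ⟨hyS, hB.symm⟩
          intro a ha b hb hab
          by_cases hav : a = v
          · subst hav; rw [Function.update_self]; exact hz b hb hab
          · by_cases hbv : b = v
            · subst hbv
              rw [Function.update_self]
              intro hB
              exact hz a ha hab.symm hB.symm
            · rw [Function.update_of_ne hav, Function.update_of_ne hbv]
              exact hadj a (Finset.mem_erase.mpr ⟨hav, ha⟩) b (Finset.mem_erase.mpr ⟨hbv, hb⟩) hab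
  exact key T (Finset.Subset.refl _)

/-- selection of small sets from a sequence of pools -/
theorem select (t m : ℕ) (θ : ℝ) (hθ : 0 < θ) (hθ1 : θ ≤ 1) : ∃ c : ℝ, ∃ u0 : ℕ, 0 < c ∧ c ≤ 1 ∧
    ∀ {V : Type} (B : SimpleGraph V) (L : ℕ) (P : ℕ → Finset V) (x0 : ℕ),
      (∀ l ≤ L, ¬ HasK B t m (P l)) → u0 ≤ x0 → 0 < x0 →
      (∀ l ≤ L, 4 * (L + 1) * x0 ≤ (P l).card) →
      (∀ l < L, ∀ x ∈ P l, (dg B (P (l + 1)) x : ℝ) ≤ (θ / 4) ^ 2 * (P (l + 1)).card) →
      ∃ S : ℕ → Finset V, (∀ l ≤ L, S l ⊆ P l ∧ c * x0 ≤ (S l).card ∧ (S l).card ≤ x0) ∧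
        (∀ l ≤ L, ∀ l' ≤ L, l ≠ l' → Disjoint (S l) (S l')) ∧
        (∀ l ≤ L, ∀ x ∈ S l, (dg B (S l) x : ℝ) ≤ θ * (S l).card) ∧
        (∀ l < L, (∀ x ∈ S l, (dg B (S (l + 1)) x : ℝ) ≤ θ * (S (l + 1)).card) ∧
          (∀ y ∈ S (l + 1), (dg B (S l) y : ℝ) ≤ θ * (S l).card)) := by
  obtain ⟨c0, u0, hc0, hc01, hA⟩ := near_clique m (θ / 2) (by positivity) t
  refine ⟨c0 / 2, u0, by positivity, by linarith, ?_⟩
  intro V B L P x0 hK hu0 hx0 hP hone
  have hx0R : (0:ℝ) < x0 := by exact_mod_cast hx0
  have key : ∀ L' : ℕ, L' ≤ L → ∃ S : ℕ → Finset V,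
      (∀ l ≤ L', S l ⊆ P l ∧ c0 / 2 * x0 ≤ (S l).card ∧ (S l).card ≤ x0) ∧
      c0 * x0 ≤ (S L').card ∧
      (∀ l ≤ L', ∀ l' ≤ L', l ≠ l' → Disjoint (S l) (S l')) ∧
      (∀ l ≤ L', ∀ x ∈ S l, (dg B (S l) x : ℝ) ≤ (if l = L' then θ / 2 else θ) * (S l).card) ∧
      (∀ l < L', (∀ x ∈ S l, (dg B (S (l + 1)) x : ℝ) ≤
          (if l + 1 = L' then θ / 2 else θ) * (S (l + 1)).card) ∧
        (∀ y ∈ S (l + 1), (dg B (S l) y : ℝ) ≤ θ * (S l).card)) := by
    intro L'
    induction L' with
    | zero =>
      intro _
      have hPc : x0 ≤ (P 0).card := by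
        have := hP 0 (Nat.zero_le _)
        nlinarith
      obtain ⟨P2, hP2, hP2c⟩ := Finset.exists_subset_card_eq hPc
      obtain ⟨Q, hQ, hQc, hQd⟩ := hA B P2 (fun h => hK 0 (Nat.zero_le _) (h.mono hP2))
        (by rw [hP2c]; exact hu0)
      rw [hP2c] at hQc
      refine ⟨fun _ => Q, ?_, hQc, ?_, ?_, ?_⟩
      · intro l hl
        have hl0 : l = 0 := by omega
        subst hl0
        refine ⟨hQ.trans hP2, by nlinarith, ?_⟩
        exact_mod_cast (Finset.card_le_card hQ).trans hP2c.le
      · intro l hl l' hl' hne
        omega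
      · intro l hl x hx
        rw [if_pos (by omega)]
        exact hQd x hx
      · intro l hl
        omega
    | succ L' ih =>
      intro hL'
      obtain ⟨S, h1, h2, h3, h4, h5⟩ := ih (by omega)
      set s := S L' with hs
      have hspos : (0:ℝ) < s.card := lt_of_lt_of_le (by positivity) h2
      set P' := P (L' + 1) with hP'
      set Used : Finset V := (Finset.range (L' + 1)).biUnion S with hUsed
      have hUc : Used.card ≤ (L' + 1) * x0 := by
        have h6 : Used.card ≤ ∑ l ∈ Finset.range (L' + 1), (S l).card := Finset.card_biUnion_le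
        have h7 : ∑ l ∈ Finset.range (L' + 1), (S l).card ≤ ∑ _l ∈ Finset.range (L' + 1), x0 := by
          apply Finset.sum_le_sum
          intro l hl
          exact (h1 l (by simpa [Nat.lt_succ_iff] using hl)).2.2
        rw [Finset.sum_const, Finset.card_range, smul_eq_mul] at h7
        omega
      have hP'c : 4 * ((L' + 1) * x0) ≤ P'.card := by
        have h6 := hP (L' + 1) hL'
        have h7 : (L' + 1) * x0 ≤ (L + 1) * x0 := Nat.mul_le_mul_right _ (by omega)
        nlinarith
      have hsP : ∀ x ∈ s, (dg B P' x : ℝ) ≤ (θ / 4) ^ 2 * P'.card := by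
        intro x hx
        exact hone L' (by omega) x ((h1 L' (le_refl _)).1 hx)
      set Bad : Finset V := P'.filter (fun y => θ / 4 * s.card < (dg B s y : ℝ)) with hBad
      have hBadc : (Bad.card : ℝ) ≤ θ / 4 * P'.card := by
        have h6 : (∑ y ∈ P', (dg B s y : ℝ)) = ∑ x ∈ s, (dg B P' x : ℝ) := by
          exact_mod_cast sum_dg_comm B P' s
        have h7 : ∑ x ∈ s, (dg B P' x : ℝ) ≤ ∑ _x ∈ s, ((θ / 4) ^ 2 * P'.card) :=
          Finset.sum_le_sum hsP
        rw [Finset.sum_const, nsmul_eq_mul] at h7
        have h8 : ∑ _y ∈ Bad, (θ / 4 * (s.card : ℝ)) ≤ ∑ y ∈ Bad, (dg B s y : ℝ) := by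
          apply Finset.sum_le_sum
          intro y hy
          rw [hBad, Finset.mem_filter] at hy
          exact hy.2.le
        have h9 : ∑ y ∈ Bad, (dg B s y : ℝ) ≤ ∑ y ∈ P', (dg B s y : ℝ) :=
          Finset.sum_le_sum_of_subset_of_nonneg (Finset.filter_subset _ _)
            (fun _ _ _ => Nat.cast_nonneg _)
        rw [Finset.sum_const, nsmul_eq_mul] at h8
        have h10 : (Bad.card : ℝ) * (θ / 4 * s.card) ≤ s.card * ((θ / 4) ^ 2 * P'.card) := by
          linarith
        have h11 : (θ / 4 * (s.card : ℝ)) * Bad.card ≤ (θ / 4 * s.card) * (θ / 4 * P'.card) := by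
          nlinarith
        exact le_of_mul_le_mul_left h11 (by positivity)
      set P1 : Finset V := (P' \ Used) \ Bad with hP1
      have hP1c : x0 ≤ P1.card := by
        have h6 : P'.card ≤ P1.card + Used.card + Bad.card := by
          have h7 : P' ⊆ P1 ∪ Used ∪ Bad := by
            intro y hy
            simp only [hP1, Finset.mem_union, Finset.mem_sdiff]
            tauto
          have h8 := Finset.card_le_card h7
          have h9 := Finset.card_union_le (P1 ∪ Used) Bad
          have h10 := Finset.card_union_le P1 Used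
          omega
        have h7 : (P'.card : ℝ) ≤ P1.card + Used.card + Bad.card := by exact_mod_cast h6
        have h8 : (Used.card : ℝ) ≤ P'.card / 4 := by
          have h9 : 4 * Used.card ≤ P'.card := by omega
          have h10 : 4 * (Used.card : ℝ) ≤ P'.card := by exact_mod_cast h9
          linarith
        have h9 : θ / 4 * (P'.card : ℝ) ≤ 1 / 4 * P'.card :=
          mul_le_mul_of_nonneg_right (by linarith) (Nat.cast_nonneg _)
        have h10 : 4 * x0 ≤ P'.card := by nlinarith
        have h11 : 4 * (x0 : ℝ) ≤ P'.card := by exact_mod_cast h10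
        have h12 : (x0 : ℝ) ≤ P1.card := by linarith
        exact_mod_cast h12
      obtain ⟨P2, hP2, hP2c⟩ := Finset.exists_subset_card_eq hP1c
      have hP2P : P2 ⊆ P' := hP2.trans (Finset.sdiff_subset.trans Finset.sdiff_subset)
      obtain ⟨Q, hQ, hQc, hQd⟩ := hA B P2 (fun h => hK (L' + 1) hL' (h.mono hP2P))
        (by rw [hP2c]; exact hu0)
      rw [hP2c] at hQc
      have hQpos : (0:ℝ) < Q.card := lt_of_lt_of_le (by positivity) hQc
      have hQs : ∀ y ∈ Q, (dg B s y : ℝ) ≤ θ / 4 * s.card := by
        intro y hy
        have h6 := hP2 (hQ hy)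
        simp only [hP1, hBad, Finset.mem_sdiff, Finset.mem_filter, not_and, not_lt] at h6
        exact h6.2 h6.1.1
      set bad : Finset V := s.filter (fun x => θ / 2 * Q.card < (dg B Q x : ℝ)) with hbad
      have hbadc : (bad.card : ℝ) ≤ s.card / 2 := by
        have h6 : (∑ x ∈ s, (dg B Q x : ℝ)) = ∑ y ∈ Q, (dg B s y : ℝ) := by
          exact_mod_cast sum_dg_comm B s Q
        have h7 : ∑ y ∈ Q, (dg B s y : ℝ) ≤ ∑ _y ∈ Q, (θ / 4 * s.card) := Finset.sum_le_sum hQs
        rw [Finset.sum_const, nsmul_eq_mul] at h7
        have h8 : ∑ _x ∈ bad, (θ / 2 * (Q.card : ℝ)) ≤ ∑ x ∈ bad, (dg B Q x : ℝ) := by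
          apply Finset.sum_le_sum
          intro y hy
          rw [hbad, Finset.mem_filter] at hy
          exact hy.2.le
        have h9 : ∑ x ∈ bad, (dg B Q x : ℝ) ≤ ∑ x ∈ s, (dg B Q x : ℝ) :=
          Finset.sum_le_sum_of_subset_of_nonneg (Finset.filter_subset _ _)
            (fun _ _ _ => Nat.cast_nonneg _)
        rw [Finset.sum_const, nsmul_eq_mul] at h8
        have h11 : (θ / 2 * (Q.card : ℝ)) * bad.card ≤ (θ / 2 * Q.card) * (s.card / 2) := by
          nlinarith
        exact le_of_mul_le_mul_left h11 (by positivity)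
      set T : Finset V := s \ bad with hT
      have hTc : (s.card : ℝ) / 2 ≤ T.card := by
        have h6 : T.card + bad.card = s.card :=
          Finset.card_sdiff_add_card_eq_card (Finset.filter_subset _ _)
        have h7 : (T.card : ℝ) + bad.card = s.card := by exact_mod_cast h6
        linarith
      have hTs : T ⊆ s := Finset.sdiff_subset
      have hTd : ∀ x ∈ T, (dg B Q x : ℝ) ≤ θ / 2 * Q.card := by
        intro x hx
        rw [hT, Finset.mem_sdiff, hbad, Finset.mem_filter, not_and, not_lt] at hx
        exact hx.2 hx.1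
      have hQused : ∀ l ≤ L', Disjoint (S l) Q := by
        intro l hl
        rw [Finset.disjoint_left]
        intro y hy hyQ
        have h6 := hP2 (hQ hyQ)
        simp only [hP1, Finset.mem_sdiff] at h6
        apply h6.1.2
        rw [hUsed, Finset.mem_biUnion]
        exact ⟨l, by simpa [Nat.lt_succ_iff] using hl, hy⟩
      set S' : ℕ → Finset V := fun l => if l = L' + 1 then Q else if l = L' then T else S l with hS'
      have e1 : S' (L' + 1) = Q := by simp [hS']
      have e2 : S' L' = T := by simp [hS']
      have e3 : ∀ l, l < L' → S' l = S l := by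
        intro l hl
        simp only [hS']
        rw [if_neg (by omega), if_neg (by omega)]
      have e4 : ∀ l, l ≤ L' → S' l ⊆ S l := by
        intro l hl
        rcases Nat.lt_or_eq_of_le hl with h | h
        · rw [e3 l h]
        · rw [h, e2]; exact hTs
      refine ⟨S', ?_, ?_, ?_, ?_, ?_⟩
      · intro l hl
        rcases Nat.lt_or_eq_of_le hl with h | h
        · rcases Nat.lt_or_eq_of_le (Nat.lt_succ_iff.mp h) with h' | h'
          · rw [e3 l h']; exact h1 l (by omega)
          · rw [h', e2]
            refine ⟨hTs.trans (h1 L' (le_refl _)).1, by linarith, ?_⟩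
            exact (Finset.card_le_card hTs).trans (h1 L' (le_refl _)).2.2
        · rw [h, e1]
          refine ⟨hQ.trans hP2P, by nlinarith, ?_⟩
          exact (Finset.card_le_card hQ).trans hP2c.le
      · rw [e1]; exact hQc
      · have hd : ∀ l l', l < l' → l' ≤ L' + 1 → Disjoint (S' l) (S' l') := by
          intro l l' hll hl'
          rcases Nat.lt_or_eq_of_le hl' with h | h
          · exact Finset.disjoint_of_subset_left (e4 l (by omega))
              (Finset.disjoint_of_subset_right (e4 l' (by omega)) (h3 l (by omega) l' (by omega)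
                (by omega)))
          · rw [h, e1]
            exact Finset.disjoint_of_subset_left (e4 l (by omega)) (hQused l (by omega))
        intro l hl l' hl' hne
        rcases Nat.lt_or_gt_of_ne hne with h | h
        · exact hd l l' h hl'
        · exact (hd l' l h hl).symm
      · intro l hl x hx
        rcases Nat.lt_or_eq_of_le hl with h | h
        · rw [if_neg (by omega)]
          rcases Nat.lt_or_eq_of_le (Nat.lt_succ_iff.mp h) with h' | h'
          · rw [e3 l h'] at hx ⊢
            have := h4 l (by omega) x hx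
            rwa [if_neg (by omega)] at this
          · rw [h', e2] at hx ⊢
            have h6 := h4 L' (le_refl _) x (hTs hx)
            rw [if_pos rfl] at h6
            have h7 : (dg B T x : ℝ) ≤ dg B s x := by exact_mod_cast dg_mono B hTs x
            nlinarith
        · rw [h, e1] at hx ⊢
          rw [if_pos rfl]
          exact hQd x hx
      · intro l hl
        rcases Nat.lt_or_eq_of_le (Nat.lt_succ_iff.mp hl) with h | h
        · -- l < L'
          rw [if_neg (by omega)]
          rcases Nat.lt_or_eq_of_le (Nat.succ_le_iff.mpr h) with h' | h'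
          · rw [e3 l h, e3 (l + 1) h']
            have := h5 l h
            rw [if_neg (by omega)] at this
            exact this
          · have h6 := h5 l h
            rw [if_pos h', show l + 1 = L' from h'] at h6
            rw [e3 l h, show l + 1 = L' from h', e2]
            refine ⟨?_, ?_⟩
            · intro x hx
              have h7 := h6.1 x hx
              have h8 : (dg B T x : ℝ) ≤ dg B s x := by exact_mod_cast dg_mono B hTs x
              have h9 : (dg B s x : ℝ) ≤ θ / 2 * s.card := h7
              nlinarith
            · intro y hy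
              exact h6.2 y (hTs hy)
        · subst h
          rw [if_pos rfl, e1, e2]
          refine ⟨hTd, ?_⟩
          intro y hy
          have h6 := hQs y hy
          have h7 : (dg B T y : ℝ) ≤ dg B s y := by exact_mod_cast dg_mono B hTs y
          nlinarith
  obtain ⟨S, h1, h2, h3, h4, h5⟩ := key L (le_refl _)
  refine ⟨S, h1, h3, ?_, ?_⟩
  · intro l hl x hx
    have h6 := h4 l hl x hx
    have h7 : (if l = L then θ / 2 else θ) ≤ θ := by split_ifs <;> linarith
    exact h6.trans (mul_le_mul_of_nonneg_right h7 (Nat.cast_nonneg _))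
  · intro l hl
    refine ⟨?_, (h5 l hl).2⟩
    intro x hx
    have h6 := (h5 l hl).1 x hx
    have h7 : (if l + 1 = L then θ / 2 else θ) ≤ θ := by split_ifs <;> linarith
    exact h6.trans (mul_le_mul_of_nonneg_right h7 (Nat.cast_nonneg _))

end Pool.Agent.L7h70.RG
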