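import Pool.Agent.L7h70.RG.Basic

/-!
# A bounded family of disjoint red cliques such that few vertices have a blue neighbour in each
-/

set_option autoImplicit false

namespace Pool.Agent.L7h70.RG

open Finset
open scoped Classical

/-- a family of pairwise disjoint red `a`-cliques in `S` -/
def CF {V : Type} (B : SimpleGraph V) (a : ℕ) (S : Finset V) (F : Finset (Finset V)) : Prop :=
  (∀ T ∈ F, T ⊆ S ∧ T.card = a ∧ ∀ x ∈ T, ∀ y ∈ T, ¬ B.Adj x y) ∧
    ∀ T ∈ F, ∀ T' ∈ F, T ≠ T' → Disjoint T T'

/-- the vertices of `S` with a blue neighbour in each member of `F` -/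
noncomputable def hit {V : Type} (B : SimpleGraph V) (S : Finset V) (F : Finset (Finset V)) :
    Finset V := S.filter (fun w => ∀ T ∈ F, ∃ x ∈ T, B.Adj x w)

lemma CF.empty {V : Type} (B : SimpleGraph V) (a : ℕ) (S : Finset V) : CF B a S ∅ :=
  ⟨by simp, by simp⟩

lemma CF.mono {V : Type} {B : SimpleGraph V} {a : ℕ} {S S' : Finset V} {F : Finset (Finset V)}
    (h : CF B a S F) (hS : S ⊆ S') : CF B a S' F :=
  ⟨fun T hT => ⟨(h.1 T hT).1.trans hS, (h.1 T hT).2⟩, h.2⟩

lemma CF.card_biUnion {V : Type} {B : SimpleGraph V} {a : ℕ} {S : Finset V} {F : Finset (Finset V)}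
    (h : CF B a S F) : (F.biUnion id).card = F.card * a := by
  have h1 : (F.biUnion id).card = ∑ T ∈ F, (id T).card :=
    Finset.card_biUnion (fun T hT T' hT' hne => h.2 T hT T' hT' hne)
  rw [h1, Finset.sum_congr rfl (fun T hT => show (id T).card = a from (h.1 T hT).2.1)]
  simp

lemma CF.union {V : Type} {B : SimpleGraph V} {a : ℕ} {S S' : Finset V} {F F' : Finset (Finset V)}
    (h : CF B a S F) (hS : S' ⊆ S) (h' : CF B a S' F') (hd : Disjoint (F.biUnion id) S') :
    CF B a S (F ∪ F') := by
  refine ⟨?_, ?_⟩
  · intro T hT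
    rcases Finset.mem_union.mp hT with hT | hT
    · exact h.1 T hT
    · exact (h'.mono hS).1 T hT
  · have key : ∀ T ∈ F, ∀ T' ∈ F', Disjoint T T' := by
      intro T hT T' hT'
      exact Finset.disjoint_of_subset_left (Finset.subset_biUnion_of_mem id hT)
        (Finset.disjoint_of_subset_right (h'.1 T' hT').1 hd)
    intro T hT T' hT' hne
    rcases Finset.mem_union.mp hT with hT | hT
    · rcases Finset.mem_union.mp hT' with hT' | hT'
      · exact h.2 T hT T' hT' hne
      · exact key T hT T' hT'
    · rcases Finset.mem_union.mp hT' with hT' | hT'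
      · exact (key T' hT' T hT).symm
      · exact h'.2 T hT T' hT' hne

lemma CF.exists_card (t m a : ℕ) (ha : 1 ≤ a) : ∃ u0 : ℕ, ∀ {V : Type} (B : SimpleGraph V)
    (S : Finset V) (j : ℕ), ¬ HasK B t m S → u0 + j * a ≤ S.card →
      ∃ F : Finset (Finset V), CF B a S F ∧ F.card = j := by
  obtain ⟨u0, hu⟩ := red_clique t m a
  refine ⟨u0, ?_⟩
  intro V B S j hK
  induction j with
  | zero => intro _; exact ⟨∅, CF.empty B a S, rfl⟩
  | succ j ih =>
    intro hS
    obtain ⟨F, hF, hFc⟩ := ih (by nlinarith)
    have h1 : (S \ F.biUnion id).card + (F.biUnion id).card ≥ S.card := by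
      have := Finset.card_le_card_sdiff_add_card (s := S) (t := F.biUnion id)
      omega
    have h2 := hF.card_biUnion
    rw [hFc] at h2
    obtain ⟨T, hT, hTc, hTi⟩ := hu B (S \ F.biUnion id)
      (fun h => hK (h.mono Finset.sdiff_subset)) (by nlinarith)
    have hnot : T ∉ F := by
      intro hTF
      have h3 : T ⊆ F.biUnion id := Finset.subset_biUnion_of_mem id hTF
      have h4 : T.Nonempty := by
        rw [← Finset.card_pos]; omega
      obtain ⟨x, hx⟩ := h4
      have := hT hx
      rw [Finset.mem_sdiff] at this
      exact this.2 (h3 hx)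
    refine ⟨F ∪ {T}, hF.union Finset.sdiff_subset (F' := {T}) (S' := S \ F.biUnion id) ⟨?_, ?_⟩
      Finset.disjoint_sdiff, ?_⟩
    · intro T' hT'
      rw [Finset.mem_singleton] at hT'
      subst hT'
      exact ⟨hT, hTc, hTi⟩
    · intro T' hT' T'' hT'' hne
      rw [Finset.mem_singleton] at hT' hT''
      exact absurd (hT'.trans hT''.symm) hne
    · rw [Finset.card_union_of_disjoint (by simpa using hnot), hFc]
      simp

/-- A bounded family of disjoint red cliques such that few vertices have a blue neighbour in
each member. -/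
theorem cliques (t m a : ℕ) (ha : 1 ≤ a) : ∃ M C : ℕ, ∀ {V : Type} (B : SimpleGraph V)
    (S : Finset V), ¬ HasK B t m S →
      ∃ F : Finset (Finset V), F.card ≤ M ∧ CF B a S F ∧ (hit B S F).card ≤ C := by
  induction t with
  | zero => exact ⟨0, 0, fun B S h => absurd (HasK.zero B m S) h⟩
  | succ t ih =>
    obtain ⟨M', C', hMC⟩ := ih
    obtain ⟨u1, hu1⟩ := CF.exists_card (t + 1) m a ha
    set p : ℕ := (m * a).choose m with hp
    set M0 : ℕ := m + p * M' with hM0
    refine ⟨M0, u1 + m * a + p * (C' + M0 * a), ?_⟩
    intro V B S hK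
    by_cases hS : S.card < u1 + m * a
    · refine ⟨∅, Nat.zero_le _, CF.empty B a S, ?_⟩
      have : (hit B S ∅).card ≤ S.card := Finset.card_le_card (Finset.filter_subset _ _)
      omega
    push Not at hS
    obtain ⟨F0, hF0, hF0c⟩ := hu1 B S m hK hS
    set U := F0.biUnion id with hU
    have hUc : U.card = m * a := by rw [hU, hF0.card_biUnion, hF0c]
    have hUS : U ⊆ S := by
      rw [hU, Finset.biUnion_subset]
      intro T hT
      exact (hF0.1 T hT).1
    set PP := Finset.powersetCard m U with hPP
    have hPPc : PP.card = p := by rw [hPP, Finset.card_powersetCard, hUc]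
    have key : ∀ XX : Finset (Finset V), XX ⊆ PP → ∃ F : Finset (Finset V), F0 ⊆ F ∧
        F.card ≤ m + XX.card * M' ∧ CF B a S F ∧
        ∀ X ∈ XX, (hit B (cn B X S) F).card ≤ C' + M0 * a := by
      intro XX
      induction XX using Finset.induction_on with
      | empty => intro _; exact ⟨F0, Finset.Subset.refl _, by simp [hF0c], hF0, by simp⟩
      | insert X XX hX ihX =>
        intro hsub
        obtain ⟨F, hF1, hF2, hF3, hF4⟩ := ihX ((Finset.subset_insert _ _).trans hsub)
        have hXP : X ∈ PP := hsub (Finset.mem_insert_self _ _)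
        have hXPc := hXP
        rw [hPP, Finset.mem_powersetCard] at hXPc
        have hXX : XX.card + 1 ≤ p := by
          have := Finset.card_le_card hsub
          rw [Finset.card_insert_of_notMem hX, hPPc] at this
          exact this
        have hnK : ¬ HasK B t m (cn B X S) := fun h =>
          hK (HasK.cons (hXPc.1.trans hUS) hXPc.2 (Finset.Subset.refl _) h)
        obtain ⟨F', hF'1, hF'2, hF'3⟩ := hMC B (cn B X S \ F.biUnion id)
          (fun h => hnK (h.mono Finset.sdiff_subset))
        refine ⟨F ∪ F', hF1.trans Finset.subset_union_left, ?_, ?_, ?_⟩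
        · rw [Finset.card_insert_of_notMem hX]
          have := Finset.card_union_le F F'
          nlinarith
        · exact hF3.union (Finset.sdiff_subset.trans (cn_sub B X S)) hF'2 Finset.disjoint_sdiff
        · have hmono : ∀ Y, (hit B (cn B Y S) (F ∪ F')) ⊆ hit B (cn B Y S) F := by
            intro Y w hw
            simp only [hit, Finset.mem_filter] at hw ⊢
            exact ⟨hw.1, fun T hT => hw.2 T (Finset.mem_union_left _ hT)⟩
          intro Y hY
          rw [Finset.mem_insert] at hY
          rcases hY with rfl | hY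
          · have hsub2 : hit B (cn B Y S) (F ∪ F') ⊆
                hit B (cn B Y S \ F.biUnion id) F' ∪ F.biUnion id := by
              intro w hw
              simp only [hit, Finset.mem_filter] at hw
              by_cases hwF : w ∈ F.biUnion id
              · exact Finset.mem_union_right _ hwF
              · apply Finset.mem_union_left
                simp only [hit, Finset.mem_filter, Finset.mem_sdiff]
                exact ⟨⟨hw.1, hwF⟩, fun T hT => hw.2 T (Finset.mem_union_right _ hT)⟩
            have h1 := Finset.card_le_card hsub2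
            have h2 := Finset.card_union_le (hit B (cn B Y S \ F.biUnion id) F') (F.biUnion id)
            have h3 := hF3.card_biUnion
            have h4 : F.card ≤ M0 := by
              rw [hM0]
              have : XX.card * M' ≤ p * M' := Nat.mul_le_mul_right _ (by omega)
              omega
            have h5 : F.card * a ≤ M0 * a := Nat.mul_le_mul_right _ h4
            omega
          · exact (Finset.card_le_card (hmono Y)).trans (hF4 Y hY)
    obtain ⟨F, hF1, hF2, hF3, hF4⟩ := key PP (Finset.Subset.refl _)
    refine ⟨F, by rw [hPPc] at hF2; exact hF2, hF3, ?_⟩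
    have hcov : hit B S F ⊆ PP.biUnion (fun X => hit B (cn B X S) F) := by
      intro w hw
      simp only [hit, Finset.mem_filter] at hw
      have hch : ∀ T ∈ F0, ∃ x ∈ T, B.Adj x w := fun T hT => hw.2 T (hF1 hT)
      have : Nonempty V := ⟨w⟩
      choose! x hx1 hx2 using hch
      have hinj : Set.InjOn x (F0 : Set (Finset V)) := by
        intro T hT T' hT' he
        by_contra hne
        have := hF0.2 T hT T' hT' hne
        exact Finset.disjoint_left.mp this (hx1 T hT) (he ▸ hx1 T' hT')
      have hXc : (F0.image x).card = m := by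
        rw [Finset.card_image_of_injOn hinj, hF0c]
      rw [Finset.mem_biUnion]
      refine ⟨F0.image x, ?_, ?_⟩
      · rw [hPP, Finset.mem_powersetCard]
        refine ⟨?_, hXc⟩
        intro y hy
        rw [Finset.mem_image] at hy
        obtain ⟨T, hT, rfl⟩ := hy
        rw [hU, Finset.mem_biUnion]
        exact ⟨T, hT, hx1 T hT⟩
      · simp only [hit, cn, Finset.mem_filter]
        refine ⟨⟨hw.1, ?_⟩, hw.2⟩
        intro y hy
        rw [Finset.mem_image] at hy
        obtain ⟨T, hT, rfl⟩ := hy
        exact hx2 T hT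
    have h1 := (Finset.card_le_card hcov).trans Finset.card_biUnion_le
    have h2 : ∑ X ∈ PP, (hit B (cn B X S) F).card ≤ ∑ _X ∈ PP, (C' + M0 * a) :=
      Finset.sum_le_sum (fun X hX => hF4 X hX)
    rw [Finset.sum_const, hPPc, smul_eq_mul] at h2
    omega

end Pool.Agent.L7h70.RG
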