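import Pool.Agent.L7h70.RG.Place

/-!
# Completing a partial placement by Hall's theorem
-/

set_option autoImplicit false

namespace Pool.Agent.L7h70.RG

open Finset
open scoped Classical

/-- number of `u ∈ J` with a preplaced neighbour whose image is a blue neighbour of `w` -/
noncomputable def exc {α V : Type} (G : SimpleGraph α) (B : SimpleGraph V) (P : Finset α)
    (φ0 : α → V) (J : Finset α) (w : V) : ℕ :=
  (J.filter (fun u => ∃ v ∈ P, G.Adj u v ∧ B.Adj (φ0 v) w)).card

lemma exc_eq_zero {α V : Type} (G : SimpleGraph α) (B : SimpleGraph V) (P : Finset α)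
    (φ0 : α → V) (J : Finset α) (w : V) (h : ∀ u ∈ J, ∀ v ∈ P, G.Adj u v → ¬ B.Adj (φ0 v) w) :
    exc G B P φ0 J w = 0 := by
  unfold exc
  rw [Finset.card_eq_zero, Finset.filter_eq_empty_iff]
  rintro u hu ⟨v, hv, huv, hB⟩
  exact h u hu v hv huv hB

lemma exc_le {α V : Type} (G : SimpleGraph α) (B : SimpleGraph V) (P : Finset α)
    (φ0 : α → V) (J : Finset α) (w : V) : exc G B P φ0 J w ≤ ∑ v ∈ P, dg G J v := by
  have h1 : (J.filter (fun u => ∃ v ∈ P, G.Adj u v ∧ B.Adj (φ0 v) w)) ⊆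
      P.biUnion (fun v => nb G J v) := by
    intro u hu
    rw [Finset.mem_filter] at hu
    obtain ⟨hu1, v, hv, huv, _⟩ := hu
    rw [Finset.mem_biUnion]
    refine ⟨v, hv, ?_⟩
    simp only [nb, Finset.mem_filter]
    exact ⟨hu1, huv.symm⟩
  exact (Finset.card_le_card h1).trans Finset.card_biUnion_le

/-- Spanning embedding from prepared data. -/
theorem pack_core {α V ι : Type} [Fintype α] [Fintype ι] [Nonempty V] (G : SimpleGraph α)
    (B : SimpleGraph V) (d a : ℕ)
    (hG : ∀ S : Finset α, S.Nonempty → ∃ v ∈ S, dg G S v ≤ d)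
    (I P : Finset α) (hI : ∀ u ∈ I, ∀ v ∈ I, ¬ G.Adj u v) (hIa : ∀ u ∈ I, dg G univ u ≤ a)
    (φ0 : α → V) (hinj0 : Set.InjOn φ0 P)
    (hadj0 : ∀ u ∈ P, ∀ v ∈ P, G.Adj u v → ¬ B.Adj (φ0 u) (φ0 v))
    (W F W0 : Finset V) (hWc : W.card = Fintype.card α) (hFW : F ⊆ W)
    (hPW : ∀ v ∈ P, φ0 v ∈ W ∧ φ0 v ∉ F) (hrem : ∀ w ∈ W, w ∉ P.image φ0 → w ∈ W0)
    (Δ : ℝ) (hΔ : 0 ≤ Δ) (hdeg : ∀ w ∈ W0, (dg B W w : ℝ) ≤ Δ)
    (hPdeg : ∀ v ∈ P, v ∉ I → (dg B W (φ0 v) : ℝ) ≤ Δ)
    (hPI : ∀ u ∈ P, u ∈ I → ∀ v, G.Adj u v → v ∈ P)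
    (hPa : ∀ v, v ∉ P → v ∉ I → dg G P v ≤ a + 1)
    (c : ℝ) (hc : 0 < c)
    (hF : (((univ \ I) \ P).card : ℝ) + (d + (a + 1 : ℕ)) * Δ + c ≤ F.card)
    (lam : ℝ) (hlam : Δ / c * 4 * Real.exp 4 ≤ lam) (hlama : lam * a ≤ 1)
    (J : ι → Finset α) (hJ : ∀ i, J i ⊆ I \ P ∧ (J i).Nonempty) (D : ι → ℝ) (hD : ∀ i, 0 < D i)
    (hJD : ∀ i v, v ∉ P → v ∉ I → (dg G (J i) v : ℝ) ≤ D i * (J i).card)
    (hsel : ∀ j : ℕ, 1 ≤ j → (j : ℝ) ≤ a * Δ → ∃ sel : Finset ι,
      (∑ i ∈ sel, Fintype.card ι * (W0.card : ℝ) * Real.exp (-(1 / D i)) < j) ∧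
      ∀ w ∈ W0, ∃ i ∈ sel, 2 * j + 2 * exc G B P φ0 (J i) w ≤ (J i).card + 1) :
    ∃ φ : α → V, Function.Injective φ ∧ (∀ v, φ v ∈ W) ∧
      ∀ u v, G.Adj u v → ¬ B.Adj (φ u) (φ v) := by
  set T : Finset α := (univ \ I) \ P with hT
  have hTmem : ∀ v, v ∈ T ↔ v ∉ I ∧ v ∉ P := by
    intro v; simp [hT]
  have hlam0 : 0 ≤ lam := le_trans (by positivity) hlam
  have hFW0 : F ⊆ W0 := by
    intro w hw
    apply hrem w (hFW hw)
    intro h
    rw [Finset.mem_image] at h
    obtain ⟨v, hv, rfl⟩ := h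
    exact (hPW v hv).2 hw
  have hdgFW : ∀ x, (dg B F x : ℝ) ≤ dg B W x := fun x => by exact_mod_cast dg_mono B hFW x
  obtain ⟨φ, hφinj, hφF, hφadj, hφadjP, hfail⟩ := place G B d (a + 1) hG T P φ0
    (fun v hv => hPa v ((hTmem v).mp hv).2 ((hTmem v).mp hv).1) W0 F Δ c hΔ hc
    (by
      intro v hv u hu huv
      have hv' := (hTmem v).mp hv
      have hu' : u ∉ I := fun h => hv'.2 (hPI u hu h v huv.symm)
      exact (hdgFW _).trans (hPdeg u hu hu'))
    (fun x hx => (hdgFW x).trans (hdeg x (hFW0 hx)))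
    (fun w hw => (hdgFW w).trans (hdeg w hw)) hF
    (fun i v => (dg G (J i) v : ℝ) / (J i).card) D hD
    (by
      intro i v hv
      have hv' := (hTmem v).mp hv
      have hpos : (0:ℝ) < (J i).card := by exact_mod_cast Finset.card_pos.mpr (hJ i).2
      refine ⟨by positivity, ?_⟩
      rw [div_le_iff₀ hpos]
      exact hJD i v hv'.2 hv'.1)
    lam hlam
    (by
      intro i
      have hpos : (0:ℝ) < (J i).card := by exact_mod_cast Finset.card_pos.mpr (hJ i).2
      have h1 : ∑ v ∈ T, (dg G (J i) v : ℝ) / (J i).card ≤ a := by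
        rw [← Finset.sum_div, div_le_iff₀ hpos]
        have h2 : (∑ v ∈ T, (dg G (J i) v : ℝ)) = ∑ u ∈ J i, (dg G T u : ℝ) := by
          exact_mod_cast sum_dg_comm G T (J i)
        rw [h2]
        have h3 : ∑ u ∈ J i, (dg G T u : ℝ) ≤ ∑ _u ∈ J i, (a : ℝ) := by
          apply Finset.sum_le_sum
          intro u hu
          have h4 : u ∈ I := (Finset.mem_sdiff.mp ((hJ i).1 hu)).1
          have h5 : dg G T u ≤ a := (dg_mono G (Finset.subset_univ T) u).trans (hIa u h4)
          exact_mod_cast h5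
        rw [Finset.sum_const, nsmul_eq_mul] at h3
        linarith
      exact (mul_le_mul_of_nonneg_left h1 hlam0).trans hlama)
  set φ1 : α → V := fun v => if v ∈ P then φ0 v else φ v with hφ1
  have e1 : ∀ v ∈ P, φ1 v = φ0 v := fun v hv => by simp only [hφ1]; rw [if_pos hv]
  have e2 : ∀ v ∈ T, φ1 v = φ v := fun v hv => by
    simp only [hφ1]; rw [if_neg ((hTmem v).mp hv).2]
  set I' : Finset α := I \ P with hI'
  have hI'mem : ∀ v, v ∈ I' ↔ v ∈ I ∧ v ∉ P := by intro v; simp [hI']
  have hcase : ∀ v, v ∉ I' → v ∈ P ∨ v ∈ T := by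
    intro v hv
    rw [hI'mem] at hv
    by_cases h : v ∈ P
    · exact Or.inl h
    · right
      rw [hTmem]
      exact ⟨fun h' => hv ⟨h', h⟩, h⟩
  have hφ1W : ∀ v, v ∉ I' → φ1 v ∈ W := by
    intro v hv
    rcases hcase v hv with h | h
    · rw [e1 v h]; exact (hPW v h).1
    · rw [e2 v h]; exact hFW (hφF v h)
  have hφ1inj : Set.InjOn φ1 ((univ \ I' : Finset α) : Set α) := by
    intro u hu v hv huv
    have hu' : u ∉ I' := by simpa using hu
    have hv' : v ∉ I' := by simpa using hv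
    rcases hcase u hu' with h | h
    · rcases hcase v hv' with h' | h'
      · rw [e1 u h, e1 v h'] at huv; exact hinj0 h h' huv
      · rw [e1 u h, e2 v h'] at huv
        exact absurd (huv ▸ hφF v h') (hPW u h).2
    · rcases hcase v hv' with h' | h'
      · rw [e2 u h, e1 v h'] at huv
        exact absurd (huv ▸ hφF u h) (hPW v h').2
      · rw [e2 u h, e2 v h'] at huv; exact hφinj h h' huv
  have hφ1adj : ∀ u v, u ∉ I' → v ∉ I' → G.Adj u v → ¬ B.Adj (φ1 u) (φ1 v) := by
    intro u v hu hv huv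
    rcases hcase u hu with h | h
    · rcases hcase v hv with h' | h'
      · rw [e1 u h, e1 v h']; exact hadj0 u h v h' huv
      · rw [e1 u h, e2 v h']
        intro hB
        exact hφadjP v h' u h huv.symm hB.symm
    · rcases hcase v hv with h' | h'
      · rw [e2 u h, e1 v h']; exact hφadjP u h v h' huv
      · rw [e2 u h, e2 v h']; exact hφadj u h v h' huv
  -- remaining vertices
  set Wrem : Finset V := W \ (univ \ I').image φ1 with hWrem
  have himgW : (univ \ I').image φ1 ⊆ W := by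
    intro w hw
    rw [Finset.mem_image] at hw
    obtain ⟨v, hv, rfl⟩ := hw
    exact hφ1W v (by simpa using hv)
  have hWremc : Wrem.card = I'.card := by
    have h1 : Wrem.card + ((univ \ I').image φ1).card = W.card :=
      Finset.card_sdiff_add_card_eq_card himgW
    rw [Finset.card_image_of_injOn hφ1inj] at h1
    have h2 : (univ \ I').card + I'.card = (univ : Finset α).card :=
      Finset.card_sdiff_add_card_eq_card (Finset.subset_univ _)
    rw [Finset.card_univ] at h2
    omega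
  have hWrem0 : ∀ w ∈ Wrem, w ∈ W0 := by
    intro w hw
    rw [hWrem, Finset.mem_sdiff] at hw
    apply hrem w hw.1
    intro h
    apply hw.2
    rw [Finset.mem_image] at h ⊢
    obtain ⟨v, hv, rfl⟩ := h
    refine ⟨v, ?_, e1 v hv⟩
    simp only [Finset.mem_sdiff, Finset.mem_univ, true_and]
    rw [hI'mem]
    exact fun h => h.2 hv
  set op : V → Finset α := fun w => I'.filter (fun u => ∀ v, G.Adj u v → ¬ B.Adj (φ1 v) w) with hop
  -- neighbours of I' are not in I'
  have hnbI' : ∀ u ∈ I', ∀ v, G.Adj u v → v ∉ I := by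
    intro u hu v huv hv
    exact hI u ((hI'mem u).mp hu).1 v hv huv
  -- large sets
  have hlarge : ∀ S : Finset V, S ⊆ Wrem → (a : ℝ) * Δ < S.card → S.card ≤ (S.biUnion op).card := by
    intro S hS hSc
    have h1 : I' ⊆ S.biUnion op := by
      intro u hu
      by_contra hcon
      have h2 : S ⊆ (nb G univ u).biUnion (fun v => nb B W (φ1 v)) := by
        intro w hw
        have h3 : u ∉ op w := fun h => hcon (Finset.mem_biUnion.mpr ⟨w, hw, h⟩)
        simp only [hop, Finset.mem_filter, not_and, not_forall, not_not] at h3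
        obtain ⟨v, hv1, hv2⟩ := h3 hu
        rw [Finset.mem_biUnion]
        refine ⟨v, by simpa [nb] using hv1, ?_⟩
        simp only [nb, Finset.mem_filter]
        have h4 := hS hw
        rw [hWrem, Finset.mem_sdiff] at h4
        exact ⟨h4.1, hv2⟩
      have h3 := (Finset.card_le_card h2).trans Finset.card_biUnion_le
      have h4 : ((∑ v ∈ nb G univ u, (nb B W (φ1 v)).card : ℕ) : ℝ) ≤ ∑ _v ∈ nb G univ u, Δ := by
        push_cast
        apply Finset.sum_le_sum
        intro v hv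
        have huv : G.Adj u v := by simpa [nb] using hv
        have hvI : v ∉ I := hnbI' u hu v huv
        have hvI' : v ∉ I' := fun h => hvI ((hI'mem v).mp h).1
        rcases hcase v hvI' with h | h
        · rw [e1 v h]; exact hPdeg v h hvI
        · rw [e2 v h]; exact hdeg _ (hFW0 (hφF v h))
      rw [Finset.sum_const, nsmul_eq_mul] at h4
      have h5 : ((nb G univ u).card : ℝ) ≤ a := by
        exact_mod_cast hIa u ((hI'mem u).mp hu).1
      have h6 := mul_le_mul_of_nonneg_right h5 hΔ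
      have h7 : (S.card : ℝ) ≤ ((∑ v ∈ nb G univ u, (nb B W (φ1 v)).card : ℕ) : ℝ) := by
        exact_mod_cast h3
      linarith
    calc S.card ≤ Wrem.card := Finset.card_le_card hS
      _ = I'.card := hWremc
      _ ≤ _ := Finset.card_le_card h1
  -- non-failing vertices have large open sets
  have hopen : ∀ w ∈ W0, ∀ (i : ι) (j : ℕ),
      2 * j + 2 * exc G B P φ0 (J i) w ≤ (J i).card + 1 →
      ¬ 1 / 2 ≤ hw B φ T (fun v => (dg G (J i) v : ℝ) / (J i).card) w → j ≤ (op w).card := by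
    intro w hw0 i j hj hnf
    push Not at hnf
    have hpos : (0:ℝ) < (J i).card := by exact_mod_cast Finset.card_pos.mpr (hJ i).2
    unfold exc at hj
    set E1 := (J i).filter (fun u => ∃ v ∈ P, G.Adj u v ∧ B.Adj (φ0 v) w) with hE1
    set E2 := (T.filter (fun v => B.Adj (φ v) w)).biUnion (fun v => nb G (J i) v) with hE2
    have hcov : J i ⊆ op w ∪ E1 ∪ E2 := by
      intro u hu
      by_contra hcon
      simp only [Finset.mem_union, not_or] at hcon
      obtain ⟨⟨h1, h2⟩, h3⟩ := hcon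
      have huI' : u ∈ I' := (hJ i).1 hu
      simp only [hop, Finset.mem_filter, not_and, not_forall, not_not] at h1
      obtain ⟨v, hv1, hv2⟩ := h1 huI'
      have hvI : v ∉ I := hnbI' u huI' v hv1
      have hvI' : v ∉ I' := fun h => hvI ((hI'mem v).mp h).1
      rcases hcase v hvI' with h | h
      · rw [e1 v h] at hv2
        apply h2
        rw [hE1, Finset.mem_filter]
        exact ⟨hu, v, h, hv1, hv2⟩
      · rw [e2 v h] at hv2
        apply h3
        rw [hE2, Finset.mem_biUnion]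
        refine ⟨v, by simp [h, hv2], ?_⟩
        simp only [nb, Finset.mem_filter]
        exact ⟨hu, hv1.symm⟩
    have hE2c : 2 * (E2.card : ℝ) < (J i).card := by
      have h1 : (E2.card : ℝ) ≤ ∑ v ∈ T.filter (fun v => B.Adj (φ v) w), (dg G (J i) v : ℝ) := by
        exact_mod_cast Finset.card_biUnion_le
      have h2 : hw B φ T (fun v => (dg G (J i) v : ℝ) / (J i).card) w * (J i).card =
          ∑ v ∈ T.filter (fun v => B.Adj (φ v) w), (dg G (J i) v : ℝ) := by
        unfold RG.hw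
        rw [← Finset.sum_div, div_mul_cancel₀ _ hpos.ne']
      have h3 := mul_lt_mul_of_pos_right hnf hpos
      rw [h2] at h3
      linarith
    have hE2c' : 2 * E2.card < (J i).card := by exact_mod_cast hE2c
    have h1 := Finset.card_le_card hcov
    have h2 := Finset.card_union_le (op w ∪ E1) E2
    have h3 := Finset.card_union_le (op w) E1
    omega
  have hsmall : ∀ S : Finset V, S ⊆ Wrem → S.Nonempty → (S.card : ℝ) ≤ a * Δ →
      S.card ≤ (S.biUnion op).card := by
    intro S hS hSne hSc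
    obtain ⟨sel, hsel1, hsel2⟩ := hsel S.card (Finset.card_pos.mpr hSne) hSc
    by_contra hcon
    push Not at hcon
    have h1 : S ⊆ sel.biUnion (fun i => W0.filter (fun w => 1 / 2 ≤
        hw B φ T (fun v => (dg G (J i) v : ℝ) / (J i).card) w)) := by
      intro w hwS
      have hw0 := hWrem0 w (hS hwS)
      obtain ⟨i, hi, hi2⟩ := hsel2 w hw0
      rw [Finset.mem_biUnion]
      refine ⟨i, hi, ?_⟩
      rw [Finset.mem_filter]
      refine ⟨hw0, ?_⟩
      by_contra hnf
      have h2 := hopen w hw0 i S.card hi2 hnf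
      have h3 : (op w).card ≤ (S.biUnion op).card :=
        Finset.card_le_card (Finset.subset_biUnion_of_mem op hwS)
      omega
    have h2 := (Finset.card_le_card h1).trans Finset.card_biUnion_le
    have h3 : (S.card : ℝ) ≤ ∑ i ∈ sel, ((W0.filter (fun w => 1 / 2 ≤
        hw B φ T (fun v => (dg G (J i) v : ℝ) / (J i).card) w)).card : ℝ) := by
      exact_mod_cast h2
    have h4 := h3.trans (Finset.sum_le_sum (fun i _ => hfail i))
    linarith
  -- Hall
  have hHall := (Finset.all_card_le_biUnion_card_iff_exists_injective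
    (fun w : {w // w ∈ Wrem} => op w.1)).mp (by
      intro s
      set S : Finset V := s.image Subtype.val with hS
      have hSc : S.card = s.card := Finset.card_image_of_injective _ Subtype.val_injective
      have hSW : S ⊆ Wrem := by
        intro w hw
        rw [hS, Finset.mem_image] at hw
        obtain ⟨x, _, rfl⟩ := hw
        exact x.2
      have hbi : s.biUnion (fun w : {w // w ∈ Wrem} => op w.1) = S.biUnion op := by
        rw [hS, Finset.image_biUnion]
      rw [hbi, ← hSc]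
      rcases S.eq_empty_or_nonempty with h0 | hne
      · rw [h0]; simp
      · rcases le_or_gt (S.card : ℝ) (a * Δ) with h | h
        · exact hsmall S hSW hne h
        · exact hlarge S hSW h)
  obtain ⟨f, hfinj, hfop⟩ := hHall
  have himg : (Finset.univ : Finset {w // w ∈ Wrem}).image f = I' := by
    apply Finset.eq_of_subset_of_card_le
    · intro u hu
      rw [Finset.mem_image] at hu
      obtain ⟨w, _, rfl⟩ := hu
      exact (Finset.mem_filter.mp (hfop w)).1
    · rw [Finset.card_image_of_injective _ hfinj, Finset.card_univ, Fintype.card_coe, hWremc]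
  have hsurj : ∀ u ∈ I', ∃ w : {w // w ∈ Wrem}, f w = u := by
    intro u hu
    rw [← himg, Finset.mem_image] at hu
    obtain ⟨w, _, hw⟩ := hu
    exact ⟨w, hw⟩
  have hch : ∀ u, ∃ w : V, u ∈ I' → ∃ h : w ∈ Wrem, f ⟨w, h⟩ = u := by
    intro u
    by_cases hu : u ∈ I'
    · obtain ⟨w, hw⟩ := hsurj u hu
      exact ⟨w.1, fun _ => ⟨w.2, hw⟩⟩
    · exact ⟨Classical.arbitrary V, fun h => absurd h hu⟩
  choose g hg using hch
  set Φ : α → V := fun u => if u ∈ I' then g u else φ1 u with hΦ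
  have E1 : ∀ u ∈ I', Φ u = g u := fun u hu => by simp only [hΦ]; rw [if_pos hu]
  have E2 : ∀ u, u ∉ I' → Φ u = φ1 u := fun u hu => by simp only [hΦ]; rw [if_neg hu]
  have hgW : ∀ u ∈ I', g u ∈ Wrem := fun u hu => (hg u hu).1
  have hgadj : ∀ u ∈ I', ∀ v, G.Adj u v → ¬ B.Adj (φ1 v) (g u) := by
    intro u hu v huv
    obtain ⟨h1, h2⟩ := hg u hu
    have h3 := hfop ⟨g u, h1⟩
    rw [h2] at h3
    exact (Finset.mem_filter.mp h3).2 v huv
  have hgne : ∀ u ∈ I', ∀ v, v ∉ I' → g u ≠ φ1 v := by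
    intro u hu v hv he
    have h1 := hgW u hu
    rw [hWrem, Finset.mem_sdiff] at h1
    apply h1.2
    rw [Finset.mem_image]
    exact ⟨v, by simpa using hv, he.symm⟩
  refine ⟨Φ, ?_, ?_, ?_⟩
  · intro u v huv
    by_cases hu : u ∈ I'
    · by_cases hv : v ∈ I'
      · rw [E1 u hu, E1 v hv] at huv
        obtain ⟨h1, h2⟩ := hg u hu
        obtain ⟨h3, h4⟩ := hg v hv
        rw [← h2, ← h4]
        congr 1
        exact Subtype.ext huv
      · rw [E1 u hu, E2 v hv] at huv
        exact absurd huv (hgne u hu v hv)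
    · by_cases hv : v ∈ I'
      · rw [E2 u hu, E1 v hv] at huv
        exact absurd huv.symm (hgne v hv u hu)
      · rw [E2 u hu, E2 v hv] at huv
        exact hφ1inj (by simpa using hu) (by simpa using hv) huv
  · intro v
    by_cases hv : v ∈ I'
    · rw [E1 v hv]; exact (Finset.mem_sdiff.mp (hgW v hv)).1
    · rw [E2 v hv]; exact hφ1W v hv
  · intro u v huv
    by_cases hu : u ∈ I'
    · have hv : v ∉ I' := fun h => hnbI' u hu v huv ((hI'mem v).mp h).1
      rw [E1 u hu, E2 v hv]
      intro hB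
      exact hgadj u hu v huv hB.symm
    · by_cases hv : v ∈ I'
      · rw [E2 u hu, E1 v hv]
        exact hgadj v hv u huv.symm
      · rw [E2 u hu, E2 v hv]
        exact hφ1adj u v hu hv huv

end Pool.Agent.L7h70.RG
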