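import Pool.Agent.L7h70.RG.Slack

/-!
# Decomposition of the vertex set into near-cliques of the red graph, and connectivity between them
-/

set_option autoImplicit false

namespace Pool.Agent.L7h70.RG

open Finset
open scoped Classical

lemma notConn_Dn {V : Type} {B : SimpleGraph V} {α μ : ℝ} {A C : Finset V}
    (h : ¬ Conn B α μ A C) : Dn B A C (μ * A.card) (μ * C.card) α := by
  intro Y hY hYc
  by_contra hcon
  push Not at hcon
  apply h
  refine ⟨A.filter (fun x => (dg B Y x : ℝ) < α * Y.card), Finset.filter_subset _ _, Y, hY,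
    hcon.le, hYc, ?_⟩
  have h1 : ∑ x ∈ A.filter (fun x => (dg B Y x : ℝ) < α * Y.card), (dg B Y x : ℝ) ≤
      ∑ _x ∈ A.filter (fun x => (dg B Y x : ℝ) < α * Y.card), (α * Y.card) := by
    apply Finset.sum_le_sum
    intro x hx
    rw [Finset.mem_filter] at hx
    exact hx.2.le
  rw [Finset.sum_const, nsmul_eq_mul] at h1
  linarith

/-- greedy decomposition into near-cliques -/
theorem decomp (t m : ℕ) (δ : ℝ) (hδ : 0 < δ) : ∃ c : ℝ, ∃ u0 : ℕ, 0 < c ∧ c ≤ 1 ∧
    ∀ {V : Type} (B : SimpleGraph V) (x0 : ℝ), (u0 : ℝ) ≤ x0 → 0 < x0 → ∀ (U : Finset V),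
      ¬ HasK B t m U → ∃ (M : ℕ) (Q : Fin M → Finset V), (∀ i, Q i ⊆ U) ∧
        (∀ i j, i ≠ j → Disjoint (Q i) (Q j)) ∧ (∀ i, c * x0 ≤ (Q i).card) ∧
        (∀ i, ∀ v ∈ Q i, (dg B (Q i) v : ℝ) ≤ δ * (Q i).card) ∧
        ((U.card : ℝ) < ∑ i, ((Q i).card : ℝ) + x0) := by
  obtain ⟨c, u0, hc, hc1, h⟩ := near_clique m δ hδ t
  refine ⟨c, u0, hc, hc1, ?_⟩
  intro V B x0 hx0 hx0pos U
  induction U using Finset.strongInduction with
  | H U ih =>
    intro hK
    by_cases hU : (U.card : ℝ) < x0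
    · refine ⟨0, fun i => i.elim0, fun i => i.elim0, fun i => i.elim0, fun i => i.elim0,
        fun i => i.elim0, ?_⟩
      simpa using hU
    · push Not at hU
      obtain ⟨Q0, hQ0, hQ0c, hQ0d⟩ := h B U hK (by exact_mod_cast hx0.trans hU)
      have hQ0c' : c * x0 ≤ Q0.card := le_trans (mul_le_mul_of_nonneg_left hU hc.le) hQ0c
      have hQ0pos : (0:ℝ) < Q0.card := lt_of_lt_of_le (by positivity) hQ0c'
      have hss : U \ Q0 ⊂ U := by
        apply Finset.sdiff_ssubset hQ0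
        rw [← Finset.card_pos]
        exact_mod_cast hQ0pos
      obtain ⟨M, Q, h1, h2, h3, h4, h5⟩ := ih (U \ Q0) hss (fun h => hK (h.mono hss.subset))
      refine ⟨M + 1, Fin.cons Q0 Q, ?_, ?_, ?_, ?_, ?_⟩
      · intro i
        refine Fin.cases ?_ (fun j => ?_) i
        · simpa using hQ0
        · simp only [Fin.cons_succ]
          exact (h1 j).trans Finset.sdiff_subset
      · have hd : ∀ j, Disjoint Q0 (Q j) := fun j =>
          Finset.disjoint_of_subset_right (h1 j) Finset.disjoint_sdiff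
        intro i j
        refine Fin.cases ?_ (fun i' => ?_) i
        · refine Fin.cases ?_ (fun j' => ?_) j
          · intro h; exact absurd rfl h
          · intro _; simp only [Fin.cons_zero, Fin.cons_succ]; exact hd j'
        · refine Fin.cases ?_ (fun j' => ?_) j
          · intro _; simp only [Fin.cons_zero, Fin.cons_succ]; exact (hd i').symm
          · intro h
            simp only [Fin.cons_succ]
            exact h2 i' j' (fun h' => h (by rw [h']))
      · intro i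
        refine Fin.cases ?_ (fun j => ?_) i
        · simpa using hQ0c'
        · simpa using h3 j
      · intro i
        refine Fin.cases ?_ (fun j => ?_) i
        · simpa using hQ0d
        · simpa using h4 j
      · rw [Fin.sum_univ_succ]
        simp only [Fin.cons_zero, Fin.cons_succ]
        have h6 : (U \ Q0).card + Q0.card = U.card := Finset.card_sdiff_add_card_eq_card hQ0
        have h7 : ((U \ Q0).card : ℝ) + Q0.card = U.card := by exact_mod_cast h6
        linarith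

/-- a short walk through a set of vertices of a component -/
lemma cover_walk {ι : Type} [Fintype ι] (CG : SimpleGraph ι) (i0 : ι) (C : Finset ι)
    (hC : ∀ i ∈ C, CG.Reachable i0 i) :
    ∃ (v : ι) (p : CG.Walk i0 v), (∀ i ∈ C, i ∈ p.support) ∧
      p.length ≤ C.card * Fintype.card ι := by
  induction C using Finset.induction_on with
  | empty => exact ⟨i0, SimpleGraph.Walk.nil, by simp, by simp⟩
  | insert i C hi ih =>
    obtain ⟨v, p, hp1, hp2⟩ := ih (fun j hj => hC j (Finset.mem_insert_of_mem hj))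
    have h1 : CG.Reachable v i := (p.reachable.symm).trans (hC i (Finset.mem_insert_self _ _))
    obtain ⟨q, hq⟩ := h1.exists_isPath
    refine ⟨i, p.append q, ?_, ?_⟩
    · intro j hj
      rw [SimpleGraph.Walk.mem_support_append_iff]
      rw [Finset.mem_insert] at hj
      rcases hj with rfl | hj
      · right; exact q.end_mem_support
      · left; exact hp1 j hj
    · rw [SimpleGraph.Walk.length_append, Finset.card_insert_of_notMem hi]
      have := hq.length_lt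
      nlinarith

/-- the graph of connected pairs -/
def CGr {V : Type} (B : SimpleGraph V) (α μ : ℝ) {M : ℕ} (Q : Fin M → Finset V) :
    SimpleGraph (Fin M) where
  Adj i j := i ≠ j ∧ Conn B α μ (Q i) (Q j)
  symm := ⟨fun _ _ h => ⟨h.1.symm, h.2.symm⟩⟩
  loopless := ⟨fun _ h => h.1 rfl⟩

/-- embedding into a heavy component -/
theorem slack_comp (d t m : ℕ) (ε : ℝ) (hε : 0 < ε) (hε1 : ε ≤ 1) : ∃ α : ℝ, 0 < α ∧ ∀ μ : ℝ,
    0 < μ → μ ≤ 1 → ∃ δ : ℝ, 0 < δ ∧ ∀ (Mm : ℕ) (q : ℝ), 0 < q → ∃ γ : ℝ, 0 < γ ∧ ∃ n0 : ℕ,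
    ∀ n, n0 ≤ n →
    ∀ (G : SimpleGraph (Fin n)), (∀ S : Finset (Fin n), S.Nonempty → ∃ v ∈ S, dg G S v ≤ d) →
    ∀ b : ℕ, (b : ℝ) ≤ γ * n → (∀ u v, G.Adj u v → (u : ℕ) ≤ v + b) →
    ∀ {V : Type} [Nonempty V] (B : SimpleGraph V) (M : ℕ) (Q : Fin M → Finset V), M ≤ Mm →
      (∀ i j, i ≠ j → Disjoint (Q i) (Q j)) →
      (∀ i, ∀ v ∈ Q i, (dg B (Q i) v : ℝ) ≤ δ * (Q i).card) → (∀ i, ¬ HasK B t m (Q i)) →
      (∀ i, q * n ≤ (Q i).card) → ∀ (i0 : Fin M) (C : Finset (Fin M)),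
      (∀ i ∈ C, (CGr B α μ Q).Reachable i0 i) → (1 + ε) * n ≤ ∑ i ∈ C, ((Q i).card : ℝ) →
      ∃ φ : Fin n → V, Function.Injective φ ∧ ∀ u v, G.Adj u v → ¬ B.Adj (φ u) (φ v) := by
  obtain ⟨α, hα, h⟩ := slack d t m ε hε hε1
  refine ⟨α, hα, ?_⟩
  intro μ hμ hμ1
  obtain ⟨δ, hδ, h⟩ := h μ hμ hμ1
  refine ⟨δ, hδ, ?_⟩
  intro Mm q hq
  obtain ⟨γ, hγ, n0, h⟩ := h (Mm * Mm) q hq
  refine ⟨γ, hγ, n0, ?_⟩
  intro n hn G hG b hb hbw V _ B M Q hM hdisj hnc hK hqn i0 C hC hsum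
  obtain ⟨v, p, hp1, hp2⟩ := cover_walk (CGr B α μ Q) i0 C hC
  have hCc : C.card ≤ Mm := by
    have := Finset.card_le_univ C
    rw [Fintype.card_fin] at this
    omega
  refine h n hn G hG b hb hbw B Q hdisj hnc hK hqn p.length ?_ p.getVert ?_ C ?_ hsum
  · rw [Fintype.card_fin] at hp2
    exact hp2.trans (Nat.mul_le_mul hCc hM)
  · intro j hj
    exact (p.adj_getVert_succ hj).2
  · intro i hi
    have := hp1 i hi
    rw [SimpleGraph.Walk.mem_support_iff_exists_getVert] at this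
    obtain ⟨j, hj1, hj2⟩ := this
    exact ⟨j, hj2, hj1⟩

/-- finding a complete multipartite graph in large subsets of mutually dense sets -/
theorem tool1 (α : ℝ) (hα : 0 < α) (m T : ℕ) (κ0 : ℝ) (hκ0 : 0 < κ0) : ∃ μ0 : ℝ, ∃ p : ℝ, 0 < μ0 ∧
    μ0 ≤ 1 ∧ ∀ {V : Type} (B : SimpleGraph V) (μ : ℝ), 0 ≤ μ → μ ≤ μ0 →
      ∀ (Qs Y : Fin T → Finset V), (∀ a, Y a ⊆ Qs a ∧ κ0 * (Qs a).card ≤ (Y a).card) →
      (∀ a b, a < b → Dn B (Qs a) (Qs b) (μ * (Qs a).card) (μ * (Qs b).card) α) →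
      (∀ a, p ≤ (Qs a).card) →
      ∃ A : Fin T → Finset V, (∀ a, A a ⊆ Y a ∧ (A a).card = m) ∧ ∀ a b, a < b → Cmp B (A a) (A b) := by
  obtain ⟨p, κ, hκ, hκ1, h⟩ := find_K α hα m T
  refine ⟨min 1 (κ * κ0 / (2 * (T + 1))), 2 * p / (κ * κ0), by positivity, min_le_left _ _, ?_⟩
  intro V B μ hμ hμ0 Qs Y hY hD hp
  apply h B Y (fun a => μ * (Qs a).card) (fun a => by positivity)
  · intro a b hab
    exact (hD a b hab).mono (hY a).1 (hY b).1
  · intro a
    have h1 := hp a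
    rw [div_le_iff₀ (by positivity)] at h1
    have h2 : μ ≤ κ * κ0 / (2 * (T + 1)) := hμ0.trans (min_le_right _ _)
    have h3 : (T : ℝ) * μ ≤ κ * κ0 / 2 := by
      have hT0 : (0:ℝ) ≤ T := Nat.cast_nonneg _
      have h4 : ((T : ℝ) + 1) * μ ≤ κ * κ0 / 2 := by
        have h5 := mul_le_mul_of_nonneg_left h2 (show (0:ℝ) ≤ T + 1 by positivity)
        have h6 : ((T : ℝ) + 1) * (κ * κ0 / (2 * (T + 1))) = κ * κ0 / 2 := by
          field_simp
        linarith
      nlinarith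
    have h4 : (T : ℝ) * μ * (Qs a).card ≤ κ * κ0 / 2 * (Qs a).card :=
      mul_le_mul_of_nonneg_right h3 (Nat.cast_nonneg _)
    have h5 : κ * (κ0 * (Qs a).card) ≤ κ * (Y a).card :=
      mul_le_mul_of_nonneg_left (hY a).2 hκ.le
    nlinarith

end Pool.Agent.L7h70.RG
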