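import Pool.Agent.L7h70.RG.Decomp

/-!
# Complete multipartite blue graphs from the component structure
-/

set_option autoImplicit false

namespace Pool.Agent.L7h70.RG

open Finset
open scoped Classical

/-- a blue dense pair inside a component gives a blue complete multipartite graph -/
theorem inner (α ρ : ℝ) (hα : 0 < α) (hρ : 0 < ρ) (m T : ℕ) : ∃ μ0 : ℝ, ∃ p : ℝ, 0 < μ0 ∧ μ0 ≤ 1 ∧
    0 < p ∧ ∀ {V : Type} (B : SimpleGraph V) (μ : ℝ), 0 ≤ μ → μ ≤ μ0 →
    ∀ (Qs : Fin T → Finset V) (a0 : Fin T) (P : Finset V),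
      (∀ a b, a ≠ b → Dn B (Qs a) (Qs b) (μ * (Qs a).card) (μ * (Qs b).card) α) →
      (∀ b, b ≠ a0 → Dn B P (Qs b) (μ * P.card) (μ * (Qs b).card) α) →
      (∀ a, p ≤ (Qs a).card) → p ≤ P.card →
      ρ * P.card * (Qs a0).card < ∑ x ∈ P, (dg B (Qs a0) x : ℝ) →
      ∃ A0 ⊆ P, A0.card = m ∧ ∃ A : Fin T → Finset V,
        (∀ a, A a ⊆ cn B A0 (Qs a) ∧ (A a).card = m) ∧ ∀ a b, a < b → Cmp B (A a) (A b) := by
  obtain ⟨p1, κ1, hκ1, hκ11, h1⟩ := common_multi (min (ρ / 2) α) (by positivity) m T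
  obtain ⟨μ1, p2, hμ1, hμ11, h2⟩ := tool1 α hα m T κ1 hκ1
  refine ⟨min μ1 (ρ / (4 * (T + 1))), max (max p2 1) (4 * p1 / ρ), by positivity,
    (min_le_left _ _).trans hμ11, lt_of_lt_of_le one_pos
      ((le_max_right p2 1).trans (le_max_left _ _)), ?_⟩
  intro V B μ hμ0 hμ Qs a0 P hQs hP hQc hPc hsum
  have hμ1' : μ ≤ μ1 := hμ.trans (min_le_left _ _)
  have hμ2 : μ ≤ ρ / (4 * (T + 1)) := hμ.trans (min_le_right _ _)
  have hμle1 : μ ≤ 1 := hμ1'.trans hμ11
  have hPp1 : 4 * p1 / ρ ≤ P.card := (le_max_right _ _).trans hPc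
  have hPpos : (1:ℝ) ≤ P.card := ((le_max_right p2 1).trans (le_max_left _ _)).trans hPc
  have hQpos : ∀ a, (1:ℝ) ≤ (Qs a).card := fun a =>
    ((le_max_right p2 1).trans (le_max_left _ _)).trans (hQc a)
  have hQp2 : ∀ a, p2 ≤ (Qs a).card := fun a =>
    ((le_max_left p2 1).trans (le_max_left _ _)).trans (hQc a)
  rw [div_le_iff₀ hρ] at hPp1
  set X1 : Finset V := P.filter (fun x => ρ / 2 * (Qs a0).card ≤ (dg B (Qs a0) x : ℝ)) with hX1
  have hX1c : ρ / 2 * P.card ≤ X1.card := by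
    have h3 : ∑ x ∈ P, (dg B (Qs a0) x : ℝ) ≤ ∑ x ∈ P, ((if ρ / 2 * (Qs a0).card ≤
        (dg B (Qs a0) x : ℝ) then ((Qs a0).card : ℝ) else 0) + ρ / 2 * (Qs a0).card) := by
      apply Finset.sum_le_sum
      intro x _
      split_ifs with h
      · have h4 : (dg B (Qs a0) x : ℝ) ≤ (Qs a0).card := by exact_mod_cast dg_le B (Qs a0) x
        have h5 : 0 ≤ ρ / 2 * ((Qs a0).card : ℝ) := by positivity
        linarith
      · push Not at h
        linarith
    rw [Finset.sum_add_distrib, Finset.sum_const, nsmul_eq_mul, ← Finset.sum_filter,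
      Finset.sum_const, nsmul_eq_mul, ← hX1] at h3
    have h4 : ρ / 2 * P.card * (Qs a0).card ≤ X1.card * (Qs a0).card := by linarith
    exact le_of_mul_le_mul_right h4 (by linarith [hQpos a0])
  set X : Finset V := X1.filter (fun x => ∀ b, b ≠ a0 → α * (Qs b).card ≤ (dg B (Qs b) x : ℝ))
    with hX
  have hbad : ((X1.filter (fun x => ¬ ∀ b, b ≠ a0 → α * (Qs b).card ≤
      (dg B (Qs b) x : ℝ))).card : ℝ) ≤ T * (μ * P.card) := by
    have h3 : (X1.filter (fun x => ¬ ∀ b, b ≠ a0 → α * (Qs b).card ≤ (dg B (Qs b) x : ℝ))) ⊆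
        (Finset.univ.filter (fun b : Fin T => b ≠ a0)).biUnion (fun b => P.filter
          (fun x => (dg B (Qs b) x : ℝ) < α * (Qs b).card)) := by
      intro x hx
      rw [Finset.mem_filter] at hx
      obtain ⟨hx1, hx2⟩ := hx
      push Not at hx2
      obtain ⟨b, hb, hb2⟩ := hx2
      rw [Finset.mem_biUnion]
      refine ⟨b, by simp [hb], ?_⟩
      rw [Finset.mem_filter]
      exact ⟨(Finset.mem_filter.mp hx1).1, hb2⟩
    have h4 := (Finset.card_le_card h3).trans Finset.card_biUnion_le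
    have h5 : ((∑ b ∈ Finset.univ.filter (fun b : Fin T => b ≠ a0), (P.filter
          (fun x => (dg B (Qs b) x : ℝ) < α * (Qs b).card)).card : ℕ) : ℝ) ≤
        ∑ _b ∈ Finset.univ.filter (fun b : Fin T => b ≠ a0), (μ * P.card) := by
      push_cast
      apply Finset.sum_le_sum
      intro b hb
      rw [Finset.mem_filter] at hb
      apply hP b hb.2 (Qs b) (Finset.Subset.refl _)
      have := hQpos b
      nlinarith
    rw [Finset.sum_const, nsmul_eq_mul] at h5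
    have h6 : ((Finset.univ.filter (fun b : Fin T => b ≠ a0)).card : ℝ) ≤ T := by
      have := Finset.card_le_univ (Finset.univ.filter (fun b : Fin T => b ≠ a0))
      rw [Fintype.card_fin] at this
      exact_mod_cast this
    have h7 := mul_le_mul_of_nonneg_right h6 (show (0:ℝ) ≤ μ * P.card by positivity)
    have h8 : (((X1.filter (fun x => ¬ ∀ b, b ≠ a0 → α * (Qs b).card ≤
      (dg B (Qs b) x : ℝ))).card : ℕ) : ℝ) ≤ ((∑ b ∈ Finset.univ.filter (fun b : Fin T => b ≠ a0),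
        (P.filter (fun x => (dg B (Qs b) x : ℝ) < α * (Qs b).card)).card : ℕ) : ℝ) := by
      exact_mod_cast h4
    linarith
  have hXc : (p1 : ℝ) ≤ X.card := by
    have h3 : X.card + (X1.filter (fun x => ¬ ∀ b, b ≠ a0 → α * (Qs b).card ≤
      (dg B (Qs b) x : ℝ))).card = X1.card := Finset.card_filter_add_card_filter_not _
    have h4 : (X.card : ℝ) + (X1.filter (fun x => ¬ ∀ b, b ≠ a0 → α * (Qs b).card ≤
      (dg B (Qs b) x : ℝ))).card = X1.card := by exact_mod_cast h3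
    have h5 : (T : ℝ) * μ ≤ ρ / 4 := by
      have h6 := mul_le_mul_of_nonneg_left hμ2 (show (0:ℝ) ≤ T + 1 by positivity)
      have h7 : ((T : ℝ) + 1) * (ρ / (4 * (T + 1))) = ρ / 4 := by field_simp
      nlinarith
    have h6 : (T : ℝ) * μ * P.card ≤ ρ / 4 * P.card :=
      mul_le_mul_of_nonneg_right h5 (Nat.cast_nonneg _)
    nlinarith
  obtain ⟨X', hX', hX'c, hX'k⟩ := h1 B X Qs (by exact_mod_cast hXc) (by
    intro x hx i
    rw [hX, Finset.mem_filter, hX1, Finset.mem_filter] at hx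
    by_cases hi : i = a0
    · subst hi
      refine le_trans ?_ hx.1.2
      exact mul_le_mul_of_nonneg_right (min_le_left _ _) (Nat.cast_nonneg _)
    · refine le_trans ?_ (hx.2 i hi)
      exact mul_le_mul_of_nonneg_right (min_le_right _ _) (Nat.cast_nonneg _))
  obtain ⟨A, hA1, hA2⟩ := h2 B μ hμ0 hμ1' Qs (fun a => cn B X' (Qs a))
    (fun a => ⟨cn_sub _ _ _, hX'k a⟩) (fun a b hab => hQs a b hab.ne) hQp2
  exact ⟨X', hX'.trans ((Finset.filter_subset _ _).trans (Finset.filter_subset _ _)), hX'c, A,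
    hA1, hA2⟩

/-- large common neighbourhoods in all components give a blue complete multipartite graph -/
theorem comp_K (α κ0 : ℝ) (hα : 0 < α) (hκ0 : 0 < κ0) (m T : ℕ) : ∃ μ0 : ℝ, ∃ p : ℝ, 0 < μ0 ∧
    μ0 ≤ 1 ∧ 0 < p ∧ ∀ {V : Type} (B : SimpleGraph V) (μ : ℝ), 0 ≤ μ → μ ≤ μ0 →
    ∀ (M : ℕ) (Q : Fin M → Finset V) (C : Fin T → Finset (Fin M)),
      (∀ i j, i ≠ j → Disjoint (Q i) (Q j)) → (∀ a, (C a).Nonempty) →
      (∀ a b, a ≠ b → ∀ i ∈ C a, ∀ j ∈ C b,
        Dn B (Q i) (Q j) (μ * (Q i).card) (μ * (Q j).card) α) →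
      (∀ i, p ≤ (Q i).card) → ∀ X : Finset V,
      (∀ a, κ0 * ((C a).biUnion Q).card ≤ (cn B X ((C a).biUnion Q)).card) →
      ∃ A : Fin T → Finset V, (∀ a, A a ⊆ cn B X ((C a).biUnion Q) ∧ (A a).card = m) ∧
        ∀ a b, a < b → Cmp B (A a) (A b) := by
  obtain ⟨μ1, p1, hμ1, hμ11, h⟩ := tool1 α hα m T κ0 hκ0
  refine ⟨μ1, max p1 1, hμ1, hμ11, lt_of_lt_of_le one_pos (le_max_right _ _), ?_⟩
  intro V B μ hμ0 hμ M Q C hdisj hCne hD hQc X hX
  have hQpos : ∀ i, (1:ℝ) ≤ (Q i).card := fun i => (le_max_right _ _).trans (hQc i)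
  have hch : ∀ a, ∃ i ∈ C a, κ0 * (Q i).card ≤ (cn B X (Q i)).card := by
    intro a
    by_contra hcon
    push Not at hcon
    have h1 : ∑ i ∈ C a, ((cn B X (Q i)).card : ℝ) < ∑ i ∈ C a, (κ0 * (Q i).card) :=
      Finset.sum_lt_sum_of_nonempty (hCne a) hcon
    have h2 : ((C a).biUnion Q).card = ∑ i ∈ C a, (Q i).card :=
      Finset.card_biUnion (fun i _ j _ hij => hdisj i j hij)
    have h3 : (((C a).biUnion Q).card : ℝ) = ∑ i ∈ C a, ((Q i).card : ℝ) := by exact_mod_cast h2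
    have h4 : cn B X ((C a).biUnion Q) ⊆ (C a).biUnion (fun i => cn B X (Q i)) := by
      intro y hy
      simp only [cn, Finset.mem_filter, Finset.mem_biUnion] at hy ⊢
      obtain ⟨⟨i, hi, hyi⟩, hy2⟩ := hy
      exact ⟨i, hi, hyi, hy2⟩
    have h5 := (Finset.card_le_card h4).trans Finset.card_biUnion_le
    have h6 : ((cn B X ((C a).biUnion Q)).card : ℝ) ≤ ∑ i ∈ C a, ((cn B X (Q i)).card : ℝ) := by
      exact_mod_cast h5
    have h7 := hX a
    rw [h3, Finset.mul_sum] at h7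
    linarith
  choose r hr1 hr2 using hch
  obtain ⟨A, hA1, hA2⟩ := h B μ hμ0 hμ (fun a => Q (r a)) (fun a => cn B X (Q (r a)))
    (fun a => ⟨cn_sub _ _ _, hr2 a⟩) (fun a b hab => hD a b hab.ne _ (hr1 a) _ (hr1 b))
    (fun a => (le_max_left _ _).trans (hQc (r a)))
  refine ⟨A, fun a => ⟨(hA1 a).1.trans ?_, (hA1 a).2⟩, hA2⟩
  exact Finset.filter_subset_filter _ (Finset.subset_biUnion_of_mem Q (hr1 a))

end Pool.Agent.L7h70.RG
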