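import Pool.Agent.L7h70.RG.Pack
import Pool.Agent.L7h70.RG.Inner

/-!
# From the component structure to the embedding
-/

set_option autoImplicit false

namespace Pool.Agent.L7h70.RG

open Finset
open scoped Classical

set_option maxHeartbeats 4000000 in
theorem finish (d T m s : ℕ) (hd : 1 ≤ d) (hT : 1 ≤ T) (hs : 1 ≤ s) : ∃ δ : ℝ, 0 < δ ∧ ∀ C0 : ℕ,
    ∃ γ : ℝ, 0 < γ ∧ ∃ n0 : ℕ, ∀ n, n0 ≤ n → ∀ (G : SimpleGraph (Fin n)),
    (∀ S : Finset (Fin n), S.Nonempty → ∃ v ∈ S, dg G S v ≤ d) → ∀ b : ℕ, (b : ℝ) ≤ γ * n →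
    (∀ u v, G.Adj u v → (u : ℕ) ≤ v + b) → ∀ {V : Type} [Fintype V] [Nonempty V]
    (B : SimpleGraph V), ¬ HasK B (T + 1) m univ → Fintype.card V = T * (n - 1) + s →
    ∀ (U : Fin T → Finset V), (∀ a b, a ≠ b → Disjoint (U a) (U b)) → ∀ ρ1 : ℝ, 0 < ρ1 →
    ρ1 ≤ δ / 8 → ρ1 ≤ 1 / (8 * s) → (∀ a, ((U a).card : ℝ) ≤ 2 * n) →
    (∀ a, (n : ℝ) / 2 ≤ (U a).card) → (∀ a, (n : ℝ) ≤ (U a).card + δ / 4 * n) →
    (∀ a, ∑ v ∈ U a, (dg B (U a) v : ℝ) ≤ ρ1 ^ 2 * ((U a).card : ℝ) ^ 2) →
    (univ.filter (fun v : V => ∀ a, (1 - 1 / (2 * s)) * ((U a).card : ℝ) ≤ dg B (U a) v)).card < s →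
    (univ.filter (fun v : V => ∀ a, δ / 2 * (n : ℝ) < dg B (U a) v)).card ≤ C0 →
    ∃ φ : Fin n → V, Function.Injective φ ∧ ∀ u v, G.Adj u v → ¬ B.Adj (φ u) (φ v) := by
  have hs0 : (0:ℝ) < s := by exact_mod_cast hs
  obtain ⟨δ, hδ, hpack⟩ := pack d (T + 1) m hd (1 / (8 * s)) (by positivity)
  refine ⟨δ, hδ, ?_⟩
  intro C0
  obtain ⟨γ, hγ, n0, hpack⟩ := hpack C0
  refine ⟨γ, hγ, max n0 1, ?_⟩
  intro n hn G hG b hb hbw V _ _ B hK hV U hUd ρ1 hρ10 hρ1a hρ1b hU1 hU2 hU3 hdens hfar hnn
  have hn1 : 1 ≤ n := (le_max_right _ _).trans hn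
  have hn0 : (0:ℝ) < n := by exact_mod_cast hn1
  have hs1 : (1:ℝ) ≤ s := by exact_mod_cast hs
  have hρ18 : ρ1 ≤ 1 / 8 := by
    refine hρ1b.trans ?_
    rw [div_le_div_iff₀ (by positivity) (by norm_num)]
    linarith
  have hinv : 1 / (2 * (s:ℝ)) ≤ 1 / 2 := by
    rw [div_le_div_iff₀ (by positivity) (by norm_num)]
    linarith
  have hinv0 : 0 < 1 / (2 * (s:ℝ)) := by positivity
  have hinv8 : 1 / (8 * (s:ℝ)) = 1 / (2 * s) / 4 := by field_simp; norm_num
  set δ6 : ℝ := 1 / (2 * (s:ℝ)) with hδ6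
  have hUpos : ∀ a, (0:ℝ) < (U a).card := fun a => lt_of_lt_of_le (by positivity) (hU2 a)
  set U0 : Fin T → Finset V := fun a => (U a).filter (fun v => (dg B (U a) v : ℝ) ≤
    ρ1 * (U a).card) with hU0
  have hU0U : ∀ a, U0 a ⊆ U a := fun a => Finset.filter_subset _ _
  have hU0c : ∀ a, ((U a).card : ℝ) - ρ1 * (U a).card ≤ (U0 a).card := by
    intro a
    have h1 := markov B (U a) (U a) (ρ1 * (U a).card) _ (hdens a)
    have h2 : (((U a).filter (fun x => ρ1 * (U a).card < (dg B (U a) x : ℝ))).card : ℝ) ≤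
        ρ1 * (U a).card := by
      have h3 : (ρ1 * (U a).card : ℝ) * (((U a).filter (fun x => ρ1 * (U a).card <
          (dg B (U a) x : ℝ))).card : ℝ) ≤ (ρ1 * (U a).card) * (ρ1 * (U a).card) := by
        nlinarith
      exact le_of_mul_le_mul_left h3 (mul_pos hρ10 (hUpos a))
    have h3 : (U0 a).card + ((U a).filter (fun x => ¬ (dg B (U a) x : ℝ) ≤
        ρ1 * (U a).card)).card = (U a).card := Finset.card_filter_add_card_filter_not _
    have h4 : ((U a).filter (fun x => ¬ (dg B (U a) x : ℝ) ≤ ρ1 * (U a).card)) =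
        ((U a).filter (fun x => ρ1 * (U a).card < (dg B (U a) x : ℝ))) := by
      apply Finset.filter_congr
      intro x _
      rw [not_le]
    rw [h4] at h3
    have h5 : ((U0 a).card : ℝ) + ((U a).filter (fun x => ρ1 * (U a).card <
        (dg B (U a) x : ℝ))).card = (U a).card := by exact_mod_cast h3
    linarith
  have hU0near : ∀ a, ∀ v ∈ U0 a, (dg B (U a) v : ℝ) ≤ δ / 4 * n := by
    intro a v hv
    rw [hU0, Finset.mem_filter] at hv
    have h1 := hv.2
    have h2 : ρ1 * ((U a).card : ℝ) ≤ δ / 8 * (2 * n) :=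
      mul_le_mul hρ1a (hU1 a) (Nat.cast_nonneg _) (by positivity)
    linarith
  set Xf : Finset V := univ.filter (fun v : V => ∀ a, (1 - δ6) * ((U a).card : ℝ) ≤
    dg B (U a) v) with hXf
  set Xn : Finset V := univ.filter (fun v : V => ∀ a, δ / 2 * (n : ℝ) < dg B (U a) v) with hXn
  -- assignment
  have hass : ∀ v : V, ∃ a : Fin T, v ∉ Xf → (∀ a', v ∈ U0 a' → a' = a) ∧
      ((dg B (U a) v : ℝ) ≤ δ / 2 * n ∨
        (v ∈ Xn ∧ (dg B (U a) v : ℝ) < (1 - δ6) * (U a).card)) := by
    intro v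
    by_cases h1 : ∃ a, v ∈ U0 a
    · obtain ⟨a, ha⟩ := h1
      refine ⟨a, fun _ => ⟨?_, Or.inl ?_⟩⟩
      · intro a' ha'
        by_contra hne
        exact Finset.disjoint_left.mp (hUd a' a hne) (hU0U a' ha') (hU0U a ha)
      · have := hU0near a v ha
        have h2 : δ / 4 * (n:ℝ) ≤ δ / 2 * n := by
          apply mul_le_mul_of_nonneg_right _ hn0.le
          linarith
        linarith
    · by_cases h2 : ∃ a, (dg B (U a) v : ℝ) ≤ δ / 2 * n
      · obtain ⟨a, ha⟩ := h2
        exact ⟨a, fun _ => ⟨fun a' ha' => absurd ⟨a', ha'⟩ h1, Or.inl ha⟩⟩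
      · push Not at h2
        have hvn : v ∈ Xn := by
          rw [hXn, Finset.mem_filter]
          exact ⟨Finset.mem_univ _, h2⟩
        by_cases h3 : v ∈ Xf
        · exact ⟨⟨0, hT⟩, fun h => absurd h3 h⟩
        · have h4 : ∃ a, (dg B (U a) v : ℝ) < (1 - δ6) * (U a).card := by
            rw [hXf, Finset.mem_filter, not_and] at h3
            have := h3 (Finset.mem_univ _)
            push Not at this
            exact this
          obtain ⟨a, ha⟩ := h4
          exact ⟨a, fun _ => ⟨fun a' ha' => absurd ⟨a', ha'⟩ h1, Or.inr ⟨hvn, ha⟩⟩⟩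
  choose f hf using hass
  -- pigeonhole
  have hcount : T * (n - 1) < (univ \ Xf).card := by
    have h1 : (univ \ Xf).card + Xf.card = (univ : Finset V).card :=
      Finset.card_sdiff_add_card_eq_card (Finset.subset_univ _)
    rw [Finset.card_univ, hV] at h1
    omega
  obtain ⟨a, _, ha⟩ := Finset.exists_lt_card_fiber_of_mul_lt_card_of_maps_to
    (s := univ \ Xf) (t := (univ : Finset (Fin T))) (f := f) (n := n - 1)
    (fun v _ => Finset.mem_univ _) (by
      rw [Finset.card_univ, Fintype.card_fin]; exact hcount)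
  set A : Finset V := (univ \ Xf).filter (fun v => f v = a) with hA
  have hAn : n ≤ A.card := by omega
  have hU0A : U0 a ⊆ A := by
    intro v hv
    have hvf : v ∉ Xf := by
      intro h
      rw [hXf, Finset.mem_filter] at h
      have h1 := h.2 a
      rw [hU0, Finset.mem_filter] at hv
      have h2 := hv.2
      have h3 : ρ1 * ((U a).card : ℝ) < (1 - δ6) * (U a).card := by
        apply mul_lt_mul_of_pos_right _ (hUpos a)
        linarith
      linarith
    rw [hA, Finset.mem_filter, Finset.mem_sdiff]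
    exact ⟨⟨Finset.mem_univ _, hvf⟩, ((hf v hvf).1 a hv).symm⟩
  have hKW : ∀ W : Finset V, ¬ HasK B (T + 1) m W := fun W h => hK (h.mono (Finset.subset_univ _))
  rcases le_or_gt n (U0 a).card with hcase | hcase
  · obtain ⟨W, hW, hWc⟩ := Finset.exists_subset_card_eq hcase
    obtain ⟨φ, h1, _, h3⟩ := hpack n ((le_max_left _ _).trans hn) G hG b hb hbw B W ∅ hWc (hKW W)
      (Finset.empty_subset _) (by simp) (by
        intro v hv
        rw [Finset.mem_sdiff] at hv
        have h1 := hU0near a v (hW hv.1)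
        have h2 : (dg B W v : ℝ) ≤ dg B (U a) v := by
          exact_mod_cast dg_mono B (hW.trans (hU0U a)) v
        have h3 : 0 ≤ δ * (n:ℝ) := by positivity
        linarith) (by simp)
    exact ⟨φ, h1, h3⟩
  · obtain ⟨W, hW1, hW2, hWc⟩ := Finset.exists_subsuperset_card_eq hU0A hcase.le hAn
    set Z : Finset V := W.filter (fun v => ¬ (dg B (U a) v : ℝ) ≤ δ / 2 * n) with hZ
    have hWA : ∀ v ∈ W, v ∉ Xf ∧ f v = a := by
      intro v hv
      have := hW2 hv
      rw [hA, Finset.mem_filter, Finset.mem_sdiff] at this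
      exact ⟨this.1.2, this.2⟩
    have hZn : ∀ v ∈ Z, v ∈ Xn ∧ (dg B (U a) v : ℝ) < (1 - δ6) * (U a).card := by
      intro v hv
      rw [hZ, Finset.mem_filter] at hv
      obtain ⟨h1, h2⟩ := hWA v hv.1
      have h3 := (hf v h1).2
      rw [h2] at h3
      rcases h3 with h3 | h3
      · exact absurd h3 hv.2
      · exact h3
    have hrest : ((W \ U0 a).card : ℝ) ≤ δ / 2 * n := by
      have h1 : (W \ U0 a).card + (U0 a).card = W.card := Finset.card_sdiff_add_card_eq_card hW1
      have h2 : ((W \ U0 a).card : ℝ) + (U0 a).card = n := by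
        rw [hWc] at h1
        exact_mod_cast h1
      have h3 := hU0c a
      have h4 := hU3 a
      have h5 : ρ1 * ((U a).card : ℝ) ≤ δ / 8 * (2 * n) :=
        mul_le_mul hρ1a (hU1 a) (Nat.cast_nonneg _) (by positivity)
      linarith
    obtain ⟨φ, h1, _, h3⟩ := hpack n ((le_max_left _ _).trans hn) G hG b hb hbw B W Z hWc (hKW W)
      (Finset.filter_subset _ _) ((Finset.card_le_card (fun v hv => (hZn v hv).1)).trans hnn) (by
        intro v hv
        rw [Finset.mem_sdiff] at hv
        have h1 : (dg B (U a) v : ℝ) ≤ δ / 2 * n := by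
          by_contra hcon
          exact hv.2 (by rw [hZ, Finset.mem_filter]; exact ⟨hv.1, hcon⟩)
        have h2 : dg B W v ≤ dg B (U a) v + (W \ U0 a).card := by
          have h4 : nb B W v ⊆ nb B (U a) v ∪ (W \ U0 a) := by
            intro x hx
            simp only [nb, Finset.mem_filter, Finset.mem_union, Finset.mem_sdiff] at hx ⊢
            by_cases hx0 : x ∈ U0 a
            · left; exact ⟨hU0U a hx0, hx.2⟩
            · right; exact ⟨hx.1, hx0⟩
          exact (Finset.card_le_card h4).trans (Finset.card_union_le _ _)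
        have h5 : (dg B W v : ℝ) ≤ dg B (U a) v + (W \ U0 a).card := by exact_mod_cast h2
        linarith) (by
        intro z hz
        have h1 := (hZn z hz).2
        have h2 : U0 a ⊆ ((W \ Z).filter (fun v => ¬ B.Adj z v)) ∪ nb B (U a) z := by
          intro x hx
          rw [Finset.mem_union, Finset.mem_filter, Finset.mem_sdiff]
          by_cases hzx : B.Adj z x
          · right
            simp only [nb, Finset.mem_filter]
            exact ⟨hU0U a hx, hzx⟩
          · left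
            refine ⟨⟨hW1 hx, ?_⟩, hzx⟩
            intro hxZ
            rw [hZ, Finset.mem_filter] at hxZ
            apply hxZ.2
            have h3 := hU0near a x hx
            have h4 : δ / 4 * (n:ℝ) ≤ δ / 2 * n := by
              apply mul_le_mul_of_nonneg_right _ hn0.le
              linarith
            linarith
        have h3 := (Finset.card_le_card h2).trans (Finset.card_union_le _ _)
        have h4 : ((U0 a).card : ℝ) ≤ ((W \ Z).filter (fun v => ¬ B.Adj z v)).card +
            dg B (U a) z := by exact_mod_cast h3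
        have h5 := hU0c a
        have h6 := hU2 a
        have h7 : ρ1 * ((U a).card : ℝ) ≤ δ6 / 4 * (U a).card := by
          apply mul_le_mul_of_nonneg_right _ (Nat.cast_nonneg _)
          rw [← hinv8]; exact hρ1b
        rw [hinv8]
        have h8 : δ6 / 4 * (n / 2) ≤ δ6 / 4 * (U a).card :=
          mul_le_mul_of_nonneg_left h6 (by positivity)
        have h9 : (δ6 - δ6 / 4) * ((U a).card : ℝ) ≤
            ((W \ Z).filter (fun v => ¬ B.Adj z v)).card := by linarith
        have h10 : (δ6 - δ6 / 4) * ((U a).card : ℝ) = 3 * (δ6 / 4 * (U a).card) := by ring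
        have h11 : 0 ≤ δ6 / 4 * (n:ℝ) := by positivity
        linarith)
    exact ⟨φ, h1, h3⟩

end Pool.Agent.L7h70.RG
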