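import Pool.Agent.L7h70.RG.Upper

/-!
# Ramsey goodness: upper and lower bound in terms of graph containment
-/

set_option autoImplicit false

namespace Pool.Agent.L7h70.RG

open Finset
open scoped Classical

lemma contain_of_K {m k : ℕ} {V : Type} [Nonempty V] (H : SimpleGraph (Fin m)) (B : SimpleGraph V)
    (c : Fin m → Fin k) (hc : ∀ u v, H.Adj u v → c u ≠ c v) (A : Fin k → Finset V)
    (hA : ∀ i j, i ≠ j → Cmp B (A i) (A j))
    (hAc : ∀ i, (univ.filter (fun u => c u = i)).card ≤ (A i).card) : H.IsContained B := by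
  have hex : ∀ i, ∃ f : Fin m → V, Set.InjOn f (univ.filter (fun u => c u = i) : Finset (Fin m)) ∧
      ∀ x ∈ univ.filter (fun u => c u = i), f x ∈ A i := fun i => exists_inj _ _ (hAc i)
  choose f hf1 hf2 using hex
  have hmem : ∀ u, f (c u) u ∈ A (c u) := fun u => hf2 (c u) u (by simp)
  refine ⟨⟨⟨fun u => f (c u) u, ?_⟩, ?_⟩⟩
  · intro u v huv
    exact hA _ _ (hc u v huv) _ (hmem u) _ (hmem v)
  · intro u v huv
    have huv' : f (c u) u = f (c v) v := huv
    by_cases h : c u = c v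
    · rw [← h] at huv'
      exact hf1 (c u) (by simp) (by simp [h]) huv'
    · exfalso
      have h1 := hA _ _ h _ (hmem u) _ (hmem v)
      rw [huv'] at h1
      exact B.loopless.irrefl _ h1

/-- relabelling by a bandwidth ordering -/
lemma relabel {n d b : ℕ} (G : SimpleGraph (Fin n))
    (hG : ∀ S : Finset (Fin n), S.Nonempty → ∃ v ∈ S, dg G S v ≤ d) (f : Fin n ≃ Fin n)
    (hf : ∀ u v : Fin n, G.Adj u v → |((f u : ℕ) : ℤ) - ((f v : ℕ) : ℤ)| ≤ (b : ℤ)) :
    (∀ S : Finset (Fin n), S.Nonempty → ∃ v ∈ S, dg (G.comap f.symm) S v ≤ d) ∧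
      ∀ u v : Fin n, (G.comap f.symm).Adj u v → (u : ℕ) ≤ v + b := by
  refine ⟨?_, ?_⟩
  · intro S hS
    obtain ⟨v, hv, hvd⟩ := hG (S.map f.symm.toEmbedding) (by simpa using hS)
    rw [Finset.mem_map] at hv
    obtain ⟨x, hx, rfl⟩ := hv
    refine ⟨x, hx, ?_⟩
    refine le_trans ?_ hvd
    unfold dg
    have h1 : (nb (G.comap f.symm) S x).map f.symm.toEmbedding ⊆
        nb G (S.map f.symm.toEmbedding) (f.symm.toEmbedding x) := by
      intro y hy
      rw [Finset.mem_map] at hy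
      obtain ⟨z, hz, rfl⟩ := hy
      simp only [nb, Finset.mem_filter] at hz ⊢
      exact ⟨Finset.mem_map_of_mem _ hz.1, hz.2⟩
    have h2 := Finset.card_le_card h1
    rwa [Finset.card_map] at h2
  · intro u v huv
    have h1 := hf _ _ huv
    rw [Equiv.apply_symm_apply, Equiv.apply_symm_apply, abs_le] at h1
    omega

/-- upper bound for bandwidth `β n = o(n)` -/
theorem upper_beta (d : ℕ) (β : ℕ → ℕ)
    (hβ : Filter.Tendsto (fun n : ℕ => (β n : ℝ) / (n : ℝ)) Filter.atTop (nhds 0)) (T m s : ℕ)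
    (hT : 1 ≤ T) (hs : 1 ≤ s) (hsm : s ≤ m) :
    ∃ n0 : ℕ, ∀ n, n0 ≤ n → ∀ (G : SimpleGraph (Fin n)),
    (∀ S : Finset (Fin n), S.Nonempty → ∃ v ∈ S, dg G S v ≤ d) →
    (∀ u v, G.Adj u v → (u : ℕ) ≤ v + β n) → ∀ {V : Type} [Fintype V] (B : SimpleGraph V),
    Fintype.card V = T * (n - 1) + s →
    (¬ ∃ (A0 : Finset V) (A : Fin T → Finset V), A0.card = s ∧ (∀ a, (A a).card = m) ∧
      (∀ a, Cmp B A0 (A a)) ∧ ∀ a b, a < b → Cmp B (A a) (A b)) →
    ∃ φ : Fin n → V, Function.Injective φ ∧ ∀ u v, G.Adj u v → ¬ B.Adj (φ u) (φ v) := by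
  obtain ⟨γ, hγ, n0, h⟩ := upper (d + 1) T m s (by omega) hT hs hsm
  have h1 : ∀ᶠ n : ℕ in Filter.atTop, (β n : ℝ) / (n : ℝ) < γ := hβ.eventually_lt_const hγ
  rw [Filter.eventually_atTop] at h1
  obtain ⟨n1, h1⟩ := h1
  refine ⟨max n0 (max n1 1), ?_⟩
  intro n hn G hG hbw V _ B hV hH
  have hn1 : 1 ≤ n := ((le_max_right _ _).trans (le_max_right _ _)).trans hn
  have hn0 : (0:ℝ) < n := by exact_mod_cast hn1
  have hb : (β n : ℝ) ≤ γ * n := by
    have h2 := h1 n (((le_max_left _ _).trans (le_max_right _ _)).trans hn)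
    rw [div_lt_iff₀ hn0] at h2
    exact h2.le
  exact h n ((le_max_left _ _).trans hn) G (fun S hS => by
    obtain ⟨v, hv, hvd⟩ := hG S hS
    exact ⟨v, hv, by omega⟩) (β n) hb hbw B hV hH

/-- the lower bound construction: disjoint cliques given by `x / (n - 1)` -/
def LB (N n : ℕ) : SimpleGraph (Fin N) where
  Adj x y := x ≠ y ∧ (x : ℕ) / (n - 1) = (y : ℕ) / (n - 1)
  symm := ⟨fun _ _ h => ⟨h.1.symm, h.2.symm⟩⟩
  loopless := ⟨fun _ h => h.1 rfl⟩

lemma lower1 {n N : ℕ} (hn : 2 ≤ n) (G : SimpleGraph (Fin n)) (hG : G.Connected) :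
    ¬ G.IsContained (LB N n) := by
  rintro ⟨φ⟩
  have hadj : ∀ u v, G.Adj u v → ((φ u : Fin N) : ℕ) / (n - 1) = ((φ v : Fin N) : ℕ) / (n - 1) := by
    intro u v huv
    exact (φ.toHom.map_adj huv).2
  have hreach : ∀ u v, ((φ u : Fin N) : ℕ) / (n - 1) = ((φ v : Fin N) : ℕ) / (n - 1) := by
    intro u v
    obtain ⟨p⟩ := hG.preconnected u v
    induction p with
    | nil => rfl
    | cons h _ ih => exact (hadj _ _ h).trans ih
  have hinj : Function.Injective (fun u => ((φ u : Fin N) : ℕ)) := by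
    intro u v huv
    exact φ.injective (Fin.ext huv)
  set z : Fin n := ⟨0, by omega⟩ with hz
  set j := ((φ z : Fin N) : ℕ) / (n - 1) with hj
  have h1 : (univ : Finset (Fin n)).image (fun u => ((φ u : Fin N) : ℕ)) ⊆
      Finset.Ico (j * (n - 1)) (j * (n - 1) + (n - 1)) := by
    intro x hx
    rw [Finset.mem_image] at hx
    obtain ⟨u, _, rfl⟩ := hx
    have h2 := hreach u z
    rw [← hj] at h2
    have h3 : 0 < n - 1 := by omega
    rw [Finset.mem_Ico]
    have h4 := Nat.div_add_mod' ((φ u : Fin N) : ℕ) (n - 1)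
    have h5 := Nat.mod_lt ((φ u : Fin N) : ℕ) h3
    rw [h2] at h4
    constructor <;> omega
  have h2 := Finset.card_le_card h1
  rw [Finset.card_image_of_injective _ hinj, Finset.card_univ, Fintype.card_fin, Nat.card_Ico] at h2
  omega

lemma lower2 {n m k s : ℕ} (hn : 2 ≤ n) (hsn : s ≤ n) (hk : 1 ≤ k) (hs : 1 ≤ s)
    (H : SimpleGraph (Fin m))
    (hH : ∀ c : Fin m → Fin k, (∀ u v : Fin m, H.Adj u v → c u ≠ c v) →
      ∀ i : Fin k, s ≤ ({u : Fin m | c u = i} : Set (Fin m)).ncard) :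
    ¬ H.IsContained (LB ((k - 1) * (n - 1) + s - 1) n)ᶜ := by
  rintro ⟨φ⟩
  have h3 : 0 < n - 1 := by omega
  have hlt : ∀ x : Fin ((k - 1) * (n - 1) + s - 1), (x : ℕ) / (n - 1) < k := by
    intro x
    rw [Nat.div_lt_iff_lt_mul h3]
    have h1 := x.2
    have h2 : (k - 1) * (n - 1) + (n - 1) = k * (n - 1) := by
      obtain ⟨k', rfl⟩ : ∃ k', k = k' + 1 := ⟨k - 1, by omega⟩
      rw [Nat.add_sub_cancel]
      ring
    omega
  set c : Fin m → Fin k := fun u => ⟨((φ u : Fin _) : ℕ) / (n - 1), hlt _⟩ with hc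
  have h4 := hH c (by
    intro u v huv
    have h5 := φ.toHom.map_adj huv
    have h6 : ¬ (LB ((k - 1) * (n - 1) + s - 1) n).Adj (φ u) (φ v) := (SimpleGraph.compl_adj _ _ _).mp h5 |>.2
    have h7 : φ u ≠ φ v := (SimpleGraph.compl_adj _ _ _).mp h5 |>.1
    intro h8
    apply h6
    refine ⟨h7, ?_⟩
    have := congrArg Fin.val h8
    exact this) ⟨k - 1, by omega⟩
  have h5 : ({u : Fin m | c u = ⟨k - 1, by omega⟩} : Set (Fin m)).ncard ≤ s - 1 := by
    have h6 : ({u : Fin m | c u = ⟨k - 1, by omega⟩} : Set (Fin m)).ncard ≤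
        ((Finset.Ico ((k - 1) * (n - 1)) ((k - 1) * (n - 1) + s - 1) : Finset ℕ) : Set ℕ).ncard := by
      apply Set.ncard_le_ncard_of_injOn (fun u => ((φ u : Fin _) : ℕ))
      · intro u hu
        have hu' : c u = ⟨k - 1, by omega⟩ := hu
        have h7 : ((φ u : Fin _) : ℕ) / (n - 1) = k - 1 := congrArg Fin.val hu'
        have h8 := Nat.div_mul_le_self ((φ u : Fin _) : ℕ) (n - 1)
        rw [h7] at h8
        rw [Finset.mem_coe, Finset.mem_Ico]
        exact ⟨h8, (φ u).2⟩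
      · intro u _ v _ huv
        exact φ.injective (Fin.ext huv)
    rw [Set.ncard_coe_finset, Nat.card_Ico] at h6
    omega
  omega

end Pool.Agent.L7h70.RG
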