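import Pool.Agent.L7h70.RG.Cliques

/-!
# Preparations: independent sets of low degree vertices, chunks, special cliques
-/

set_option autoImplicit false

namespace Pool.Agent.L7h70.RG

open Finset
open scoped Classical

/-- number of edges of a degenerate graph -/
lemma edges_le {α : Type} (G : SimpleGraph α) (d : ℕ)
    (hG : ∀ S : Finset α, S.Nonempty → ∃ v ∈ S, dg G S v ≤ d) (T : Finset α) :
    ∑ v ∈ T, dg G T v ≤ 2 * d * T.card := by
  induction T using Finset.strongInduction with
  | H T ih =>
    rcases T.eq_empty_or_nonempty with h0 | hne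
    · subst h0; simp
    · obtain ⟨v, hv, hvd⟩ := hG T hne
      have h1 := ih (T.erase v) (Finset.erase_ssubset hv)
      have hc : (T.erase v).card + 1 = T.card := Finset.card_erase_add_one hv
      have h2 : ∀ u ∈ T.erase v, dg G T u = dg G (T.erase v) u + (if G.Adj v u then 1 else 0) := by
        intro u hu
        have hins : insert v (T.erase v) = T := Finset.insert_erase hv
        unfold dg nb
        conv_lhs => rw [← hins]
        rw [Finset.filter_insert]
        have hsymm : G.Adj u v ↔ G.Adj v u := ⟨fun h => h.symm, fun h => h.symm⟩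
        by_cases h : G.Adj v u
        · rw [if_pos (hsymm.mpr h), if_pos h, Finset.card_insert_of_notMem (by simp)]
        · rw [if_neg (fun h' => h (hsymm.mp h')), if_neg h]
          simp
      have h3 : ∑ u ∈ T.erase v, (if G.Adj v u then 1 else 0) = dg G T v := by
        rw [← Finset.card_filter]
        unfold dg nb
        congr 1
        ext u
        simp only [Finset.mem_filter, Finset.mem_erase]
        constructor
        · rintro ⟨⟨_, h⟩, h'⟩; exact ⟨h, h'⟩
        · rintro ⟨h, h'⟩; exact ⟨⟨(G.ne_of_adj h').symm, h⟩, h'⟩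
      rw [← Finset.sum_erase_add T _ hv, Finset.sum_congr rfl h2, Finset.sum_add_distrib, h3]
      nlinarith

/-- independent set of low degree vertices -/
lemma indep {n : ℕ} (d : ℕ) (G : SimpleGraph (Fin n))
    (hG : ∀ S : Finset (Fin n), S.Nonempty → ∃ v ∈ S, dg G S v ≤ d) :
    ∃ I : Finset (Fin n), (∀ u ∈ I, ∀ v ∈ I, ¬ G.Adj u v) ∧ (∀ u ∈ I, dg G univ u ≤ 4 * d) ∧
      n ≤ (8 * d + 2) * I.card := by
  set Low : Finset (Fin n) := univ.filter (fun v => dg G univ v ≤ 4 * d) with hLow
  have h1 := edges_le G d hG univ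
  rw [Finset.card_univ, Fintype.card_fin] at h1
  set High : Finset (Fin n) := univ.filter (fun v => ¬ dg G univ v ≤ 4 * d) with hHigh
  have h2 : High.card * (4 * d + 1) ≤ 2 * d * n := by
    refine le_trans ?_ h1
    calc High.card * (4 * d + 1) = ∑ _v ∈ High, (4 * d + 1) := by rw [Finset.sum_const, smul_eq_mul]
      _ ≤ ∑ v ∈ High, dg G univ v := by
          apply Finset.sum_le_sum
          intro v hv
          rw [hHigh, Finset.mem_filter] at hv
          omega
      _ ≤ ∑ v, dg G univ v := Finset.sum_le_sum_of_subset (Finset.subset_univ _)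
  have h3 : Low.card + High.card = n := by
    have := Finset.card_filter_add_card_filter_not (s := (univ : Finset (Fin n)))
      (fun v => dg G univ v ≤ 4 * d)
    rw [Finset.card_univ, Fintype.card_fin] at this
    exact this
  have h4 : n ≤ 2 * Low.card := by
    have h5 : 2 * High.card ≤ n := by
      by_contra hcon
      push Not at hcon
      have h6 : n + 1 ≤ 2 * High.card := hcon
      have h7 : (n + 1) * (4 * d + 1) ≤ 2 * High.card * (4 * d + 1) := Nat.mul_le_mul_right _ h6
      nlinarith
    omega
  -- maximal independent subset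
  obtain ⟨I, hI, hImax⟩ := Finset.exists_max_image
    (Low.powerset.filter (fun I => ∀ u ∈ I, ∀ v ∈ I, ¬ G.Adj u v)) (fun I => I.card)
    ⟨∅, by simp⟩
  rw [Finset.mem_filter, Finset.mem_powerset] at hI
  refine ⟨I, hI.2, ?_, ?_⟩
  · intro u hu
    have := hI.1 hu
    rw [hLow, Finset.mem_filter] at this
    exact this.2
  · have hcov : Low ⊆ I ∪ I.biUnion (fun u => nb G univ u) := by
      intro v hv
      by_contra hcon
      simp only [Finset.mem_union, Finset.mem_biUnion, not_or, not_exists, not_and] at hcon
      have h5 : ∀ u ∈ I, ¬ G.Adj u v := by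
        intro u hu h
        exact hcon.2 u hu (by simp [nb, h])
      have h6 := hImax (insert v I) (by
        rw [Finset.mem_filter, Finset.mem_powerset]
        refine ⟨Finset.insert_subset hv hI.1, ?_⟩
        intro x hx y hy
        rw [Finset.mem_insert] at hx hy
        rcases hx with rfl | hx
        · rcases hy with rfl | hy
          · exact G.loopless.irrefl _
          · exact fun h => h5 y hy h.symm
        · rcases hy with rfl | hy
          · exact h5 x hx
          · exact hI.2 x hx y hy)
      rw [Finset.card_insert_of_notMem hcon.1] at h6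
      omega
    have h5 := Finset.card_le_card hcov
    have h6 := Finset.card_union_le I (I.biUnion (fun u => nb G univ u))
    have h7 : (I.biUnion (fun u => nb G univ u)).card ≤ ∑ u ∈ I, dg G univ u :=
      Finset.card_biUnion_le
    have h8 : ∑ u ∈ I, dg G univ u ≤ ∑ _u ∈ I, 4 * d := by
      apply Finset.sum_le_sum
      intro u hu
      have := hI.1 hu
      rw [hLow, Finset.mem_filter] at this
      exact this.2
    rw [Finset.sum_const, smul_eq_mul] at h8
    nlinarith

lemma emb_gap {n k : ℕ} (e : Fin k ↪o Fin n) : ∀ (r : ℕ) (i j : Fin k), (i : ℕ) + r = j →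
    ((e i : Fin n) : ℕ) + r ≤ (e j : Fin n) := by
  intro r
  induction r with
  | zero => intro i j hij; have : i = j := Fin.ext (by simpa using hij); rw [this]; simp
  | succ r ih =>
    intro i j hij
    have hj : (i : ℕ) + r < k := by have := j.2; omega
    have h1 := ih i ⟨i + r, hj⟩ rfl
    have h2 : e ⟨i + r, hj⟩ < e j := e.strictMono (by
      rw [Fin.lt_def]
      simp only
      omega)
    rw [Fin.lt_def] at h2
    omega

/-- far apart chunks of a set of positions -/
lemma chunks {n : ℕ} (I : Finset (Fin n)) (g s : ℕ) (h : 2 * g * s ≤ I.card) :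
    ∃ J : ℕ → Finset (Fin n), (∀ p < g, J p ⊆ I ∧ (J p).card = s) ∧
      ∀ p < g, ∀ q < g, p ≠ q → ∀ u ∈ J p, ∀ v ∈ J q, (u : ℕ) + s < v ∨ (v : ℕ) + s < u := by
  set e := I.orderEmbOfFin rfl with he
  set J : ℕ → Finset (Fin n) := fun p =>
    (Finset.univ.filter (fun i : Fin I.card => 2 * p * s ≤ i ∧ (i : ℕ) < 2 * p * s + s)).map e.toEmbedding
    with hJ
  refine ⟨J, ?_, ?_⟩
  · intro p hp
    refine ⟨?_, ?_⟩
    · intro v hv
      simp only [hJ, Finset.mem_map] at hv
      obtain ⟨i, _, rfl⟩ := hv
      exact Finset.orderEmbOfFin_mem I rfl i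
    · simp only [hJ, Finset.card_map]
      have h1 : 2 * p * s + s ≤ I.card := by
        have h2 : 2 * p * s + s ≤ 2 * g * s := by
          have : 2 * p + 1 ≤ 2 * g := by omega
          calc 2 * p * s + s = (2 * p + 1) * s := by ring
            _ ≤ 2 * g * s := Nat.mul_le_mul_right _ this
        omega
      rw [← Finset.card_map Fin.valEmbedding]
      have h2 : (Finset.univ.filter (fun i : Fin I.card => 2 * p * s ≤ i ∧
          (i : ℕ) < 2 * p * s + s)).map Fin.valEmbedding = Finset.Ico (2 * p * s) (2 * p * s + s) := by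
        ext x
        simp only [Finset.mem_map, Finset.mem_filter, Finset.mem_univ, true_and,
          Fin.valEmbedding_apply, Finset.mem_Ico]
        constructor
        · rintro ⟨i, hi, rfl⟩; exact hi
        · intro hx
          exact ⟨⟨x, by omega⟩, hx, rfl⟩
      rw [h2, Nat.card_Ico]
      omega
  · have key : ∀ p q, p < q → ∀ u ∈ J p, ∀ v ∈ J q, (u : ℕ) + s < v := by
      intro p q hpq u hu v hv
      simp only [hJ, Finset.mem_map, Finset.mem_filter, Finset.mem_univ, true_and] at hu hv
      obtain ⟨i, hi, rfl⟩ := hu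
      obtain ⟨j, hj, rfl⟩ := hv
      have h1 : 2 * p * s + 2 * s ≤ 2 * q * s := by
        calc 2 * p * s + 2 * s = 2 * (p + 1) * s := by ring
          _ ≤ 2 * q * s := Nat.mul_le_mul_right _ (by omega)
      have h2 := emb_gap e ((j : ℕ) - i) i j (by omega)
      have h3 : s < (j : ℕ) - i := by omega
      have h4 : ((e.toEmbedding i : Fin n) : ℕ) = (e i : Fin n) := rfl
      have h5 : ((e.toEmbedding j : Fin n) : ℕ) = (e j : Fin n) := rfl
      rw [h4, h5]
      omega
    intro p _ q _ hne u hu v hv
    rcases Nat.lt_or_gt_of_ne hne with h1 | h1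
    · exact Or.inl (key p q h1 u hu v hv)
    · exact Or.inr (key q p h1 v hv u hu)

/-- disjoint red cliques in prescribed sets -/
lemma special (t m a : ℕ) : ∃ u0 : ℕ, ∀ {V : Type} (B : SimpleGraph V) (Y : Finset V)
    (A : V → Finset V), (∀ z ∈ Y, ¬ HasK B t m (A z) ∧ u0 + Y.card * a ≤ (A z).card) →
    ∃ Q : V → Finset V, (∀ z ∈ Y, Q z ⊆ A z ∧ (Q z).card = a ∧ ∀ x ∈ Q z, ∀ y ∈ Q z, ¬ B.Adj x y) ∧
      ∀ z ∈ Y, ∀ z' ∈ Y, z ≠ z' → Disjoint (Q z) (Q z') := by
  obtain ⟨u0, hu⟩ := red_clique t m a
  refine ⟨u0, ?_⟩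
  intro V B Y A hA
  have key : ∀ Y' : Finset V, Y' ⊆ Y → ∃ Q : V → Finset V,
      (∀ z ∈ Y', Q z ⊆ A z ∧ (Q z).card = a ∧ ∀ x ∈ Q z, ∀ y ∈ Q z, ¬ B.Adj x y) ∧
      ∀ z ∈ Y', ∀ z' ∈ Y', z ≠ z' → Disjoint (Q z) (Q z') := by
    intro Y'
    induction Y' using Finset.induction_on with
    | empty => intro _; exact ⟨fun _ => ∅, by simp, by simp⟩
    | insert z Y' hz ih =>
      intro hsub
      obtain ⟨Q, hQ1, hQ2⟩ := ih ((Finset.subset_insert _ _).trans hsub)
      have hzY : z ∈ Y := hsub (Finset.mem_insert_self _ _)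
      obtain ⟨hK, hc⟩ := hA z hzY
      have h1 : (Y'.biUnion Q).card ≤ Y'.card * a := by
        have h2 : (Y'.biUnion Q).card ≤ ∑ z ∈ Y', (Q z).card := Finset.card_biUnion_le
        have h3 : ∑ z ∈ Y', (Q z).card = ∑ _z ∈ Y', a :=
          Finset.sum_congr rfl (fun z hz => (hQ1 z hz).2.1)
        rw [h3, Finset.sum_const, smul_eq_mul] at h2
        exact h2
      have h2 : Y'.card ≤ Y.card :=
        Finset.card_le_card ((Finset.subset_insert _ _).trans hsub)
      have h3 : Y'.card * a ≤ Y.card * a := Nat.mul_le_mul_right _ h2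
      have h4 : (A z).card ≤ (A z \ Y'.biUnion Q).card + (Y'.biUnion Q).card := by
        have := Finset.card_le_card_sdiff_add_card (s := A z) (t := Y'.biUnion Q)
        omega
      obtain ⟨T, hT, hTc, hTi⟩ := hu B (A z \ Y'.biUnion Q)
        (fun h => hK (h.mono Finset.sdiff_subset)) (by omega)
      have hdis : ∀ z' ∈ Y', Disjoint T (Q z') := by
        intro z' hz'
        rw [Finset.disjoint_left]
        intro x hx hx'
        have := hT hx
        rw [Finset.mem_sdiff] at this
        exact this.2 (Finset.mem_biUnion.mpr ⟨z', hz', hx'⟩)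
      refine ⟨Function.update Q z T, ?_, ?_⟩
      · intro z' hz'
        by_cases h : z' = z
        · subst h
          rw [Function.update_self]
          exact ⟨hT.trans Finset.sdiff_subset, hTc, hTi⟩
        · rw [Function.update_of_ne h]
          exact hQ1 z' (Finset.mem_of_mem_insert_of_ne hz' h)
      · intro z1 hz1 z2 hz2 hne
        by_cases h1 : z1 = z
        · subst h1
          rw [Function.update_self, Function.update_of_ne hne.symm]
          exact hdis z2 (Finset.mem_of_mem_insert_of_ne hz2 hne.symm)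
        · by_cases h2 : z2 = z
          · subst h2
            rw [Function.update_self, Function.update_of_ne h1]
            exact (hdis z1 (Finset.mem_of_mem_insert_of_ne hz1 h1)).symm
          · rw [Function.update_of_ne h1, Function.update_of_ne h2]
            exact hQ2 z1 (Finset.mem_of_mem_insert_of_ne hz1 h1) z2
              (Finset.mem_of_mem_insert_of_ne hz2 h2) hne
  exact key Y (Finset.Subset.refl _)

end Pool.Agent.L7h70.RG
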