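import Pool.Agent.L7h70.RG.Basic

/-!
# Nested stages inside a block of low degree vertices
-/

set_option autoImplicit false

namespace Pool.Agent.L7h70.RG

open Finset
open scoped Classical

lemma exp_neg_inv_le (p : ℕ) {D : ℝ} (hD : 0 < D) :
    Real.exp (-(1 / D)) ≤ (p.factorial : ℝ) * D ^ p := by
  have h1 : (1 / D) ^ p / (p.factorial : ℝ) ≤ Real.exp (1 / D) :=
    Real.pow_div_factorial_le_exp (1 / D) (by positivity) p
  rw [Real.exp_neg]
  have hp : (0:ℝ) < p.factorial := by exact_mod_cast Nat.factorial_pos p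
  have h2 : (0:ℝ) < (1 / D) ^ p / (p.factorial : ℝ) := by positivity
  have h3 : (Real.exp (1 / D))⁻¹ ≤ ((1 / D) ^ p / (p.factorial : ℝ))⁻¹ := inv_anti₀ h2 h1
  have h4 : ((1 / D) ^ p / (p.factorial : ℝ))⁻¹ = (p.factorial : ℝ) * D ^ p := by
    rw [one_div, inv_pow, inv_div, div_inv_eq_mul]
  linarith

lemma tiny (x : ℝ) (hx : 0 < x) : x * Real.exp (-(1 / (1 / (x + 1)))) < 1 := by
  have h1 : 1 / (1 / (x + 1)) = x + 1 := by field_simp
  rw [h1, Real.exp_neg]
  have h2 := Real.add_one_le_exp (x + 1)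
  have h3 : x < Real.exp (x + 1) := by linarith
  rw [← div_eq_mul_inv, div_lt_one (Real.exp_pos _)]
  exact h3

/-- Nested stages. -/
theorem stages {α : Type} [Fintype α] (G : SimpleGraph α) (Qc Λ n : ℝ) (hQ : 0 < Qc) (hn : 0 < n)
    (A : ℕ) (hΛ : 2 * Qc * ((2 ^ A).factorial : ℝ) ≤ Λ) (hΛ1 : 1 ≤ Λ) :
    ∀ s ≤ A, ∀ (τ J : Finset α), J.Nonempty → (J.card : ℝ) ≤ n →
      (∀ u ∈ J, τ ⊆ nb G univ u ∧ (nb G univ u).card ≤ τ.card + s) →
      ∃ τ' : Finset α, τ ⊆ τ' ∧ (∃ u ∈ J, τ' ⊆ nb G univ u) ∧ ∃ Js : ℕ → Finset α, ∃ Ds : ℕ → ℝ,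
        (∀ i ≤ s, Js i ⊆ J ∧ (Js i).Nonempty ∧ 0 < Ds i ∧
          ∀ v, v ∉ τ' → (dg G (Js i) v : ℝ) ≤ Ds i * (Js i).card) ∧
        ∀ j : ℕ, 1 ≤ j → (2 * j : ℝ) ≤ Λ * (J.card / (Λ * n)) ^ (2 ^ s) * n + 1 →
          ∃ i ≤ s, 2 * j ≤ (Js i).card + 1 ∧ Qc * n * Real.exp (-(1 / Ds i)) < j := by
  have hΛ0 : 0 < Λ := by linarith
  have hΛn : 0 < Λ * n := by positivity
  -- general facts
  have hx1 : ∀ J : Finset α, (J.card : ℝ) ≤ n → (J.card : ℝ) / (Λ * n) ≤ 1 := by
    intro J hJ
    rw [div_le_one hΛn]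
    nlinarith
  have hle : ∀ (J : Finset α) (e : ℕ), (J.card : ℝ) ≤ n → 1 ≤ e → ∀ j : ℕ,
      (2 * j : ℝ) ≤ Λ * (J.card / (Λ * n)) ^ e * n + 1 → 2 * j ≤ J.card + 1 := by
    intro J e hJ he j hj
    have h1 : ((J.card : ℝ) / (Λ * n)) ^ e ≤ (J.card : ℝ) / (Λ * n) :=
      pow_le_of_le_one (by positivity) (hx1 J hJ) (by omega)
    have h2 : Λ * ((J.card : ℝ) / (Λ * n)) * n = J.card := by field_simp
    have h3 : Λ * ((J.card : ℝ) / (Λ * n)) ^ e * n ≤ Λ * ((J.card : ℝ) / (Λ * n)) * n := by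
      apply mul_le_mul_of_nonneg_right _ hn.le
      exact mul_le_mul_of_nonneg_left h1 hΛ0.le
    have h4 : (2 * j : ℝ) ≤ J.card + 1 := by linarith
    exact_mod_cast h4
  -- all degrees outside τ vanish
  have hbase : ∀ s, ∀ (τ J : Finset α), J.Nonempty → (J.card : ℝ) ≤ n →
      (∀ u ∈ J, τ ⊆ nb G univ u) → (∀ v, v ∉ τ → dg G J v = 0) →
      ∃ τ' : Finset α, τ ⊆ τ' ∧ (∃ u ∈ J, τ' ⊆ nb G univ u) ∧ ∃ Js : ℕ → Finset α, ∃ Ds : ℕ → ℝ,
        (∀ i ≤ s, Js i ⊆ J ∧ (Js i).Nonempty ∧ 0 < Ds i ∧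
          ∀ v, v ∉ τ' → (dg G (Js i) v : ℝ) ≤ Ds i * (Js i).card) ∧
        ∀ j : ℕ, 1 ≤ j → (2 * j : ℝ) ≤ Λ * (J.card / (Λ * n)) ^ (2 ^ s) * n + 1 →
          ∃ i ≤ s, 2 * j ≤ (Js i).card + 1 ∧ Qc * n * Real.exp (-(1 / Ds i)) < j := by
    intro s τ J hJ hJn hτ h0
    obtain ⟨u, hu⟩ := hJ
    refine ⟨τ, Finset.Subset.refl _, ⟨u, hu, hτ u hu⟩, fun _ => J, fun _ => 1 / (Qc * n + 1),
      ?_, ?_⟩
    · intro i _
      refine ⟨Finset.Subset.refl _, ⟨u, hu⟩, by positivity, ?_⟩
      intro v hv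
      rw [h0 v hv]
      simp only [Nat.cast_zero]
      positivity
    · intro j hj hj2
      refine ⟨0, Nat.zero_le _, hle J _ hJn (Nat.one_le_two_pow) j hj2, ?_⟩
      have h1 := tiny (Qc * n) (by positivity)
      have h2 : (1:ℝ) ≤ j := by exact_mod_cast hj
      exact lt_of_lt_of_le h1 h2
  intro s
  induction s with
  | zero =>
    intro _ τ J hJ hJn hτ
    apply hbase 0 τ J hJ hJn (fun u hu => (hτ u hu).1)
    intro v hv
    by_contra hne
    have hpos : 0 < (nb G J v).card := Nat.pos_of_ne_zero hne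
    obtain ⟨u, hu⟩ := Finset.card_pos.mp hpos
    simp only [nb, Finset.mem_filter] at hu
    have h1 := hτ u hu.1
    have h2 : τ = nb G univ u := Finset.eq_of_subset_of_card_le h1.1 (by simpa using h1.2)
    apply hv
    rw [h2]
    simp only [nb, Finset.mem_filter, Finset.mem_univ, true_and]
    exact hu.2.symm
  | succ s ih =>
    intro hsA τ J hJ hJn hτ
    by_cases h0 : ∀ v, v ∉ τ → dg G J v = 0
    · exact hbase (s + 1) τ J hJ hJn (fun u hu => (hτ u hu).1) h0
    · push Not at h0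
      obtain ⟨v0, hv0, hv0d⟩ := h0
      obtain ⟨v, hv, hvmax⟩ := Finset.exists_max_image (univ \ τ) (fun v => dg G J v)
        ⟨v0, by simp [hv0]⟩
      have hvτ : v ∉ τ := by simpa using hv
      have hvmax' : ∀ w, w ∉ τ → dg G J w ≤ dg G J v := fun w hw => hvmax w (by simp [hw])
      have hvpos : 0 < dg G J v := lt_of_lt_of_le (Nat.pos_of_ne_zero hv0d) (hvmax' v0 hv0)
      set J' := nb G J v with hJ'
      have hJ'c : dg G J v = J'.card := rfl
      have hJ'J : J' ⊆ J := nb_sub G J v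
      have hJ'ne : J'.Nonempty := Finset.card_pos.mp hvpos
      have hJcpos : (0:ℝ) < J.card := by exact_mod_cast Finset.card_pos.mpr hJ
      have hJ'cpos : (0:ℝ) < J'.card := by exact_mod_cast hvpos
      have hJ'cle : (J'.card : ℝ) ≤ J.card := by exact_mod_cast Finset.card_le_card hJ'J
      obtain ⟨τ', hτ'1, hτ'2, Js, Ds, hJD, hj⟩ := ih (by omega) (insert v τ) J' hJ'ne
        (hJ'cle.trans hJn) (by
          intro u hu
          simp only [hJ', nb, Finset.mem_filter] at hu
          obtain ⟨h1, h2⟩ := hτ u hu.1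
          refine ⟨?_, ?_⟩
          · apply Finset.insert_subset _ h1
            simp only [nb, Finset.mem_filter, Finset.mem_univ, true_and]
            exact hu.2.symm
          · rw [Finset.card_insert_of_notMem hvτ]
            omega)
      set D : ℝ := (J'.card : ℝ) / J.card with hD
      have hDpos : 0 < D := by positivity
      have hD1 : D ≤ 1 := by rw [hD, div_le_one hJcpos]; exact hJ'cle
      refine ⟨τ', (Finset.subset_insert _ _).trans hτ'1, ?_, fun i => if i = 0 then J else Js (i - 1),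
        fun i => if i = 0 then D else Ds (i - 1), ?_, ?_⟩
      · obtain ⟨u, hu, hu2⟩ := hτ'2
        exact ⟨u, hJ'J hu, hu2⟩
      · intro i hi
        by_cases hi0 : i = 0
        · simp only [hi0, if_true]
          refine ⟨Finset.Subset.refl _, hJ, hDpos, ?_⟩
          intro w hw
          have h1 : w ∉ τ := fun h => hw (hτ'1 (Finset.mem_insert_of_mem h))
          have h2 : (dg G J w : ℝ) ≤ J'.card := by exact_mod_cast hvmax' w h1
          have h3 : D * J.card = J'.card := by rw [hD]; field_simp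
          rw [h3]; exact h2
        · simp only [if_neg hi0]
          obtain ⟨h1, h2, h3, h4⟩ := hJD (i - 1) (by omega)
          exact ⟨h1.trans hJ'J, h2, h3, h4⟩
      · intro j hj1 hj2
        by_cases hcase : (2 * j : ℝ) ≤ Λ * (J'.card / (Λ * n)) ^ (2 ^ s) * n + 1
        · obtain ⟨i, hi, h1, h2⟩ := hj j hj1 hcase
          refine ⟨i + 1, by omega, ?_, ?_⟩
          · simpa using h1
          · simpa using h2
        · push Not at hcase
          refine ⟨0, Nat.zero_le _, ?_, ?_⟩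
          · simp only [if_true]
            exact hle J _ hJn (Nat.one_le_two_pow) j hj2
          · simp only [if_true]
            set x : ℝ := (J.card : ℝ) / (Λ * n) with hx
            set x' : ℝ := (J'.card : ℝ) / (Λ * n) with hx'
            have hxpos : 0 < x := by positivity
            have hx'pos : 0 < x' := by positivity
            have h1 : x' ^ (2 ^ s) < (x ^ 2) ^ (2 ^ s) := by
              have h2 : Λ * x' ^ (2 ^ s) * n < Λ * x ^ (2 ^ (s + 1)) * n := by linarith
              have h3 : x ^ (2 ^ (s + 1)) = (x ^ 2) ^ (2 ^ s) := by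
                rw [← pow_mul, pow_succ, mul_comm]
              rw [h3] at h2
              have h4 : Λ * x' ^ (2 ^ s) < Λ * (x ^ 2) ^ (2 ^ s) := lt_of_mul_lt_mul_right h2 hn.le
              exact lt_of_mul_lt_mul_left h4 hΛ0.le
            have h2 : x' < x ^ 2 := lt_of_pow_lt_pow_left₀ _ (by positivity) h1
            have h3 : x' = D * x := by
              rw [hx', hD, hx]; field_simp
            have h4 : D < x := by
              rw [h3, sq] at h2
              exact lt_of_mul_lt_mul_right h2 hxpos.le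
            have h5 : D ^ 2 ≤ x' := by
              rw [h3, sq]
              exact mul_le_mul_of_nonneg_left h4.le hDpos.le
            have h6 : D ^ (2 ^ A) ≤ x' ^ (2 ^ s) := by
              have h7 : (D ^ 2) ^ (2 ^ s) ≤ x' ^ (2 ^ s) := pow_le_pow_left₀ (by positivity) h5 _
              have h8 : D ^ (2 ^ A) ≤ D ^ (2 ^ (s + 1)) :=
                pow_le_pow_of_le_one hDpos.le hD1 (Nat.pow_le_pow_right (by norm_num) hsA)
              have h9 : D ^ (2 ^ (s + 1)) = (D ^ 2) ^ (2 ^ s) := by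
                rw [← pow_mul, pow_succ, mul_comm]
              rw [h9] at h8
              exact h8.trans h7
            have h7 := exp_neg_inv_le (2 ^ A) hDpos
            have h8 : Qc * n * Real.exp (-(1 / D)) ≤
                Qc * n * (((2 ^ A).factorial : ℝ) * D ^ (2 ^ A)) :=
              mul_le_mul_of_nonneg_left h7 (by positivity)
            have h9 : 2 * (Qc * n * (((2 ^ A).factorial : ℝ) * D ^ (2 ^ A))) ≤
                Λ * x' ^ (2 ^ s) * n := by
              calc 2 * (Qc * n * (((2 ^ A).factorial : ℝ) * D ^ (2 ^ A)))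
                  = (2 * Qc * ((2 ^ A).factorial : ℝ)) * D ^ (2 ^ A) * n := by ring
                _ ≤ Λ * D ^ (2 ^ A) * n := by
                    apply mul_le_mul_of_nonneg_right _ hn.le
                    exact mul_le_mul_of_nonneg_right hΛ (by positivity)
                _ ≤ Λ * x' ^ (2 ^ s) * n := by
                    apply mul_le_mul_of_nonneg_right _ hn.le
                    exact mul_le_mul_of_nonneg_left h6 hΛ0.le
            linarith

end Pool.Agent.L7h70.RG
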