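import Pool.Agent.L7h70.RG.Core
import Pool.Agent.L7h70.RG.Stages
import Pool.Agent.L7h70.RG.Prep

/-!
# Spanning embeddings: assembling the data
-/

set_option autoImplicit false

namespace Pool.Agent.L7h70.RG

open Finset
open scoped Classical

/-- classical equality decision on `Fin n`, to match the generic lemmas -/
noncomputable local instance (priority := 2000) decFinC (n : ℕ) : DecidableEq (Fin n) :=
  fun a b => Classical.propDecidable (a = b)

lemma exists_inj {α β : Type} [Nonempty β] (s : Finset α) (t : Finset β) (h : s.card ≤ t.card) :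
    ∃ f : α → β, Set.InjOn f s ∧ ∀ x ∈ s, f x ∈ t := by
  obtain ⟨t', ht', htc⟩ := Finset.exists_subset_card_eq h
  have e : s ≃ t' := Finset.equivOfCardEq htc.symm
  refine ⟨fun x => if hx : x ∈ s then (e ⟨x, hx⟩ : β) else Classical.arbitrary β, ?_, ?_⟩
  · intro x hx y hy hxy
    have hx' : x ∈ s := hx
    have hy' : y ∈ s := hy
    simp only [dif_pos hx', dif_pos hy'] at hxy
    have := e.injective (Subtype.ext hxy)
    exact congrArg Subtype.val this
  · intro x hx
    simp only [dif_pos hx]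
    exact ht' (e ⟨x, hx⟩).2

lemma exists_idx {Γ : Type} (S : Finset Γ) (g : ℕ) (h : S.card ≤ g) :
    ∃ idx : Γ → ℕ, (∀ x ∈ S, idx x < g) ∧ ∀ x ∈ S, ∀ y ∈ S, idx x = idx y → x = y := by
  refine ⟨fun x => if hx : x ∈ S then (S.equivFin ⟨x, hx⟩ : ℕ) else 0, ?_, ?_⟩
  · intro x hx
    simp only [dif_pos hx]
    exact lt_of_lt_of_le (S.equivFin ⟨x, hx⟩).2 h
  · intro x hx y hy hxy
    simp only [dif_pos hx, dif_pos hy] at hxy
    have := S.equivFin.injective (Fin.ext hxy)
    exact congrArg Subtype.val this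

lemma nb_card_le {n b : ℕ} (G : SimpleGraph (Fin n)) (hbw : ∀ u v, G.Adj u v → (u : ℕ) ≤ v + b)
    (S : Finset (Fin n)) (v : Fin n) : dg G S v ≤ 2 * b + 1 := by
  have h1 : (nb G S v).map Fin.valEmbedding ⊆ Finset.Icc ((v : ℕ) - b) (v + b) := by
    intro x hx
    simp only [Finset.mem_map, nb, Finset.mem_filter, Fin.valEmbedding_apply] at hx
    obtain ⟨u, ⟨_, hu⟩, rfl⟩ := hx
    have h2 := hbw v u hu
    have h3 := hbw u v hu.symm
    rw [Finset.mem_Icc]
    omega
  have h2 := Finset.card_le_card h1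
  rw [Finset.card_map, Nat.card_Icc] at h2
  unfold dg
  omega

/-- merging the placements of the groups -/
lemma groups_merge {Γ α V : Type} [Nonempty V] (G : SimpleGraph α) (B : SimpleGraph V)
    (GG : Finset Γ) (P : Γ → Finset α) (R : Γ → Finset V) (ψ : Γ → α → V)
    (hPd : ∀ g ∈ GG, ∀ g' ∈ GG, g ≠ g' → Disjoint (P g) (P g'))
    (hRd : ∀ g ∈ GG, ∀ g' ∈ GG, g ≠ g' → Disjoint (R g) (R g'))
    (hψ : ∀ g ∈ GG, Set.InjOn (ψ g) (P g) ∧ ∀ x ∈ P g, ψ g x ∈ R g)
    (hadj : ∀ g ∈ GG, ∀ u ∈ P g, ∀ v ∈ P g, G.Adj u v → ¬ B.Adj (ψ g u) (ψ g v))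
    (hno : ∀ g ∈ GG, ∀ g' ∈ GG, g ≠ g' → ∀ u ∈ P g, ∀ v ∈ P g', ¬ G.Adj u v) :
    ∃ φ0 : α → V, (∀ g ∈ GG, ∀ v ∈ P g, φ0 v = ψ g v) ∧ Set.InjOn φ0 (GG.biUnion P) ∧
      ∀ u ∈ GG.biUnion P, ∀ v ∈ GG.biUnion P, G.Adj u v → ¬ B.Adj (φ0 u) (φ0 v) := by
  have hch : ∀ v, ∃ y : V, ∀ g ∈ GG, v ∈ P g → y = ψ g v := by
    intro v
    by_cases h : ∃ g ∈ GG, v ∈ P g
    · obtain ⟨g, hg, hv⟩ := h
      refine ⟨ψ g v, ?_⟩
      intro g' hg' hv'
      by_cases he : g = g'
      · rw [he]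
      · exact absurd hv' (Finset.disjoint_left.mp (hPd g hg g' hg' he) hv)
    · exact ⟨Classical.arbitrary V, fun g hg hv => absurd ⟨g, hg, hv⟩ h⟩
  choose φ0 hφ0 using hch
  refine ⟨φ0, fun g hg v hv => hφ0 v g hg hv, ?_, ?_⟩
  · intro u hu v hv huv
    have hu' : u ∈ GG.biUnion P := hu
    have hv' : v ∈ GG.biUnion P := hv
    rw [Finset.mem_biUnion] at hu' hv'
    obtain ⟨g, hg, hug⟩ := hu'
    obtain ⟨g', hg', hvg⟩ := hv'
    rw [hφ0 u g hg hug, hφ0 v g' hg' hvg] at huv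
    by_cases he : g = g'
    · subst he
      exact (hψ g hg).1 hug hvg huv
    · have h1 := (hψ g hg).2 u hug
      have h2 := (hψ g' hg').2 v hvg
      exact absurd (huv ▸ h2) (Finset.disjoint_left.mp (hRd g hg g' hg' he) h1)
  · intro u hu v hv huv
    rw [Finset.mem_biUnion] at hu hv
    obtain ⟨g, hg, hug⟩ := hu
    obtain ⟨g', hg', hvg⟩ := hv
    rw [hφ0 u g hg hug, hφ0 v g' hg' hvg]
    by_cases he : g = g'
    · subst he
      exact hadj g hg u hug v hvg huv
    · exact absurd huv (hno g hg g' hg' he u hug v hvg)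

set_option maxHeartbeats 4000000 in
/-- Spanning embedding, with all parameters explicit. -/
theorem pack_mid {n : ℕ} {V : Type} [Nonempty V] (G : SimpleGraph (Fin n)) (B : SimpleGraph V)
    (d a : ℕ) (ha : 1 ≤ a)
    (hG : ∀ S : Finset (Fin n), S.Nonempty → ∃ v ∈ S, dg G S v ≤ d)
    (b s g M : ℕ) (hbw : ∀ u v, G.Adj u v → (u : ℕ) ≤ v + b)
    (I : Finset (Fin n)) (hI : ∀ u ∈ I, ∀ v ∈ I, ¬ G.Adj u v) (hIa : ∀ u ∈ I, dg G univ u ≤ a)
    (W Y : Finset V) (hWc : W.card = n) (hYW : Y ⊆ W)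
    (F : Finset (Finset V)) (hF : CF B a (W \ Y) F)
    (Q : V → Finset V) (hQ : ∀ z ∈ Y, Q z ⊆ W \ Y ∧ (Q z).card = a ∧
      (∀ x ∈ Q z, ∀ y ∈ Q z, ¬ B.Adj x y) ∧ (∀ x ∈ Q z, ¬ B.Adj z x) ∧ ∀ T ∈ F, Disjoint T (Q z))
    (hQd : ∀ z ∈ Y, ∀ z' ∈ Y, z ≠ z' → Disjoint (Q z) (Q z'))
    (hFY : ∀ w ∈ W \ Y, ∃ T ∈ F, ∀ x ∈ T, ¬ B.Adj x w)
    (Δ : ℝ) (hΔ : 0 ≤ Δ) (hdeg : ∀ w ∈ W \ Y, (dg B W w : ℝ) ≤ Δ)
    (hFM : F.card ≤ M) (hg : F.card + Y.card ≤ g) (hs : 2 * g * s ≤ I.card) (hbs : 4 * b < s)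
    (c : ℝ) (hc : 0 < c) (hcap : (d + (a + 1 : ℕ)) * Δ + c + g * (a + 1) ≤ I.card)
    (lam : ℝ) (hlam : Δ / c * 4 * Real.exp 4 ≤ lam) (hlama : lam * a ≤ 1)
    (N Qc Λ : ℝ) (hN : (M * (a + 1) + 1 : ℝ) ≤ N) (hQc : N * (M + 1) ≤ Qc)
    (hΛ : 2 * Qc * ((2 ^ a).factorial : ℝ) ≤ Λ) (hΛ1 : 1 ≤ Λ) (hgI : g < I.card)
    (hmain : 2 * N * (2 * (b + 1)) ≤ Λ * ((s : ℝ) / (Λ * n)) ^ (2 ^ a) * (I.card - g))
    (hmain2 : 2 * (a * Δ) + 2 * (g * (a + 1) * (2 * b + 1)) ≤ (I.card : ℝ) - g) :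
    ∃ φ : Fin n → V, Function.Injective φ ∧ (∀ v, φ v ∈ W) ∧
      ∀ u v, G.Adj u v → ¬ B.Adj (φ u) (φ v) := by
  have hIn : I.card ≤ n := by
    have := Finset.card_le_univ I
    rwa [Fintype.card_fin] at this
  have hnpos : 0 < n := by omega
  have hn0 : (0:ℝ) < n := by exact_mod_cast hnpos
  have hN1 : 1 ≤ N := by
    have : (0:ℝ) ≤ M * (a + 1) := by positivity
    linarith
  have hQc0 : 0 < Qc := by
    have : (0:ℝ) < N * (M + 1) := by positivity
    linarith
  have hΛ0 : 0 < Λ := by linarith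
  -- groups
  set GG : Finset (Finset V ⊕ V) := F.disjSum Y with hGG
  have hGGc : GG.card ≤ g := by rw [hGG, Finset.card_disjSum]; exact hg
  obtain ⟨idx, hidx, hidxinj⟩ := exists_idx GG g hGGc
  obtain ⟨J0, hJ0, hJ0sep⟩ := chunks I g s hs
  have hinl : ∀ T, (Sum.inl T : Finset V ⊕ V) ∈ GG ↔ T ∈ F := by
    intro T; rw [hGG, Finset.inl_mem_disjSum]
  have hinr : ∀ z, (Sum.inr z : Finset V ⊕ V) ∈ GG ↔ z ∈ Y := by
    intro z; rw [hGG, Finset.inr_mem_disjSum]
  have hJ0I : ∀ γ ∈ GG, J0 (idx γ) ⊆ I := fun γ hγ => (hJ0 _ (hidx γ hγ)).1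
  have hJ0c : ∀ γ ∈ GG, (J0 (idx γ)).card = s := fun γ hγ => (hJ0 _ (hidx γ hγ)).2
  have hJ0ne : ∀ γ ∈ GG, (J0 (idx γ)).Nonempty := by
    intro γ hγ
    rw [← Finset.card_pos, hJ0c γ hγ]
    omega
  have hsep : ∀ γ ∈ GG, ∀ γ' ∈ GG, γ ≠ γ' → ∀ u ∈ J0 (idx γ), ∀ v ∈ J0 (idx γ'),
      (u : ℕ) + s < v ∨ (v : ℕ) + s < u := by
    intro γ hγ γ' hγ' hne u hu v hv
    exact hJ0sep _ (hidx γ hγ) _ (hidx γ' hγ') (fun h => hne (hidxinj γ hγ γ' hγ' h)) u hu v hv
  -- stages
  have hstage : ∀ T : Finset V, ∃ τ : Finset (Fin n), ∃ Js : ℕ → Finset (Fin n), ∃ Ds : ℕ → ℝ,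
      T ∈ F → (∃ u ∈ J0 (idx (Sum.inl T)), τ ⊆ nb G univ u) ∧
        (∀ i ≤ a, Js i ⊆ J0 (idx (Sum.inl T)) ∧ (Js i).Nonempty ∧ 0 < Ds i ∧
          ∀ v, v ∉ τ → (dg G (Js i) v : ℝ) ≤ Ds i * (Js i).card) ∧
        ∀ j : ℕ, 1 ≤ j → (2 * j : ℝ) ≤ Λ * ((s : ℝ) / (Λ * n)) ^ (2 ^ a) * n + 1 →
          ∃ i ≤ a, 2 * j ≤ (Js i).card + 1 ∧ Qc * n * Real.exp (-(1 / Ds i)) < j := by
    intro T
    by_cases hT : T ∈ F
    · have hT' := (hinl T).mpr hT
      obtain ⟨τ, _, h2, Js, Ds, h3, h4⟩ := stages G Qc Λ n hQc0 hn0 a hΛ hΛ1 a (le_refl _) ∅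
        (J0 (idx (Sum.inl T))) (hJ0ne _ hT') (by
          have : (J0 (idx (Sum.inl T))).card ≤ n :=
            (Finset.card_le_card (hJ0I _ hT')).trans hIn
          exact_mod_cast this) (by
          intro u hu
          refine ⟨Finset.empty_subset _, ?_⟩
          have := hIa u (hJ0I _ hT' hu)
          unfold dg at this
          simpa using this)
      rw [hJ0c _ hT'] at h4
      exact ⟨τ, Js, Ds, fun _ => ⟨h2, h3, h4⟩⟩
    · exact ⟨∅, fun _ => ∅, fun _ => 0, fun h => absurd h hT⟩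
  choose τ Js Ds hst using hstage
  have hspec : ∀ z : V, ∃ u : Fin n, z ∈ Y → u ∈ J0 (idx (Sum.inr z)) := by
    intro z
    by_cases hz : z ∈ Y
    · obtain ⟨u, hu⟩ := hJ0ne _ ((hinr z).mpr hz)
      exact ⟨u, fun _ => hu⟩
    · exact ⟨⟨0, hnpos⟩, fun h => absurd h hz⟩
  choose us hus using hspec
  -- the placements
  set Pg : Finset V ⊕ V → Finset (Fin n) := Sum.elim τ (fun z => insert (us z) (nb G univ (us z)))
    with hPg
  set Rg : Finset V ⊕ V → Finset V := Sum.elim id (fun z => insert z (Q z)) with hRg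
  have hclose : ∀ γ ∈ GG, ∀ x ∈ Pg γ, ∃ i ∈ J0 (idx γ), (x : ℕ) ≤ i + b ∧ (i : ℕ) ≤ x + b := by
    intro γ hγ x hx
    rcases γ with T | z
    · have hT := (hinl T).mp hγ
      obtain ⟨⟨u, hu, hu2⟩, _⟩ := hst T hT
      have h1 := hu2 hx
      have h2 : G.Adj u x := by simpa [nb] using h1
      exact ⟨u, hu, hbw x u h2.symm, hbw u x h2⟩
    · have hz := (hinr z).mp hγ
      refine ⟨us z, hus z hz, ?_⟩
      simp only [hPg, Sum.elim_inr, Finset.mem_insert] at hx
      rcases hx with rfl | hx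
      · omega
      · have h2 : G.Adj (us z) x := by simpa [nb] using hx
        exact ⟨hbw x _ h2.symm, hbw _ x h2⟩
  have hfar : ∀ γ ∈ GG, ∀ γ' ∈ GG, γ ≠ γ' → ∀ x ∈ Pg γ, ∀ y ∈ Pg γ',
      (x : ℕ) + 2 * b < y ∨ (y : ℕ) + 2 * b < x := by
    intro γ hγ γ' hγ' hne x hx y hy
    obtain ⟨i, hi, h1, h2⟩ := hclose γ hγ x hx
    obtain ⟨j, hj, h3, h4⟩ := hclose γ' hγ' y hy
    have := hsep γ hγ γ' hγ' hne i hi j hj
    omega
  have hfarJ : ∀ γ ∈ GG, ∀ γ' ∈ GG, γ ≠ γ' → ∀ x ∈ J0 (idx γ), ∀ y ∈ Pg γ',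
      (x : ℕ) + 2 * b < y ∨ (y : ℕ) + 2 * b < x := by
    intro γ hγ γ' hγ' hne x hx y hy
    obtain ⟨j, hj, h3, h4⟩ := hclose γ' hγ' y hy
    have := hsep γ hγ γ' hγ' hne x hx j hj
    omega
  have hPd : ∀ γ ∈ GG, ∀ γ' ∈ GG, γ ≠ γ' → Disjoint (Pg γ) (Pg γ') := by
    intro γ hγ γ' hγ' hne
    rw [Finset.disjoint_left]
    intro x hx hx'
    have := hfar γ hγ γ' hγ' hne x hx x hx'
    omega
  have hno : ∀ γ ∈ GG, ∀ γ' ∈ GG, γ ≠ γ' → ∀ u ∈ Pg γ, ∀ v ∈ Pg γ', ¬ G.Adj u v := by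
    intro γ hγ γ' hγ' hne u hu v hv huv
    have h1 := hfar γ hγ γ' hγ' hne u hu v hv
    have h2 := hbw u v huv
    have h3 := hbw v u huv.symm
    omega
  have hYY : ∀ z ∈ Y, ∀ z' ∈ Y, z ∉ Q z' := by
    intro z hz z' hz' h
    have := (hQ z' hz').1 h
    rw [Finset.mem_sdiff] at this
    exact this.2 hz
  have hTY : ∀ T ∈ F, ∀ z ∈ Y, z ∉ T := by
    intro T hT z hz h
    have := (hF.1 T hT).1 h
    rw [Finset.mem_sdiff] at this
    exact this.2 hz
  have hRd : ∀ γ ∈ GG, ∀ γ' ∈ GG, γ ≠ γ' → Disjoint (Rg γ) (Rg γ') := by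
    intro γ hγ γ' hγ' hne
    rcases γ with T | z
    · have hT := (hinl T).mp hγ
      rcases γ' with T' | z'
      · have hT' := (hinl T').mp hγ'
        exact hF.2 T hT T' hT' (fun h => hne (by rw [h]))
      · have hz' := (hinr z').mp hγ'
        simp only [hRg, Sum.elim_inl, Sum.elim_inr, id]
        rw [Finset.disjoint_insert_right]
        exact ⟨hTY T hT z' hz', (hQ z' hz').2.2.2.2 T hT⟩
    · have hz := (hinr z).mp hγ
      rcases γ' with T' | z'
      · have hT' := (hinl T').mp hγ'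
        simp only [hRg, Sum.elim_inl, Sum.elim_inr, id]
        rw [Finset.disjoint_insert_left]
        exact ⟨hTY T' hT' z hz, ((hQ z hz).2.2.2.2 T' hT').symm⟩
      · have hz' := (hinr z').mp hγ'
        have hzz : z ≠ z' := fun h => hne (by rw [h])
        simp only [hRg, Sum.elim_inr]
        rw [Finset.disjoint_insert_left, Finset.mem_insert, Finset.disjoint_insert_right]
        refine ⟨?_, hYY z' hz' z hz, hQd z hz z' hz' hzz⟩
        rintro (h | h)
        · exact hzz h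
        · exact hYY z hz z' hz' h
  have hτc : ∀ T ∈ F, (τ T).card ≤ a := by
    intro T hT
    obtain ⟨⟨u, hu, hu2⟩, _⟩ := hst T hT
    exact (Finset.card_le_card hu2).trans (hIa u (hJ0I _ ((hinl T).mpr hT) hu))
  have husI : ∀ z ∈ Y, us z ∈ I := fun z hz => hJ0I _ ((hinr z).mpr hz) (hus z hz)
  have hψex : ∀ γ, ∃ ψ : Fin n → V, γ ∈ GG → (Set.InjOn ψ (Pg γ) ∧ ∀ x ∈ Pg γ, ψ x ∈ Rg γ) ∧
      (∀ u ∈ Pg γ, ∀ v ∈ Pg γ, G.Adj u v → ¬ B.Adj (ψ u) (ψ v)) ∧
      (∀ z, γ = Sum.inr z → ψ (us z) = z ∧ ∀ v ∈ Pg γ, v ≠ us z → ψ v ∈ Q z) := by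
    intro γ
    rcases γ with T | z
    · by_cases hT : T ∈ F
      · obtain ⟨f, hf1, hf2⟩ := exists_inj (τ T) T (by rw [(hF.1 T hT).2.1]; exact hτc T hT)
        refine ⟨f, fun _ => ⟨⟨hf1, hf2⟩, ?_, ?_⟩⟩
        · intro u hu v hv _
          exact (hF.1 T hT).2.2 _ (hf2 u hu) _ (hf2 v hv)
        · intro z hz; cases hz
      · exact ⟨fun _ => Classical.arbitrary V, fun h => absurd ((hinl T).mp h) hT⟩
    · by_cases hz : z ∈ Y
      · obtain ⟨hQ1, hQ2, hQ3, hQ4, hQ5⟩ := hQ z hz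
        obtain ⟨f, hf1, hf2⟩ := exists_inj (nb G univ (us z)) (Q z) (by
          rw [hQ2]; exact hIa _ (husI z hz))
        have hnot : us z ∉ nb G univ (us z) := by simp [nb]
        have hupd : ∀ x ∈ nb G univ (us z), Function.update f (us z) z x = f x := by
          intro x hx
          apply Function.update_of_ne
          rintro rfl
          exact hnot hx
        have hzQ : ∀ x ∈ nb G univ (us z), f x ≠ z := by
          intro x hx he
          exact hYY z hz z hz (he ▸ hf2 x hx)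
        refine ⟨Function.update f (us z) z, fun _ => ⟨⟨?_, ?_⟩, ?_, ?_⟩⟩
        · intro x hx y hy hxy
          have hx' : x ∈ insert (us z) (nb G univ (us z)) := hx
          have hy' : y ∈ insert (us z) (nb G univ (us z)) := hy
          rw [Finset.mem_insert] at hx' hy'
          rcases hx' with rfl | hx'
          · rcases hy' with rfl | hy'
            · rfl
            · rw [Function.update_self, hupd y hy'] at hxy
              exact absurd hxy.symm (hzQ y hy')
          · rcases hy' with rfl | hy'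
            · rw [Function.update_self, hupd x hx'] at hxy
              exact absurd hxy (hzQ x hx')
            · rw [hupd x hx', hupd y hy'] at hxy
              exact hf1 hx' hy' hxy
        · intro x hx
          have hx' : x ∈ insert (us z) (nb G univ (us z)) := hx
          rw [Finset.mem_insert] at hx'
          simp only [hRg, Sum.elim_inr]
          rcases hx' with rfl | hx'
          · rw [Function.update_self]; exact Finset.mem_insert_self _ _
          · rw [hupd x hx']; exact Finset.mem_insert_of_mem (hf2 x hx')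
        · intro x hx y hy hxy
          have hx' : x ∈ insert (us z) (nb G univ (us z)) := hx
          have hy' : y ∈ insert (us z) (nb G univ (us z)) := hy
          rw [Finset.mem_insert] at hx' hy'
          rcases hx' with rfl | hx'
          · rcases hy' with rfl | hy'
            · exact B.loopless.irrefl _
            · rw [Function.update_self, hupd y hy']
              exact hQ4 _ (hf2 y hy')
          · rcases hy' with rfl | hy'
            · rw [Function.update_self, hupd x hx']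
              exact fun h => hQ4 _ (hf2 x hx') h.symm
            · rw [hupd x hx', hupd y hy']
              exact hQ3 _ (hf2 x hx') _ (hf2 y hy')
        · intro z' hz'
          cases hz'
          refine ⟨Function.update_self _ _ _, ?_⟩
          intro v hv hne
          have hv' : v ∈ insert (us z) (nb G univ (us z)) := hv
          rw [Finset.mem_insert] at hv'
          rcases hv' with h | hv'
          · exact absurd h hne
          · rw [hupd v hv']; exact hf2 v hv'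
      · exact ⟨fun _ => Classical.arbitrary V, fun h => absurd ((hinr z).mp h) hz⟩
  choose ψ hψ using hψex
  obtain ⟨φ0, hφ0, hφ0inj, hφ0adj⟩ := groups_merge G B GG Pg Rg ψ hPd hRd
    (fun γ hγ => (hψ γ hγ).1) (fun γ hγ => (hψ γ hγ).2.1) hno
  set P : Finset (Fin n) := GG.biUnion Pg with hP
  have hPsub : ∀ γ ∈ GG, Pg γ ⊆ P := fun γ hγ => Finset.subset_biUnion_of_mem Pg hγ
  have hIP : ∀ v ∈ P, v ∈ I → ∃ z ∈ Y, v = us z := by
    intro v hv hvI
    rw [hP, Finset.mem_biUnion] at hv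
    obtain ⟨γ, hγ, hvγ⟩ := hv
    rcases γ with T | z
    · have hT := (hinl T).mp hγ
      obtain ⟨⟨u, hu, hu2⟩, _⟩ := hst T hT
      have h1 := hu2 hvγ
      have h2 : G.Adj u v := by simpa [nb] using h1
      exact absurd h2 (hI u (hJ0I _ hγ hu) v hvI)
    · have hz := (hinr z).mp hγ
      have hv' : v ∈ insert (us z) (nb G univ (us z)) := hvγ
      rw [Finset.mem_insert] at hv'
      rcases hv' with h | h
      · exact ⟨z, hz, h⟩
      · have h2 : G.Adj (us z) v := by simpa [nb] using h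
        exact absurd h2 (hI _ (husI z hz) v hvI)
  have husP : ∀ z ∈ Y, us z ∈ P := by
    intro z hz
    apply hPsub _ ((hinr z).mpr hz)
    show us z ∈ insert (us z) (nb G univ (us z))
    exact Finset.mem_insert_self _ _
  have hPgc : ∀ γ ∈ GG, (Pg γ).card ≤ a + 1 := by
    intro γ hγ
    rcases γ with T | z
    · exact (hτc T ((hinl T).mp hγ)).trans (Nat.le_succ a)
    · show (insert (us z) (nb G univ (us z))).card ≤ a + 1
      exact (Finset.card_insert_le _ _).trans
        (Nat.add_le_add_right (hIa _ (husI z ((hinr z).mp hγ))) 1)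
  have hRgc : ∀ γ ∈ GG, (Rg γ).card ≤ a + 1 := by
    intro γ hγ
    rcases γ with T | z
    · show T.card ≤ a + 1
      rw [(hF.1 T ((hinl T).mp hγ)).2.1]
      exact Nat.le_succ a
    · show (insert z (Q z)).card ≤ a + 1
      refine (Finset.card_insert_le _ _).trans ?_
      rw [(hQ z ((hinr z).mp hγ)).2.1]
  have hRW : ∀ γ ∈ GG, Rg γ ⊆ W := by
    intro γ hγ
    rcases γ with T | z
    · exact (hF.1 T ((hinl T).mp hγ)).1.trans Finset.sdiff_subset
    · show insert z (Q z) ⊆ W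
      exact Finset.insert_subset (hYW ((hinr z).mp hγ))
        ((hQ z ((hinr z).mp hγ)).1.trans Finset.sdiff_subset)
  set I' : Finset (Fin n) := I \ P with hI'
  have hI'c : (I.card : ℝ) - g ≤ I'.card := by
    have h1 : I ∩ P ⊆ Y.image us := by
      intro v hv
      rw [Finset.mem_inter] at hv
      obtain ⟨z, hz, rfl⟩ := hIP v hv.2 hv.1
      exact Finset.mem_image_of_mem us hz
    have h2 := (Finset.card_le_card h1).trans Finset.card_image_le
    have h3 : (I \ P).card + (I ∩ P).card = I.card := Finset.card_sdiff_add_card_inter I P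
    have h4 : I.card ≤ I'.card + g := by rw [hI']; omega
    have h5 : (I.card : ℝ) ≤ I'.card + g := by exact_mod_cast h4
    linarith
  have hgI' : (g:ℝ) < I.card := by exact_mod_cast hgI
  have hI'pos : (0:ℝ) < I'.card := by linarith
  have hI'ne : I'.Nonempty := by
    rw [← Finset.card_pos]; exact_mod_cast hI'pos
  have hnadj : ∀ γ ∈ GG, ∀ γ' ∈ GG, ∀ x ∈ Pg γ, ∀ y ∈ Pg γ', ∀ v, G.Adj v x → G.Adj v y → γ = γ' := by
    intro γ hγ γ' hγ' x hx y hy v hvx hvy
    by_contra hne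
    have h1 := hfar γ hγ γ' hγ' hne x hx y hy
    have h2 := hbw v x hvx
    have h3 := hbw x v hvx.symm
    have h4 := hbw v y hvy
    have h5 := hbw y v hvy.symm
    omega
  have hcardι : ((Fintype.card (Option ({T // T ∈ F} × Fin (a + 1))) : ℕ) : ℝ) ≤ N := by
    rw [Fintype.card_option, Fintype.card_prod, Fintype.card_coe, Fintype.card_fin]
    have h1 : (F.card : ℝ) ≤ M := by exact_mod_cast hFM
    push_cast
    have h2 : (F.card : ℝ) * (a + 1) ≤ M * (a + 1) := mul_le_mul_of_nonneg_right h1 (by positivity)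
    linarith
  have hW0c : ((W \ Y).card : ℝ) ≤ n := by
    rw [← hWc]
    exact_mod_cast Finset.card_le_card Finset.sdiff_subset
  have hGc : ∀ x : ℝ, 0 ≤ x → ((Fintype.card (Option ({T // T ∈ F} × Fin (a + 1))) : ℕ) : ℝ) *
      ((W \ Y).card : ℝ) * x ≤ N * n * x := by
    intro x hx
    apply mul_le_mul_of_nonneg_right _ hx
    exact mul_le_mul hcardι hW0c (Nat.cast_nonneg _) (by linarith)
  apply pack_core (ι := Option ({T // T ∈ F} × Fin (a + 1))) G B d a hG I P hI hIa φ0 hφ0inj hφ0adj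
    W (W \ GG.biUnion Rg) (W \ Y) (by rw [hWc, Fintype.card_fin]) Finset.sdiff_subset ?_ ?_ Δ hΔ
    hdeg ?_ ?_ ?_ c hc ?_ lam hlam hlama
    (fun o => o.elim I' (fun p => Js p.1.1 p.2.1)) ?_
    (fun o => o.elim (2 * (b + 1) / I'.card) (fun p => Ds p.1.1 p.2.1)) ?_ ?_ ?_
  · -- hPW
    intro v hv
    rw [hP, Finset.mem_biUnion] at hv
    obtain ⟨γ, hγ, hvγ⟩ := hv
    have h1 : φ0 v ∈ Rg γ := by rw [hφ0 γ hγ v hvγ]; exact (hψ γ hγ).1.2 v hvγ
    refine ⟨hRW γ hγ h1, ?_⟩
    rw [Finset.mem_sdiff, not_and, not_not]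
    intro _
    exact Finset.mem_biUnion.mpr ⟨γ, hγ, h1⟩
  · -- hrem
    intro w hw hwP
    rw [Finset.mem_sdiff]
    refine ⟨hw, ?_⟩
    intro hwY
    apply hwP
    rw [Finset.mem_image]
    refine ⟨us w, husP w hwY, ?_⟩
    have h1 := (hinr w).mpr hwY
    rw [hφ0 _ h1 (us w) (show us w ∈ insert (us w) (nb G univ (us w)) from
      Finset.mem_insert_self _ _)]
    exact ((hψ _ h1).2.2 w rfl).1
  · -- hPdeg
    intro v hv hvI
    rw [hP, Finset.mem_biUnion] at hv
    obtain ⟨γ, hγ, hvγ⟩ := hv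
    apply hdeg
    rw [hφ0 γ hγ v hvγ]
    rcases γ with T | z
    · exact (hF.1 T ((hinl T).mp hγ)).1 ((hψ _ hγ).1.2 v hvγ)
    · have hz := (hinr z).mp hγ
      apply (hQ z hz).1
      apply ((hψ _ hγ).2.2 z rfl).2 v hvγ
      rintro rfl
      exact hvI (husI z hz)
  · -- hPI
    intro u hu huI v huv
    obtain ⟨z, hz, rfl⟩ := hIP u hu huI
    apply hPsub _ ((hinr z).mpr hz)
    show v ∈ insert (us z) (nb G univ (us z))
    apply Finset.mem_insert_of_mem
    simpa [nb] using huv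
  · -- hPa
    intro v hvP hvI
    rcases (nb G P v).eq_empty_or_nonempty with h0 | ⟨x, hx⟩
    · unfold dg
      rw [h0]
      simp
    · have hx' := hx
      simp only [nb, Finset.mem_filter] at hx'
      obtain ⟨hxP, hvx⟩ := hx'
      rw [hP, Finset.mem_biUnion] at hxP
      obtain ⟨γ, hγ, hxγ⟩ := hxP
      refine le_trans (Finset.card_le_card ?_) (hPgc γ hγ)
      intro y hy
      simp only [nb, Finset.mem_filter] at hy
      obtain ⟨hyP, hvy⟩ := hy
      rw [hP, Finset.mem_biUnion] at hyP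
      obtain ⟨γ', hγ', hyγ⟩ := hyP
      rw [hnadj γ hγ γ' hγ' x hxγ y hyγ v hvx hvy]
      exact hyγ
  · -- capacity
    have h1 : ((univ \ I) \ P).card ≤ n - I.card := by
      have h2 : ((univ \ I) \ P).card ≤ (univ \ I).card := Finset.card_le_card Finset.sdiff_subset
      have h3 : (univ \ I : Finset (Fin n)).card + I.card = (univ : Finset (Fin n)).card :=
        Finset.card_sdiff_add_card_eq_card (Finset.subset_univ _)
      rw [Finset.card_univ, Fintype.card_fin] at h3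
      omega
    have h2 : (((univ \ I) \ P).card : ℝ) + I.card ≤ n := by
      have : ((univ \ I) \ P).card + I.card ≤ n := by omega
      exact_mod_cast this
    have h3 : (GG.biUnion Rg).card ≤ g * (a + 1) := by
      have h4 : (GG.biUnion Rg).card ≤ ∑ γ ∈ GG, (Rg γ).card := Finset.card_biUnion_le
      have h5 : ∑ γ ∈ GG, (Rg γ).card ≤ ∑ _γ ∈ GG, (a + 1) := Finset.sum_le_sum hRgc
      rw [Finset.sum_const, smul_eq_mul] at h5
      have h6 : GG.card * (a + 1) ≤ g * (a + 1) := Nat.mul_le_mul_right _ hGGc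
      omega
    have h4 : n ≤ (W \ GG.biUnion Rg).card + g * (a + 1) := by
      have := Finset.card_le_card_sdiff_add_card (s := W) (t := GG.biUnion Rg)
      omega
    have h5 : (n : ℝ) ≤ (W \ GG.biUnion Rg).card + g * (a + 1) := by exact_mod_cast h4
    linarith
  · -- hJ
    intro o
    rcases o with _ | ⟨⟨T, hT⟩, i⟩
    · exact ⟨Finset.Subset.refl _, hI'ne⟩
    · simp only [Option.elim_some]
      have h1 := (hst T hT).2.1 i.1 (Nat.lt_succ_iff.mp i.2)
      refine ⟨?_, h1.2.1⟩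
      intro x hx
      have hx1 := h1.1 hx
      have hxI := hJ0I _ ((hinl T).mpr hT) hx1
      rw [Finset.mem_sdiff]
      refine ⟨hxI, ?_⟩
      intro hxP
      obtain ⟨z, hz, rfl⟩ := hIP x hxP hxI
      have h2 := hsep _ ((hinl T).mpr hT) _ ((hinr z).mpr hz) (by simp) _ hx1 _ (hus z hz)
      omega
  · -- hD
    intro o
    rcases o with _ | ⟨⟨T, hT⟩, i⟩
    · simp only [Option.elim_none]
      positivity
    · simp only [Option.elim_some]
      exact ((hst T hT).2.1 i.1 (Nat.lt_succ_iff.mp i.2)).2.2.1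
  · -- hJD
    intro o v hvP hvI
    rcases o with _ | ⟨⟨T, hT⟩, i⟩
    · simp only [Option.elim_none]
      rw [div_mul_cancel₀ _ hI'pos.ne']
      have h1 := nb_card_le G hbw I' v
      have h2 : (dg G I' v : ℝ) ≤ 2 * b + 1 := by exact_mod_cast h1
      linarith
    · simp only [Option.elim_some]
      apply ((hst T hT).2.1 i.1 (Nat.lt_succ_iff.mp i.2)).2.2.2
      intro hv
      exact hvP (hPsub _ ((hinl T).mpr hT) hv)
  · -- hsel
    intro j hj1 hjΔ
    have hjR : (1:ℝ) ≤ j := by exact_mod_cast hj1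
    by_cases hcase : (2 * j : ℝ) ≤ Λ * ((s : ℝ) / (Λ * n)) ^ (2 ^ a) * n + 1
    · have hit : ∀ T : {T // T ∈ F}, ∃ i : Fin (a + 1), 2 * j ≤ (Js T.1 i.1).card + 1 ∧
          Qc * n * Real.exp (-(1 / Ds T.1 i.1)) < j := by
        intro T
        obtain ⟨i, hi, h1, h2⟩ := (hst T.1 T.2).2.2 j hj1 hcase
        exact ⟨⟨i, Nat.lt_succ_iff.mpr hi⟩, h1, h2⟩
      choose it hit1 hit2 using hit
      refine ⟨Finset.univ.image (fun T : {T // T ∈ F} => some (T, it T)), ?_, ?_⟩
      · have h1 : ∀ o ∈ Finset.univ.image (fun T : {T // T ∈ F} => some (T, it T)),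
            ((Fintype.card (Option ({T // T ∈ F} × Fin (a + 1))) : ℕ) : ℝ) * ((W \ Y).card : ℝ) *
              Real.exp (-(1 / (Option.elim o (2 * (b + 1) / (I'.card : ℝ))
                (fun p => Ds p.1.1 p.2.1)))) ≤ j / (M + 1) := by
          intro o ho
          rw [Finset.mem_image] at ho
          obtain ⟨T, _, rfl⟩ := ho
          simp only [Option.elim_some]
          refine (hGc _ (Real.exp_pos _).le).trans ?_
          rw [le_div_iff₀ (by positivity)]
          have h2 := hit2 T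
          have h3 : N * n * Real.exp (-(1 / Ds T.1 (it T).1)) * (M + 1) =
              (N * (M + 1)) * (n * Real.exp (-(1 / Ds T.1 (it T).1))) := by ring
          rw [h3]
          have h4 : (N * (M + 1)) * (n * Real.exp (-(1 / Ds T.1 (it T).1))) ≤
              Qc * (n * Real.exp (-(1 / Ds T.1 (it T).1))) := by
            apply mul_le_mul_of_nonneg_right hQc
            have := Real.exp_pos (-(1 / Ds T.1 (it T).1))
            positivity
          linarith
        have h2 := Finset.sum_le_sum h1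
        rw [Finset.sum_const, nsmul_eq_mul] at h2
        have h3 : ((Finset.univ.image (fun T : {T // T ∈ F} =>
            (some (T, it T) : Option ({T // T ∈ F} × Fin (a + 1))))).card : ℝ) ≤ M := by
          have h4 : (Finset.univ.image (fun T : {T // T ∈ F} =>
            (some (T, it T) : Option ({T // T ∈ F} × Fin (a + 1))))).card ≤ M := by
            refine Finset.card_image_le.trans ?_
            rw [Finset.card_univ, Fintype.card_coe]
            exact hFM
          exact_mod_cast h4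
        have h5 : (M : ℝ) * (j / (M + 1)) < j := by
          have h6 : (0:ℝ) ≤ M := Nat.cast_nonneg _
          rw [← mul_div_assoc, div_lt_iff₀ (by positivity)]
          nlinarith
        have h6 := mul_le_mul_of_nonneg_right h3 (show (0:ℝ) ≤ (j:ℝ) / (M + 1) by positivity)
        exact lt_of_le_of_lt (h2.trans h6) h5
      · intro w hw
        obtain ⟨T, hT, hTw⟩ := hFY w hw
        refine ⟨some (⟨T, hT⟩, it ⟨T, hT⟩), Finset.mem_image_of_mem _ (Finset.mem_univ _), ?_⟩
        simp only [Option.elim_some]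
        have h0 : exc G B P φ0 (Js T (it ⟨T, hT⟩).1) w = 0 := by
          apply exc_eq_zero
          intro u hu v hvP huv hB
          have huJ := ((hst T hT).2.1 (it ⟨T, hT⟩).1 (Nat.lt_succ_iff.mp (it ⟨T, hT⟩).2)).1 hu
          rw [hP, Finset.mem_biUnion] at hvP
          obtain ⟨γ, hγ, hvγ⟩ := hvP
          by_cases hγT : Sum.inl T = γ
          · subst hγT
            rw [hφ0 _ hγ v hvγ] at hB
            exact hTw _ ((hψ _ hγ).1.2 v hvγ) hB
          · have h1 := hfarJ _ ((hinl T).mpr hT) γ hγ hγT u huJ v hvγ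
            have h2 := hbw u v huv
            have h3 := hbw v u huv.symm
            omega
        rw [h0]
        exact hit1 ⟨T, hT⟩
    · push Not at hcase
      refine ⟨{none}, ?_, ?_⟩
      · rw [Finset.sum_singleton]
        simp only [Option.elim_none]
        refine lt_of_le_of_lt (hGc _ (Real.exp_pos _).le) ?_
        set D0 : ℝ := 2 * (b + 1) / I'.card with hD0
        have hD0pos : 0 < D0 := by positivity
        have h1 := exp_neg_inv_le 1 hD0pos
        rw [Nat.factorial_one, Nat.cast_one, pow_one, one_mul] at h1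
        have h2 : N * n * Real.exp (-(1 / D0)) ≤ N * n * D0 :=
          mul_le_mul_of_nonneg_left h1 (by positivity)
        have h3 : 2 * N * D0 ≤ Λ * ((s : ℝ) / (Λ * n)) ^ (2 ^ a) := by
          rw [hD0, ← mul_div_assoc, div_le_iff₀ hI'pos]
          refine hmain.trans ?_
          exact mul_le_mul_of_nonneg_left hI'c (by positivity)
        have h4 := mul_le_mul_of_nonneg_right h3 hn0.le
        linarith
      · intro w hw
        refine ⟨none, Finset.mem_singleton_self _, ?_⟩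
        simp only [Option.elim_none]
        have h2 := exc_le G B P φ0 I' w
        have h3 : ∑ v ∈ P, dg G I' v ≤ ∑ _v ∈ P, (2 * b + 1) :=
          Finset.sum_le_sum (fun v _ => nb_card_le G hbw I' v)
        rw [Finset.sum_const, smul_eq_mul] at h3
        have h4 : P.card ≤ g * (a + 1) := by
          have h4 : P.card ≤ ∑ γ ∈ GG, (Pg γ).card := Finset.card_biUnion_le
          have h5 : ∑ γ ∈ GG, (Pg γ).card ≤ ∑ _γ ∈ GG, (a + 1) := Finset.sum_le_sum hPgc
          rw [Finset.sum_const, smul_eq_mul] at h5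
          have h6 : GG.card * (a + 1) ≤ g * (a + 1) := Nat.mul_le_mul_right _ hGGc
          omega
        have h5 : P.card * (2 * b + 1) ≤ g * (a + 1) * (2 * b + 1) := Nat.mul_le_mul_right _ h4
        have h6 : exc G B P φ0 I' w ≤ g * (a + 1) * (2 * b + 1) := by omega
        have h7 : ((exc G B P φ0 I' w : ℕ) : ℝ) ≤ g * (a + 1) * (2 * b + 1) := by exact_mod_cast h6
        have h8 : (2 * j + 2 * (exc G B P φ0 I' w : ℝ)) ≤ I'.card + 1 := by linarith
        exact_mod_cast h8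

end Pool.Agent.L7h70.RG
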