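import Pool.Agent.L7h70.RG.Mid

/-!
# The spanning embedding lemma
-/

set_option autoImplicit false

namespace Pool.Agent.L7h70.RG

open Finset
open scoped Classical

set_option maxHeartbeats 4000000 in
/-- Spanning embedding of a degenerate graph of sublinear bandwidth in a nearly complete red graph. -/
theorem pack (d t m : ℕ) (hd : 1 ≤ d) (ζ : ℝ) (hζ : 0 < ζ) : ∃ δ : ℝ, 0 < δ ∧ ∀ C0 : ℕ,
    ∃ γ : ℝ, 0 < γ ∧ ∃ n0 : ℕ, ∀ n, n0 ≤ n → ∀ (G : SimpleGraph (Fin n)),
    (∀ S : Finset (Fin n), S.Nonempty → ∃ v ∈ S, dg G S v ≤ d) → ∀ b : ℕ, (b : ℝ) ≤ γ * n →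
    (∀ u v, G.Adj u v → (u : ℕ) ≤ v + b) → ∀ {V : Type} [Nonempty V] (B : SimpleGraph V)
    (W Z : Finset V), W.card = n → ¬ HasK B t m W → Z ⊆ W → Z.card ≤ C0 →
    (∀ v ∈ W \ Z, (dg B W v : ℝ) ≤ δ * n) →
    (∀ z ∈ Z, ζ * n ≤ (((W \ Z).filter (fun v => ¬ B.Adj z v)).card : ℝ)) →
    ∃ φ : Fin n → V, Function.Injective φ ∧ (∀ v, φ v ∈ W) ∧
      ∀ u v, G.Adj u v → ¬ B.Adj (φ u) (φ v) := by
  set a : ℕ := 4 * d with ha
  have ha1 : 1 ≤ a := by omega
  set cI : ℝ := 1 / (8 * d + 2) with hcI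
  have hcI0 : 0 < cI := by positivity
  have hcI1 : cI ≤ 1 := by
    rw [hcI, div_le_one (by positivity)]
    have : (0:ℝ) ≤ d := Nat.cast_nonneg _
    linarith
  obtain ⟨M, C1, hMC⟩ := cliques t m a ha1
  obtain ⟨u0, hsp⟩ := special t m a
  have he4 : (1:ℝ) ≤ Real.exp 4 := Real.one_le_exp (by norm_num)
  have he0 : (0:ℝ) < Real.exp 4 := Real.exp_pos 4
  set da : ℝ := (d : ℝ) + (a + 1 : ℕ) with hda
  have hda0 : 0 < da := by positivity
  have hda1 : 1 ≤ da := by
    rw [hda]; push_cast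
    have : (0:ℝ) ≤ d := Nat.cast_nonneg _
    have : (0:ℝ) ≤ a := Nat.cast_nonneg _
    linarith
  have hada : (a : ℝ) ≤ da := by
    rw [hda]; push_cast
    have : (0:ℝ) ≤ d := Nat.cast_nonneg _
    linarith
  refine ⟨cI / (64 * Real.exp 4 * da), by positivity, ?_⟩
  set δ : ℝ := cI / (64 * Real.exp 4 * da) with hδ
  have hδ0 : 0 < δ := by rw [hδ]; positivity
  have hδe : δ * (64 * Real.exp 4 * da) = cI := by rw [hδ]; field_simp
  have hδda : δ * da ≤ cI / 64 := by
    have h1 : δ * da * 64 ≤ δ * da * 64 * Real.exp 4 := le_mul_of_one_le_right (by positivity) he4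
    nlinarith
  have hδa : δ * a ≤ cI / 64 := by
    have := mul_le_mul_of_nonneg_left hada hδ0.le
    linarith
  have hδ4 : δ ≤ 1 / 4 := by
    have : δ * 1 ≤ δ * da := mul_le_mul_of_nonneg_left hda1 hδ0.le
    linarith
  intro C0
  set g : ℕ := M + (C0 + C1) + 1 with hg
  have hg0 : (0:ℝ) < g := by rw [hg]; positivity
  have hg1 : (1:ℝ) ≤ g := by
    have : 1 ≤ g := by omega
    exact_mod_cast this
  set N : ℝ := M * (a + 1) + 1 with hN
  have hN0 : 0 < N := by rw [hN]; positivity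
  set Qc : ℝ := N * (M + 1) with hQc
  have hQc0 : 0 < Qc := by rw [hQc]; positivity
  set Λ : ℝ := max 1 (2 * Qc * ((2 ^ a).factorial : ℝ)) with hΛ
  have hΛ1 : 1 ≤ Λ := le_max_left _ _
  have hΛ0 : 0 < Λ := by linarith
  set κ : ℝ := Λ * (cI / (4 * g * Λ)) ^ (2 ^ a) with hκ
  have hκ0 : 0 < κ := by rw [hκ]; positivity
  set γ : ℝ := min (cI / (32 * g)) (min (κ * cI / (64 * N)) (cI / (128 * (a + 1) * g))) with hγ
  have hγ0 : 0 < γ := by rw [hγ]; positivity
  have hγ1 : γ ≤ cI / (32 * g) := min_le_left _ _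
  have hγ2 : γ ≤ κ * cI / (64 * N) := (min_le_right _ _).trans (min_le_left _ _)
  have hγ3 : γ ≤ cI / (128 * (a + 1) * g) := (min_le_right _ _).trans (min_le_right _ _)
  set ζ' : ℝ := min ζ (1 / 2) with hζ'
  have hζ'0 : 0 < ζ' := by rw [hζ']; positivity
  have hζ'1 : ζ' ≤ ζ := min_le_left _ _
  have hζ'2 : ζ' ≤ 1 / 2 := min_le_right _ _
  refine ⟨γ, hγ0, ⌈4 * g * (a + 1) / cI⌉₊ + ⌈1 / γ⌉₊ +
    ⌈(u0 + (C0 + C1) * a + C1 + M * a) / ζ'⌉₊ + 4 * C0 + 1, ?_⟩
  intro n hn G hG b hb hbw V _ B W Z hWc hK hZW hZc hdeg hred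
  have hn1 : 4 * g * (a + 1) / cI ≤ n := by
    refine (Nat.le_ceil _).trans ?_
    have : ⌈4 * (g:ℝ) * (a + 1) / cI⌉₊ ≤ n := by omega
    exact_mod_cast this
  have hn2 : 1 / γ ≤ n := by
    refine (Nat.le_ceil _).trans ?_
    have : ⌈1 / γ⌉₊ ≤ n := by omega
    exact_mod_cast this
  have hn3 : (u0 + (C0 + C1) * a + C1 + M * a) / ζ' ≤ n := by
    refine (Nat.le_ceil _).trans ?_
    have : ⌈((u0:ℝ) + (C0 + C1) * a + C1 + M * a) / ζ'⌉₊ ≤ n := by omega
    exact_mod_cast this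
  have hn4 : 4 * C0 ≤ n := by omega
  have hnpos : 0 < n := by omega
  have hn0 : (0:ℝ) < n := by exact_mod_cast hnpos
  rw [div_le_iff₀ hcI0] at hn1
  rw [div_le_iff₀ hγ0] at hn2
  rw [div_le_iff₀ hζ'0] at hn3
  have hgan : (g : ℝ) * (a + 1) ≤ cI * n / 4 := by linarith
  have hgle : (g : ℝ) ≤ g * (a + 1) := by
    have : (0:ℝ) ≤ a := Nat.cast_nonneg _
    nlinarith
  have hcIn : 0 < cI * n := by positivity
  obtain ⟨I, hI, hIa, hIc⟩ := indep d G hG
  have hIc' : cI * n ≤ I.card := by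
    have h1 : (n : ℝ) ≤ (8 * d + 2) * I.card := by exact_mod_cast hIc
    rw [hcI, one_div, inv_mul_le_iff₀ (by positivity)]
    exact h1
  obtain ⟨F, hFM, hF, hFhit⟩ := hMC B (W \ Z) (fun h => hK (h.mono Finset.sdiff_subset))
  set Z1 : Finset V := hit B (W \ Z) F with hZ1
  have hZ1W : Z1 ⊆ W \ Z := Finset.filter_subset _ _
  set Y : Finset V := Z ∪ Z1 with hY
  have hYW : Y ⊆ W := Finset.union_subset hZW (hZ1W.trans Finset.sdiff_subset)
  have hYc : Y.card ≤ C0 + C1 := by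
    have h1 := Finset.card_union_le Z Z1
    rw [← hY] at h1
    omega
  have hWYZ : W \ Y ⊆ W \ Z := Finset.sdiff_subset_sdiff (Finset.Subset.refl _)
    Finset.subset_union_left
  have hTY : ∀ T ∈ F, T ⊆ W \ Y := by
    intro T hT x hx
    have h1 := (hF.1 T hT).1 hx
    rw [Finset.mem_sdiff] at h1 ⊢
    refine ⟨h1.1, ?_⟩
    rw [hY, Finset.mem_union, not_or]
    refine ⟨h1.2, ?_⟩
    intro hx1
    rw [hZ1, hit, Finset.mem_filter] at hx1
    obtain ⟨y, hy, hyx⟩ := hx1.2 T hT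
    exact (hF.1 T hT).2.2 y hy x hx hyx
  have hF' : CF B a (W \ Y) F := ⟨fun T hT => ⟨hTY T hT, (hF.1 T hT).2⟩, hF.2⟩
  have hFc := hF.card_biUnion
  -- special cliques
  set A : V → Finset V := fun z => ((W \ Y) \ F.biUnion id).filter (fun v => ¬ B.Adj z v) with hA
  have hAbig : ∀ z ∈ Y, ζ' * n ≤ (((W \ Z).filter (fun v => ¬ B.Adj z v)).card : ℝ) := by
    intro z hz
    by_cases hzZ : z ∈ Z
    · refine le_trans ?_ (hred z hzZ)
      exact mul_le_mul_of_nonneg_right hζ'1 hn0.le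
    · have hz' : z ∈ W \ Z := by
        rw [Finset.mem_sdiff]; exact ⟨hYW hz, hzZ⟩
      have h1 := hdeg z hz'
      have h2 : W ⊆ ((W \ Z).filter (fun v => ¬ B.Adj z v)) ∪ Z ∪ nb B W z := by
        intro v hv
        simp only [Finset.mem_union, Finset.mem_filter, Finset.mem_sdiff, nb]
        tauto
      have h3 := Finset.card_le_card h2
      have h4 := Finset.card_union_le (((W \ Z).filter (fun v => ¬ B.Adj z v)) ∪ Z) (nb B W z)
      have h5 := Finset.card_union_le ((W \ Z).filter (fun v => ¬ B.Adj z v)) Z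
      have h6 : n ≤ ((W \ Z).filter (fun v => ¬ B.Adj z v)).card + C0 + dg B W z := by
        unfold dg; omega
      have h7 : (n : ℝ) ≤ ((W \ Z).filter (fun v => ¬ B.Adj z v)).card + C0 + dg B W z := by
        exact_mod_cast h6
      have h8 : 4 * (C0 : ℝ) ≤ n := by exact_mod_cast hn4
      have h9 : δ * (n : ℝ) ≤ 1 / 4 * n := mul_le_mul_of_nonneg_right hδ4 hn0.le
      have h10 : ζ' * (n : ℝ) ≤ 1 / 2 * n := mul_le_mul_of_nonneg_right hζ'2 hn0.le
      linarith
  have hAc : ∀ z ∈ Y, u0 + Y.card * a ≤ (A z).card := by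
    intro z hz
    have h1 := hAbig z hz
    have h2 : ((W \ Z).filter (fun v => ¬ B.Adj z v)) ⊆ A z ∪ Z1 ∪ F.biUnion id := by
      intro v hv
      simp only [Finset.mem_union, Finset.mem_filter, Finset.mem_sdiff, hA, hY] at hv ⊢
      tauto
    have h3 := Finset.card_le_card h2
    have h4 := Finset.card_union_le (A z ∪ Z1) (F.biUnion id)
    have h5 := Finset.card_union_le (A z) Z1
    have h6 : F.card * a ≤ M * a := Nat.mul_le_mul_right _ hFM
    have h7 : ((W \ Z).filter (fun v => ¬ B.Adj z v)).card ≤ (A z).card + C1 + M * a := by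
      omega
    have h8 : (((W \ Z).filter (fun v => ¬ B.Adj z v)).card : ℝ) ≤ (A z).card + C1 + M * a := by
      exact_mod_cast h7
    have h9 : Y.card * a ≤ (C0 + C1) * a := Nat.mul_le_mul_right _ hYc
    have h10 : (Y.card : ℝ) * a ≤ (C0 + C1) * a := by exact_mod_cast h9
    have h11 : (u0 : ℝ) + Y.card * a ≤ (A z).card := by linarith
    exact_mod_cast h11
  obtain ⟨Q, hQ1, hQ2⟩ := hsp B Y A (fun z hz => ⟨fun h => hK (h.mono
    ((Finset.filter_subset _ _).trans (Finset.sdiff_subset.trans Finset.sdiff_subset))), hAc z hz⟩)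
  -- numbers
  set s : ℕ := ⌊cI * n / (2 * g)⌋₊ with hs
  have hs1 : (s : ℝ) ≤ cI * n / (2 * g) := Nat.floor_le (by positivity)
  have hs2 : cI * n / (4 * g) ≤ s := by
    have h1 := Nat.lt_floor_add_one (cI * n / (2 * g))
    have h2 : 1 ≤ cI * n / (4 * g) := by
      rw [le_div_iff₀ (by positivity)]
      linarith
    have h3 : cI * n / (2 * g) = cI * n / (4 * g) + cI * n / (4 * g) := by
      field_simp; ring
    linarith
  have hIg : cI * n / 2 ≤ (I.card : ℝ) - g := by linarith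
  refine pack_mid G B d a ha1 hG b s g M hbw I hI hIa W Y hWc hYW F hF' Q ?_ hQ2 ?_ (δ * n)
    (by positivity) (fun w hw => hdeg w (hWYZ hw)) hFM (by omega) ?_ ?_ (cI * n / 4) (by positivity)
    ?_ (δ * n / (cI * n / 4) * 4 * Real.exp 4) (le_refl _) ?_ N Qc Λ (le_refl _) (le_refl _)
    (le_max_right _ _) hΛ1 ?_ ?_ ?_
  · intro z hz
    obtain ⟨h1, h2, h3⟩ := hQ1 z hz
    refine ⟨?_, h2, h3, ?_, ?_⟩
    · exact h1.trans ((Finset.filter_subset _ _).trans Finset.sdiff_subset)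
    · intro x hx
      have := h1 hx
      simp only [hA, Finset.mem_filter] at this
      exact this.2
    · intro T hT
      rw [Finset.disjoint_left]
      intro x hx hxQ
      have := h1 hxQ
      simp only [hA, Finset.mem_filter, Finset.mem_sdiff] at this
      exact this.1.2 (Finset.mem_biUnion.mpr ⟨T, hT, hx⟩)
  · intro w hw
    have hw' := hw
    rw [Finset.mem_sdiff, hY, Finset.mem_union, not_or] at hw'
    have h1 : w ∉ hit B (W \ Z) F := hw'.2.2
    rw [hit, Finset.mem_filter, not_and] at h1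
    have h2 := h1 (hWYZ hw)
    push Not at h2
    exact h2
  · have h1 : (2 * g * s : ℝ) ≤ I.card := by
      have h2 : (2 * (g:ℝ)) * s ≤ 2 * g * (cI * n / (2 * g)) :=
        mul_le_mul_of_nonneg_left hs1 (by positivity)
      have h3 : 2 * (g:ℝ) * (cI * n / (2 * g)) = cI * n := by field_simp
      linarith
    exact_mod_cast h1
  · have h1 : (4 * b : ℝ) < s := by
      have h2 : γ * n ≤ cI / (32 * g) * n := mul_le_mul_of_nonneg_right hγ1 hn0.le
      have h3 : cI / (32 * g) * n = cI * n / (4 * g) / 8 := by field_simp; norm_num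
      have h4 : 0 < cI * n / (4 * g) := by positivity
      linarith
    exact_mod_cast h1
  · have h1 : da * (δ * n) ≤ cI / 64 * n := by
      have := mul_le_mul_of_nonneg_right hδda hn0.le
      linarith
    linarith
  · have h1 : δ * n / (cI * n / 4) * 4 * Real.exp 4 * a = 16 * (δ * Real.exp 4 * a) / cI := by
      field_simp; ring
    rw [h1, div_le_one hcI0]
    have h2 : δ * Real.exp 4 * a ≤ δ * Real.exp 4 * da :=
      mul_le_mul_of_nonneg_left hada (by positivity)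
    nlinarith
  · have h1 : (g : ℝ) < I.card := by linarith
    exact_mod_cast h1
  · have h1 : cI / (4 * g * Λ) ≤ (s : ℝ) / (Λ * n) := by
      rw [div_le_div_iff₀ (by positivity) (by positivity)]
      rw [div_le_iff₀ (by positivity)] at hs2
      nlinarith
    have h2 : κ ≤ Λ * ((s : ℝ) / (Λ * n)) ^ (2 ^ a) := by
      rw [hκ]
      apply mul_le_mul_of_nonneg_left _ hΛ0.le
      exact pow_le_pow_left₀ (by positivity) h1 _
    have h3 : κ * (cI * n / 2) ≤ Λ * ((s : ℝ) / (Λ * n)) ^ (2 ^ a) * (I.card - g) :=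
      mul_le_mul h2 hIg (by positivity) (by positivity)
    refine le_trans ?_ h3
    have h4 : (b : ℝ) + 1 ≤ 2 * (γ * n) := by linarith
    have h5 : γ * (64 * N) ≤ κ * cI := by rwa [le_div_iff₀ (by positivity)] at hγ2
    have h6 : γ * (64 * N) * n ≤ κ * cI * n := mul_le_mul_of_nonneg_right h5 hn0.le
    have h7 : 2 * N * (2 * ((b : ℝ) + 1)) ≤ 2 * N * (2 * (2 * (γ * n))) := by
      apply mul_le_mul_of_nonneg_left _ (by positivity)
      linarith
    have h8 : (0:ℝ) ≤ N * γ * n := by positivity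
    nlinarith
  · have h1 : γ * (128 * (a + 1) * g) ≤ cI := by rwa [le_div_iff₀ (by positivity)] at hγ3
    have h2 : γ * (128 * (a + 1) * g) * n ≤ cI * n := mul_le_mul_of_nonneg_right h1 hn0.le
    have h3 : 2 * (b : ℝ) + 1 ≤ 3 * (γ * n) := by linarith
    have h4 : 2 * ((g : ℝ) * (a + 1) * (2 * b + 1)) ≤ 2 * (g * (a + 1) * (3 * (γ * n))) := by
      apply mul_le_mul_of_nonneg_left _ (by norm_num)
      exact mul_le_mul_of_nonneg_left h3 (by positivity)
    have h5 : (a : ℝ) * (δ * n) ≤ cI / 64 * n := by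
      have := mul_le_mul_of_nonneg_right hδa hn0.le
      linarith
    have h6 : (0:ℝ) ≤ g * (a + 1) * (γ * n) := by positivity
    nlinarith

end Pool.Agent.L7h70.RG
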