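import Pool.Agent.L7h70.RG.Basic

/-!
# Greedy placement controlled by exponential potentials
-/

set_option autoImplicit false

namespace Pool.Agent.L7h70.RG

open Finset
open scoped Classical

lemma exp_sub_one_le {y : ℝ} (hy : 0 ≤ y) (hy4 : y ≤ 4) : Real.exp y - 1 ≤ y * Real.exp 4 := by
  have h1 : -y + 1 ≤ Real.exp (-y) := Real.add_one_le_exp (-y)
  have h2 : Real.exp y * Real.exp (-y) = 1 := by rw [← Real.exp_add]; simp
  have h3 : Real.exp y * (-y + 1) ≤ 1 :=
    (mul_le_mul_of_nonneg_left h1 (Real.exp_pos _).le).trans h2.le
  have h4 : Real.exp y ≤ Real.exp 4 := Real.exp_le_exp.mpr hy4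
  nlinarith

/-- the total weight of the placed vertices whose image is a neighbour of `w` -/
noncomputable def hw {α V : Type} (B : SimpleGraph V) (φ : α → V) (T : Finset α) (ω : α → ℝ)
    (w : V) : ℝ := ∑ v ∈ T.filter (fun v => B.Adj (φ v) w), ω v

lemma hw_congr {α V : Type} (B : SimpleGraph V) {φ ψ : α → V} {T : Finset α} (ω : α → ℝ) (w : V)
    (h : ∀ v ∈ T, φ v = ψ v) : hw B φ T ω w = hw B ψ T ω w := by
  unfold hw
  apply Finset.sum_congr _ (fun _ _ => rfl)
  apply Finset.filter_congr
  intro v hv
  rw [h v hv]

lemma hw_insert {α V : Type} (B : SimpleGraph V) {φ : α → V} {T : Finset α} (ω : α → ℝ) (w : V)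
    {v : α} (hv : v ∉ T) : hw B φ (insert v T) ω w =
      hw B φ T ω w + (if B.Adj (φ v) w then ω v else 0) := by
  unfold hw
  rw [Finset.filter_insert]
  split_ifs with h
  · rw [Finset.sum_insert (by simp [hv])]
    ring
  · ring

/-- Greedy placement controlled by exponential potentials. -/
theorem place {α V ι : Type} [Fintype ι] [Nonempty V] (G : SimpleGraph α) (B : SimpleGraph V)
    (d a : ℕ) (hG : ∀ S : Finset α, S.Nonempty → ∃ v ∈ S, dg G S v ≤ d)
    (T P : Finset α) (φ0 : α → V) (hPa : ∀ v ∈ T, dg G P v ≤ a)
    (W0 F : Finset V) (Δ c : ℝ) (hΔ : 0 ≤ Δ) (hc : 0 < c)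
    (hdegP : ∀ v ∈ T, ∀ u ∈ P, G.Adj v u → (dg B F (φ0 u) : ℝ) ≤ Δ)
    (hdegF : ∀ x ∈ F, (dg B F x : ℝ) ≤ Δ) (hdegW : ∀ w ∈ W0, (dg B F w : ℝ) ≤ Δ)
    (hF : (T.card : ℝ) + (d + a) * Δ + c ≤ F.card)
    (ω : ι → α → ℝ) (D : ι → ℝ) (hD : ∀ i, 0 < D i) (hω : ∀ i, ∀ v ∈ T, 0 ≤ ω i v ∧ ω i v ≤ D i)
    (lam : ℝ) (hlam : Δ / c * 4 * Real.exp 4 ≤ lam) (hsum : ∀ i, lam * ∑ v ∈ T, ω i v ≤ 1) :
    ∃ φ : α → V, Set.InjOn φ T ∧ (∀ v ∈ T, φ v ∈ F) ∧
      (∀ u ∈ T, ∀ v ∈ T, G.Adj u v → ¬ B.Adj (φ u) (φ v)) ∧
      (∀ u ∈ T, ∀ v ∈ P, G.Adj u v → ¬ B.Adj (φ u) (φ0 v)) ∧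
      ∀ i, ((W0.filter (fun w => 1 / 2 ≤ hw B φ T (ω i) w)).card : ℝ) ≤
        Fintype.card ι * W0.card * Real.exp (-(1 / D i)) := by
  have key : ∀ T' : Finset α, T' ⊆ T → ∃ φ : α → V, Set.InjOn φ T' ∧ (∀ v ∈ T', φ v ∈ F) ∧
      (∀ u ∈ T', ∀ v ∈ T', G.Adj u v → ¬ B.Adj (φ u) (φ v)) ∧
      (∀ u ∈ T', ∀ v ∈ P, G.Adj u v → ¬ B.Adj (φ u) (φ0 v)) ∧
      ∑ i, ∑ w ∈ W0, Real.exp ((4 * hw B φ T' (ω i) w - lam * ∑ v ∈ T', ω i v) / D i) ≤
        Fintype.card ι * W0.card := by
    intro T'
    induction T' using Finset.strongInduction with
    | H T' ih =>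
      intro hT'
      rcases T'.eq_empty_or_nonempty with h0 | hne
      · subst h0
        refine ⟨fun _ => Classical.arbitrary V, by simp, by simp, by simp, by simp, ?_⟩
        simp [hw]
      · obtain ⟨v, hv, hvd⟩ := hG T' hne
        obtain ⟨φ, hinj, hmem, hadj, hadjP, hpot⟩ := ih (T'.erase v) (Finset.erase_ssubset hv)
          ((Finset.erase_subset _ _).trans hT')
        set T1 := T'.erase v with hT1
        have hT1T : T1 ⊆ T := (Finset.erase_subset _ _).trans hT'
        have hvT1 : v ∉ T1 := Finset.notMem_erase v T'
        have hins : insert v T1 = T' := Finset.insert_erase hv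
        set forb : Finset V := T1.image φ ∪
          ((nb G T' v).biUnion (fun u => nb B F (φ u)) ∪
            (nb G P v).biUnion (fun u => nb B F (φ0 u))) with hforb
        have hnbmem : ∀ u ∈ nb G T' v, u ∈ T1 ∧ G.Adj v u := by
          intro u hu
          simp only [nb, Finset.mem_filter] at hu
          refine ⟨Finset.mem_erase.mpr ⟨?_, hu.1⟩, hu.2⟩
          rintro rfl
          exact G.loopless.irrefl _ hu.2
        set Cand : Finset V := F \ forb with hCand
        have hforbc : (forb.card : ℝ) ≤ T.card + (d + a) * Δ := by
          have h1 : (T1.image φ).card ≤ T.card :=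
            Finset.card_image_le.trans (Finset.card_le_card hT1T)
          have h2 : (((nb G T' v).biUnion (fun u => nb B F (φ u))).card : ℝ) ≤ d * Δ := by
            have h3 : (((nb G T' v).biUnion (fun u => nb B F (φ u))).card : ℝ) ≤
                ∑ u ∈ nb G T' v, (dg B F (φ u) : ℝ) := by
              exact_mod_cast Finset.card_biUnion_le
            have h4 : ∑ u ∈ nb G T' v, (dg B F (φ u) : ℝ) ≤ ∑ _u ∈ nb G T' v, Δ := by
              apply Finset.sum_le_sum
              intro u hu
              exact hdegF _ (hmem u (hnbmem u hu).1)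
            rw [Finset.sum_const, nsmul_eq_mul] at h4
            have h5 : ((nb G T' v).card : ℝ) * Δ ≤ d * Δ := by
              apply mul_le_mul_of_nonneg_right _ hΔ
              exact_mod_cast hvd
            linarith
          have h3 : (((nb G P v).biUnion (fun u => nb B F (φ0 u))).card : ℝ) ≤ a * Δ := by
            have h3 : (((nb G P v).biUnion (fun u => nb B F (φ0 u))).card : ℝ) ≤
                ∑ u ∈ nb G P v, (dg B F (φ0 u) : ℝ) := by
              exact_mod_cast Finset.card_biUnion_le
            have h4 : ∑ u ∈ nb G P v, (dg B F (φ0 u) : ℝ) ≤ ∑ _u ∈ nb G P v, Δ := by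
              apply Finset.sum_le_sum
              intro u hu
              simp only [nb, Finset.mem_filter] at hu
              exact hdegP v (hT' hv) u hu.1 hu.2
            rw [Finset.sum_const, nsmul_eq_mul] at h4
            have h5 : ((nb G P v).card : ℝ) * Δ ≤ a * Δ := by
              apply mul_le_mul_of_nonneg_right _ hΔ
              exact_mod_cast hPa v (hT' hv)
            linarith
          have h4 := Finset.card_union_le (T1.image φ)
            ((nb G T' v).biUnion (fun u => nb B F (φ u)) ∪
            (nb G P v).biUnion (fun u => nb B F (φ0 u)))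
          have h5 := Finset.card_union_le ((nb G T' v).biUnion (fun u => nb B F (φ u)))
            ((nb G P v).biUnion (fun u => nb B F (φ0 u)))
          rw [← hforb] at h4
          have h6 : (forb.card : ℝ) ≤ T.card + (((nb G T' v).biUnion (fun u => nb B F (φ u))).card +
              ((nb G P v).biUnion (fun u => nb B F (φ0 u))).card) := by
            exact_mod_cast (by omega : forb.card ≤ T.card +
              (((nb G T' v).biUnion (fun u => nb B F (φ u))).card +
              ((nb G P v).biUnion (fun u => nb B F (φ0 u))).card))
          linarith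
        have hCandc : c ≤ (Cand.card : ℝ) := by
          have h1 : F.card ≤ Cand.card + forb.card := by
            have := Finset.card_le_card_sdiff_add_card (s := F) (t := forb)
            omega
          have h2 : (F.card : ℝ) ≤ Cand.card + forb.card := by exact_mod_cast h1
          linarith
        have hCandpos : (0:ℝ) < Cand.card := lt_of_lt_of_le hc hCandc
        have hCne : Cand.Nonempty := by
          rw [← Finset.card_pos]
          exact_mod_cast hCandpos
        -- averaging
        have hupd : ∀ x, ∀ u ∈ T1, Function.update φ v x u = φ u := by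
          intro x u hu
          apply Function.update_of_ne
          rintro rfl
          exact hvT1 hu
        have hterm : ∀ x i w, Real.exp ((4 * hw B (Function.update φ v x) T' (ω i) w -
            lam * ∑ v ∈ T', ω i v) / D i) =
            Real.exp ((4 * hw B φ T1 (ω i) w - lam * ∑ v ∈ T1, ω i v) / D i) *
              (Real.exp (-(lam * ω i v / D i)) *
                (if B.Adj x w then Real.exp (4 * ω i v / D i) else 1)) := by
          intro x i w
          have h1 : hw B (Function.update φ v x) T' (ω i) w = hw B φ T1 (ω i) w +
              (if B.Adj x w then ω i v else 0) := by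
            rw [← hins, hw_insert B (ω i) w hvT1, hw_congr B (ω i) w (hupd x),
              Function.update_self]
          have h2 : ∑ v ∈ T', ω i v = ω i v + ∑ v ∈ T1, ω i v := by
            rw [← hins, Finset.sum_insert hvT1]
          rw [h1, h2]
          split_ifs with h
          · rw [← Real.exp_add, ← Real.exp_add]
            congr 1
            field_simp
            ring
          · rw [mul_one, ← Real.exp_add]
            congr 1
            field_simp
            ring
        have hone : ∀ i, ∀ w ∈ W0, ∑ x ∈ Cand, Real.exp (-(lam * ω i v / D i)) *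
                (if B.Adj x w then Real.exp (4 * ω i v / D i) else 1) ≤ Cand.card := by
          intro i w hw'
          have hωv := hω i v (hT' hv)
          have hDi := hD i
          set y : ℝ := 4 * ω i v / D i with hy
          have hy0 : 0 ≤ y := by
            rw [hy]; exact div_nonneg (by linarith [hωv.1]) hDi.le
          have hy4 : y ≤ 4 := by
            rw [hy, div_le_iff₀ hDi]
            linarith [hωv.2]
          have h1 : ∑ x ∈ Cand, (if B.Adj x w then Real.exp y else 1) ≤
              Cand.card + Δ * (Real.exp y - 1) := by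
            have h2 : ∀ x ∈ Cand, (if B.Adj x w then Real.exp y else (1:ℝ)) =
                1 + (if B.Adj x w then Real.exp y - 1 else 0) := by
              intro x _
              split_ifs <;> ring
            rw [Finset.sum_congr rfl h2, Finset.sum_add_distrib, ← Finset.sum_filter,
              Finset.sum_const, Finset.sum_const, nsmul_eq_mul, nsmul_eq_mul, mul_one]
            have h3 : ((Cand.filter (fun x => B.Adj x w)).card : ℝ) ≤ Δ := by
              refine le_trans ?_ (hdegW w hw')
              have : Cand.filter (fun x => B.Adj x w) ⊆ nb B F w := by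
                intro x hx
                simp only [hCand, nb, Finset.mem_filter, Finset.mem_sdiff] at hx ⊢
                exact ⟨hx.1.1, hx.2.symm⟩
              exact_mod_cast Finset.card_le_card this
            have h4 : (0:ℝ) ≤ Real.exp y - 1 := by
              have := Real.one_le_exp hy0
              linarith
            have := mul_le_mul_of_nonneg_right h3 h4
            linarith
          rw [← Finset.mul_sum]
          have h2 : Real.exp y - 1 ≤ y * Real.exp 4 := exp_sub_one_le hy0 hy4
          have h3 : Δ * (Real.exp y - 1) ≤ Cand.card * (lam * ω i v / D i) := by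
            have h5 : Δ * (Real.exp y - 1) ≤ Δ * (y * Real.exp 4) :=
              mul_le_mul_of_nonneg_left h2 hΔ
            have h6 : Δ * 4 * Real.exp 4 ≤ lam * Cand.card := by
              have h7 : Δ * 4 * Real.exp 4 ≤ lam * c := by
                have : Δ / c * 4 * Real.exp 4 * c ≤ lam * c :=
                  mul_le_mul_of_nonneg_right hlam hc.le
                have h8 : Δ / c * 4 * Real.exp 4 * c = Δ * 4 * Real.exp 4 := by
                  field_simp
                linarith
              have h9 : 0 ≤ lam := le_trans (by positivity) hlam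
              have h10 : lam * c ≤ lam * Cand.card := mul_le_mul_of_nonneg_left hCandc h9
              linarith
            have h7 : Δ * (y * Real.exp 4) = (Δ * 4 * Real.exp 4) * (ω i v / D i) := by
              rw [hy]; ring
            have h8 : Cand.card * (lam * ω i v / D i) = (lam * Cand.card) * (ω i v / D i) := by
              ring
            rw [h8]
            rw [h7] at h5
            have h9 : 0 ≤ ω i v / D i := div_nonneg hωv.1 hDi.le
            have := mul_le_mul_of_nonneg_right h6 h9
            linarith
          have h4 : ∑ x ∈ Cand, (if B.Adj x w then Real.exp y else 1) ≤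
              Cand.card * Real.exp (lam * ω i v / D i) := by
            have h5 := Real.add_one_le_exp (lam * ω i v / D i)
            have h6 := mul_le_mul_of_nonneg_left h5 hCandpos.le
            linarith
          have h5 := mul_le_mul_of_nonneg_left h4 (Real.exp_pos (-(lam * ω i v / D i))).le
          have h6 : Real.exp (-(lam * ω i v / D i)) * (Cand.card * Real.exp (lam * ω i v / D i)) =
              Cand.card := by
            have : Real.exp (-(lam * ω i v / D i)) * Real.exp (lam * ω i v / D i) = 1 := by
              rw [← Real.exp_add]; simp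
            calc Real.exp (-(lam * ω i v / D i)) * (Cand.card * Real.exp (lam * ω i v / D i))
                = Cand.card * (Real.exp (-(lam * ω i v / D i)) * Real.exp (lam * ω i v / D i)) := by
                  ring
              _ = Cand.card := by rw [this, mul_one]
          linarith
        have havg : ∑ x ∈ Cand, (∑ i, ∑ w ∈ W0, Real.exp ((4 * hw B (Function.update φ v x) T' (ω i) w -
            lam * ∑ v ∈ T', ω i v) / D i)) ≤ ∑ _x ∈ Cand, ((Fintype.card ι : ℝ) * W0.card) := by
          rw [Finset.sum_comm, Finset.sum_const, nsmul_eq_mul]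
          refine le_trans ?_ (mul_le_mul_of_nonneg_left hpot hCandpos.le)
          rw [Finset.mul_sum (Finset.univ : Finset ι)]
          apply Finset.sum_le_sum
          intro i _
          rw [Finset.sum_comm, Finset.mul_sum W0]
          apply Finset.sum_le_sum
          intro w hw'
          rw [Finset.sum_congr rfl (fun x _ => hterm x i w), ← Finset.mul_sum]
          rw [mul_comm]
          exact mul_le_mul_of_nonneg_right (hone i w hw') (Real.exp_pos _).le
        obtain ⟨x, hx, hxp⟩ := Finset.exists_le_of_sum_le hCne havg
        have hxF : x ∈ F := by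
          rw [hCand, Finset.mem_sdiff] at hx; exact hx.1
        have hxf : x ∉ forb := by
          rw [hCand, Finset.mem_sdiff] at hx; exact hx.2
        simp only [hforb, Finset.mem_union, Finset.mem_image, Finset.mem_biUnion, not_or, not_exists,
          not_and] at hxf
        obtain ⟨hx1, hx2, hx3⟩ := hxf
        refine ⟨Function.update φ v x, ?_, ?_, ?_, ?_, hxp⟩
        · intro p hp q hq hpq
          by_cases hpv : p = v
          · by_cases hqv : q = v
            · rw [hpv, hqv]
            · exfalso
              subst hpv
              rw [Function.update_self, Function.update_of_ne hqv] at hpq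
              exact hx1 q (Finset.mem_erase.mpr ⟨hqv, hq⟩) hpq.symm
          · by_cases hqv : q = v
            · exfalso
              subst hqv
              rw [Function.update_self, Function.update_of_ne hpv] at hpq
              exact hx1 p (Finset.mem_erase.mpr ⟨hpv, hp⟩) hpq
            · rw [Function.update_of_ne hpv, Function.update_of_ne hqv] at hpq
              exact hinj (Finset.mem_coe.mpr (Finset.mem_erase.mpr ⟨hpv, hp⟩))
                (Finset.mem_coe.mpr (Finset.mem_erase.mpr ⟨hqv, hq⟩)) hpq
        · intro u hu
          by_cases huv : u = v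
          · subst huv; rw [Function.update_self]; exact hxF
          · rw [Function.update_of_ne huv]; exact hmem u (Finset.mem_erase.mpr ⟨huv, hu⟩)
        · have hz : ∀ u ∈ T', G.Adj v u → ¬ B.Adj x (Function.update φ v x u) := by
            intro u hu hvu
            have huv : u ≠ v := by rintro rfl; exact G.loopless.irrefl _ hvu
            rw [Function.update_of_ne huv]
            intro hB
            refine hx2 u (by simp [nb, hu, hvu]) ?_
            simp only [nb, Finset.mem_filter]
            exact ⟨hxF, hB.symm⟩
          intro p hp q hq hpq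
          by_cases hpv : p = v
          · subst hpv; rw [Function.update_self]; exact hz q hq hpq
          · by_cases hqv : q = v
            · subst hqv
              rw [Function.update_self]
              intro hB
              exact hz p hp hpq.symm hB.symm
            · rw [Function.update_of_ne hpv, Function.update_of_ne hqv]
              exact hadj p (Finset.mem_erase.mpr ⟨hpv, hp⟩) q (Finset.mem_erase.mpr ⟨hqv, hq⟩) hpq
        · intro p hp q hq hpq
          by_cases hpv : p = v
          · subst hpv
            rw [Function.update_self]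
            intro hB
            refine hx3 q (by simp [nb, hq, hpq]) ?_
            simp only [nb, Finset.mem_filter]
            exact ⟨hxF, hB.symm⟩
          · rw [Function.update_of_ne hpv]
            exact hadjP p (Finset.mem_erase.mpr ⟨hpv, hp⟩) q hq hpq
  obtain ⟨φ, h1, h2, h3, h4, h5⟩ := key T (Finset.Subset.refl _)
  refine ⟨φ, h1, h2, h3, h4, ?_⟩
  intro i
  set E : Finset V := W0.filter (fun w => 1 / 2 ≤ hw B φ T (ω i) w) with hE
  have h6 : ∑ w ∈ W0, Real.exp ((4 * hw B φ T (ω i) w - lam * ∑ v ∈ T, ω i v) / D i) ≤
      Fintype.card ι * W0.card := by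
    refine le_trans ?_ h5
    exact Finset.single_le_sum (f := fun i => ∑ w ∈ W0, Real.exp ((4 * hw B φ T (ω i) w -
      lam * ∑ v ∈ T, ω i v) / D i)) (fun j _ => Finset.sum_nonneg (fun w _ => (Real.exp_pos _).le))
      (Finset.mem_univ i)
  have h7 : ∑ w ∈ E, Real.exp (1 / D i) ≤
      ∑ w ∈ W0, Real.exp ((4 * hw B φ T (ω i) w - lam * ∑ v ∈ T, ω i v) / D i) := by
    have hEW : E ⊆ W0 := Finset.filter_subset _ _
    refine le_trans ?_ (Finset.sum_le_sum_of_subset_of_nonneg hEW
      (fun w _ _ => (Real.exp_pos _).le))
    apply Finset.sum_le_sum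
    intro w hw'
    rw [hE] at hw'
    apply Real.exp_le_exp.mpr
    apply div_le_div_of_nonneg_right _ (hD i).le
    rw [Finset.mem_filter] at hw'
    have := hsum i
    linarith [hw'.2]
  rw [Finset.sum_const, nsmul_eq_mul] at h7
  have h8 : (E.card : ℝ) * Real.exp (1 / D i) ≤ Fintype.card ι * W0.card := h7.trans h6
  have h9 := mul_le_mul_of_nonneg_right h8 (Real.exp_pos (-(1 / D i))).le
  have h10 : (E.card : ℝ) * Real.exp (1 / D i) * Real.exp (-(1 / D i)) = E.card := by
    rw [mul_assoc, ← Real.exp_add]; simp
  linarith

end Pool.Agent.L7h70.RG
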