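import Pool.Agent.L7h70.RG.Chain

/-!
# Embedding with slack into a connected system of nearly complete sets
-/

set_option autoImplicit false

namespace Pool.Agent.L7h70.RG

open Finset
open scoped Classical

/-- the two sets contain large subsets with few blue edges between them -/
def Conn {V : Type} (B : SimpleGraph V) (α μ : ℝ) (A C : Finset V) : Prop :=
  ∃ X ⊆ A, ∃ Y ⊆ C, μ * A.card ≤ X.card ∧ μ * C.card ≤ Y.card ∧
    ∑ x ∈ X, (dg B Y x : ℝ) ≤ α * X.card * Y.card

lemma Conn.symm {V : Type} {B : SimpleGraph V} {α μ : ℝ} {A C : Finset V} (h : Conn B α μ A C) :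
    Conn B α μ C A := by
  obtain ⟨X, hX, Y, hY, h1, h2, h3⟩ := h
  refine ⟨Y, hY, X, hX, h2, h1, ?_⟩
  have h4 : (∑ y ∈ Y, (dg B X y : ℝ)) = ∑ x ∈ X, (dg B Y x : ℝ) := by
    exact_mod_cast sum_dg_comm B Y X
  rw [h4]
  linarith

/-- Markov: few vertices of large degree -/
lemma markov {V : Type} (B : SimpleGraph V) (X Y : Finset V) (a s : ℝ)
    (h : ∑ x ∈ X, (dg B Y x : ℝ) ≤ s) :
    ((X.filter (fun x => a < (dg B Y x : ℝ))).card : ℝ) * a ≤ s := by
  have h8 : ∑ _x ∈ X.filter (fun x => a < (dg B Y x : ℝ)), a ≤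
      ∑ x ∈ X.filter (fun x => a < (dg B Y x : ℝ)), (dg B Y x : ℝ) := by
    apply Finset.sum_le_sum
    intro y hy
    rw [Finset.mem_filter] at hy
    exact hy.2.le
  have h9 : ∑ x ∈ X.filter (fun x => a < (dg B Y x : ℝ)), (dg B Y x : ℝ) ≤
      ∑ x ∈ X, (dg B Y x : ℝ) :=
    Finset.sum_le_sum_of_subset_of_nonneg (Finset.filter_subset _ _)
      (fun _ _ _ => Nat.cast_nonneg _)
  rw [Finset.sum_const, nsmul_eq_mul] at h8
  linarith

lemma Conn.typ {V : Type} {B : SimpleGraph V} {α μ : ℝ} (hα : 0 < α) {A C : Finset V}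
    (h : Conn B α μ A C) (hC : 0 < μ * C.card) :
    ∃ X ⊆ A, ∃ Y ⊆ C, μ / 2 * A.card ≤ X.card ∧ μ * C.card ≤ Y.card ∧
      ∀ x ∈ X, (dg B Y x : ℝ) ≤ 2 * α * Y.card := by
  obtain ⟨X, hX, Y, hY, h1, h2, h3⟩ := h
  have hYpos : (0:ℝ) < Y.card := lt_of_lt_of_le hC h2
  have h4 := markov B X Y (2 * α * Y.card) _ h3
  set bad := X.filter (fun x => 2 * α * Y.card < (dg B Y x : ℝ)) with hbad
  have h5 : (bad.card : ℝ) ≤ X.card / 2 := by
    have h6 : (2 * α * (Y.card : ℝ)) * bad.card ≤ (2 * α * Y.card) * (X.card / 2) := by nlinarith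
    exact le_of_mul_le_mul_left h6 (by positivity)
  refine ⟨X \ bad, Finset.sdiff_subset.trans hX, Y, hY, ?_, h2, ?_⟩
  · have h6 : (X \ bad).card + bad.card = X.card :=
      Finset.card_sdiff_add_card_eq_card (Finset.filter_subset _ _)
    have h7 : ((X \ bad).card : ℝ) + bad.card = X.card := by exact_mod_cast h6
    nlinarith
  · intro x hx
    rw [Finset.mem_sdiff, hbad, Finset.mem_filter, not_and, not_lt] at hx
    exact hx.2 hx.1

/-- positions to classes -/
lemma exists_lam (n b L : ℕ) (len : ℕ → ℕ) (hlen : ∀ l ≤ L, b ≤ len l)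
    (hn : n ≤ ∑ l ∈ Finset.range (L + 1), len l) :
    ∃ lam : Fin n → ℕ, (∀ v, lam v ≤ L) ∧ (∀ u v : Fin n, (u : ℕ) ≤ v + b → lam u ≤ lam v + 1) ∧
      ∀ l, (Finset.univ.filter (fun u : Fin n => lam u = l)).card ≤ len l := by
  have hex : ∀ v : Fin n, ∃ l, (v : ℕ) < ∑ i ∈ Finset.range (l + 1), len i := fun v =>
    ⟨L, lt_of_lt_of_le v.2 hn⟩
  refine ⟨fun v => Nat.find (hex v), ?_, ?_, ?_⟩
  · intro v
    exact Nat.find_min' (hex v) (lt_of_lt_of_le v.2 hn)
  · intro u v huv
    by_cases hv : Nat.find (hex v) < L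
    · show Nat.find (hex u) ≤ Nat.find (hex v) + 1
      apply Nat.find_min' (hex u)
      have h1 := Nat.find_spec (hex v)
      rw [Finset.sum_range_succ]
      have h2 := hlen (Nat.find (hex v) + 1) hv
      omega
    · have h1 : Nat.find (hex u) ≤ L := Nat.find_min' (hex u) (lt_of_lt_of_le u.2 hn)
      show Nat.find (hex u) ≤ Nat.find (hex v) + 1
      omega
  · intro l
    have h1 : Finset.image (fun u : Fin n => (u : ℕ))
        (Finset.univ.filter (fun u : Fin n => Nat.find (hex u) = l)) ⊆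
        Finset.Ico (∑ i ∈ Finset.range l, len i) (∑ i ∈ Finset.range (l + 1), len i) := by
      intro x hx
      rw [Finset.mem_image] at hx
      obtain ⟨u, hu, rfl⟩ := hx
      rw [Finset.mem_filter] at hu
      rw [Finset.mem_Ico]
      refine ⟨?_, ?_⟩
      · rcases Nat.eq_zero_or_pos l with h0 | h0
        · subst h0; simp
        · by_contra hcon
          push Not at hcon
          have h2 : Nat.find (hex u) ≤ l - 1 := Nat.find_min' (hex u) (by
            rw [Nat.sub_add_cancel h0]; exact hcon)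
          omega
      · rw [← hu.2]
        exact Nat.find_spec (hex u)
    have h2 := Finset.card_le_card h1
    rw [Finset.card_image_of_injective _ Fin.val_injective, Nat.card_Ico,
      Finset.sum_range_succ] at h2
    show (Finset.univ.filter (fun u : Fin n => Nat.find (hex u) = l)).card ≤ len l
    omega

set_option maxHeartbeats 4000000 in
theorem slack (d t m : ℕ) (ε : ℝ) (hε : 0 < ε) (hε1 : ε ≤ 1) : ∃ α : ℝ, 0 < α ∧ ∀ μ : ℝ, 0 < μ →
    μ ≤ 1 → ∃ δ : ℝ, 0 < δ ∧ ∀ (K : ℕ) (q : ℝ), 0 < q → ∃ γ : ℝ, 0 < γ ∧ ∃ n0 : ℕ, ∀ n, n0 ≤ n →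
    ∀ (G : SimpleGraph (Fin n)), (∀ S : Finset (Fin n), S.Nonempty → ∃ v ∈ S, dg G S v ≤ d) →
    ∀ b : ℕ, (b : ℝ) ≤ γ * n → (∀ u v, G.Adj u v → (u : ℕ) ≤ v + b) →
    ∀ {V : Type} [Nonempty V] (B : SimpleGraph V) {ι : Type} (Q : ι → Finset V),
      (∀ i j, i ≠ j → Disjoint (Q i) (Q j)) →
      (∀ i, ∀ v ∈ Q i, (dg B (Q i) v : ℝ) ≤ δ * (Q i).card) → (∀ i, ¬ HasK B t m (Q i)) →
      (∀ i, q * n ≤ (Q i).card) → ∀ k, k ≤ K → ∀ w : ℕ → ι,
      (∀ j < k, Conn B α μ (Q (w j)) (Q (w (j + 1)))) → ∀ C : Finset ι,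
      (∀ i ∈ C, ∃ j ≤ k, w j = i) → (1 + ε) * n ≤ ∑ i ∈ C, ((Q i).card : ℝ) →
      ∃ φ : Fin n → V, Function.Injective φ ∧ ∀ u v, G.Adj u v → ¬ B.Adj (φ u) (φ v) := by
  set θ : ℝ := ε / (16 * (d + 1)) with hθ
  have hθ0 : 0 < θ := by positivity
  have hdθ : d * θ ≤ ε / 16 := by
    rw [hθ]
    rw [mul_div_assoc', div_le_div_iff₀ (by positivity) (by norm_num)]
    nlinarith
  have hθ16 : θ ≤ 1 / 16 := by
    rw [hθ, div_le_div_iff₀ (by positivity) (by norm_num)]
    have : (0:ℝ) ≤ d := Nat.cast_nonneg _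
    nlinarith
  obtain ⟨c, u0, hc, hc1, hsel⟩ := select t m θ hθ0 (by linarith)
  refine ⟨(θ / 4) ^ 2 / 2, by positivity, ?_⟩
  intro μ hμ hμ1
  refine ⟨min ((θ / 4) ^ 2 * μ / 2) (θ * ε / 32), by positivity, ?_⟩
  set δ : ℝ := min ((θ / 4) ^ 2 * μ / 2) (θ * ε / 32) with hδ
  have hδ0 : 0 < δ := by rw [hδ]; positivity
  have hδ1 : δ ≤ (θ / 4) ^ 2 * μ / 2 := min_le_left _ _
  have hδ2 : δ ≤ θ * ε / 32 := min_le_right _ _
  intro K q hq
  set ν : ℝ := μ * ε * q / (16 * (3 * K + 1)) with hν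
  have hν0 : 0 < ν := by positivity
  refine ⟨c * ν / 8, by positivity, ⌈(u0 + 2 : ℝ) * (1 + 1 / ν) * (1 + 1 / (c * ν)) * 8⌉₊ +
    ⌈16 / (ε * q) + 1⌉₊ + 1, ?_⟩
  intro n hn G hG b hb hbw V _ B ι Q hdisj hnc hK hqn k hk w hw C hC hsum
  have hn1 : (⌈(u0 + 2 : ℝ) * (1 + 1 / ν) * (1 + 1 / (c * ν)) * 8⌉₊ : ℝ) ≤ n := by
    have : ⌈(u0 + 2 : ℝ) * (1 + 1 / ν) * (1 + 1 / (c * ν)) * 8⌉₊ ≤ n := by omega
    exact_mod_cast this
  have hn1' := (Nat.le_ceil _).trans hn1
  have hn2 : (⌈16 / (ε * q) + 1⌉₊ : ℝ) ≤ n := by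
    have : ⌈16 / (ε * q) + 1⌉₊ ≤ n := by omega
    exact_mod_cast this
  have hn2' := (Nat.le_ceil _).trans hn2
  have hn0 : (0:ℝ) < n := by
    have : 0 < n := by omega
    exact_mod_cast this
  -- derived inequalities
  have hνn : (u0 + 2 : ℝ) ≤ ν * n := by
    have h1 : (u0 + 2 : ℝ) * (1 / ν) ≤ n := by
      refine le_trans ?_ hn1'
      have h2 : (0:ℝ) ≤ 1 / ν := by positivity
      have h3 : (0:ℝ) ≤ 1 / (c * ν) := by positivity
      have h4 : (0:ℝ) ≤ (u0 + 2 : ℝ) := by positivity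
      calc (u0 + 2 : ℝ) * (1 / ν) ≤ (u0 + 2 : ℝ) * (1 + 1 / ν) := by nlinarith
        _ ≤ (u0 + 2 : ℝ) * (1 + 1 / ν) * (1 + 1 / (c * ν)) :=
            le_mul_of_one_le_right (by positivity) (by linarith)
        _ ≤ (u0 + 2 : ℝ) * (1 + 1 / ν) * (1 + 1 / (c * ν)) * 8 :=
            le_mul_of_one_le_right (by positivity) (by norm_num)
    rw [mul_one_div, div_le_iff₀ hν0] at h1
    linarith
  have hcνn : 16 ≤ c * ν * n := by
    have h1 : (16 : ℝ) * (1 / (c * ν)) ≤ n := by
      refine le_trans ?_ hn1'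
      have h2 : (0:ℝ) ≤ 1 / ν := by positivity
      have h3 : (0:ℝ) ≤ 1 / (c * ν) := by positivity
      have h4 : (2:ℝ) ≤ (u0 + 2 : ℝ) := by
        have : (0:ℝ) ≤ u0 := Nat.cast_nonneg _
        linarith
      have h5 : (2:ℝ) ≤ (u0 + 2 : ℝ) * (1 + 1 / ν) := by nlinarith
      nlinarith
    rw [mul_one_div, div_le_iff₀ (by positivity)] at h1
    linarith
  have hεqn : 16 ≤ ε * q * n := by
    have h1 : 16 / (ε * q) ≤ n := by linarith
    rw [div_le_iff₀ (by positivity)] at h1
    linarith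
  set x0 : ℕ := ⌊ν * n⌋₊ with hx0
  have hx0le : (x0 : ℝ) ≤ ν * n := Nat.floor_le (by positivity)
  have hx0ge : ν * n - 1 ≤ x0 := by
    have := Nat.lt_floor_add_one (ν * n)
    linarith
  have hu0x : u0 ≤ x0 := by
    have : (u0 : ℝ) ≤ x0 := by linarith
    exact_mod_cast this
  have hx0pos : 0 < x0 := by
    have : (0:ℝ) < x0 := by
      have : (0:ℝ) ≤ u0 := Nat.cast_nonneg _
      linarith
    exact_mod_cast this
  have hcx0 : 2 * (b : ℝ) ≤ c * x0 := by
    have h1 : c * (ν * n - 1) ≤ c * x0 := mul_le_mul_of_nonneg_left hx0ge hc.le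
    nlinarith
  have hQpos : ∀ i, (0:ℝ) < (Q i).card := fun i => lt_of_lt_of_le (by positivity) (hqn i)
  -- crossing pairs
  have hcr : ∀ j, ∃ X Y : Finset V, j < k → X ⊆ Q (w j) ∧ Y ⊆ Q (w (j + 1)) ∧
      μ / 2 * (Q (w j)).card ≤ X.card ∧ μ * (Q (w (j + 1))).card ≤ Y.card ∧
      ∀ x ∈ X, (dg B Y x : ℝ) ≤ (θ / 4) ^ 2 * Y.card := by
    intro j
    by_cases hj : j < k
    · obtain ⟨X, hX, Y, hY, h1, h2, h3⟩ := (hw j hj).typ (by positivity)
        (mul_pos hμ (hQpos _))
      refine ⟨X, Y, fun _ => ⟨hX, hY, h1, h2, ?_⟩⟩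
      intro x hx
      have := h3 x hx
      linarith
    · exact ⟨∅, ∅, fun h => absurd h hj⟩
  choose X Y hXY using hcr
  set L : ℕ := 3 * k with hL
  set P : ℕ → Finset V := fun l => if l % 3 = 0 then Q (w (l / 3)) else if l % 3 = 1 then X (l / 3)
    else Y (l / 3) with hP
  have hP0 : ∀ j, P (3 * j) = Q (w j) := by
    intro j
    have e1 : 3 * j / 3 = j := by omega
    simp only [hP]
    rw [if_pos (by omega), e1]
  have hP1 : ∀ j, P (3 * j + 1) = X j := by
    intro j
    have e1 : (3 * j + 1) / 3 = j := by omega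
    simp only [hP]
    rw [if_neg (by omega), if_pos (by omega), e1]
  have hP2 : ∀ j, P (3 * j + 2) = Y j := by
    intro j
    have e1 : (3 * j + 2) / 3 = j := by omega
    simp only [hP]
    rw [if_neg (by omega), if_neg (by omega), e1]
  have hcase : ∀ l, ∃ j, l = 3 * j ∨ l = 3 * j + 1 ∨ l = 3 * j + 2 := fun l => ⟨l / 3, by omega⟩
  have hPsub : ∀ l ≤ L, ∃ i, P l ⊆ Q i ∧ μ / 2 * (Q i).card ≤ (P l).card := by
    intro l hl
    obtain ⟨j, rfl | rfl | rfl⟩ := hcase l
    · refine ⟨w j, by rw [hP0], ?_⟩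
      rw [hP0]
      have := hQpos (w j)
      nlinarith
    · have hj : j < k := by omega
      refine ⟨w j, ?_, ?_⟩
      · rw [hP1]; exact (hXY j hj).1
      · rw [hP1]; exact (hXY j hj).2.2.1
    · have hj : j < k := by omega
      refine ⟨w (j + 1), ?_, ?_⟩
      · rw [hP2]; exact (hXY j hj).2.1
      · rw [hP2]
        have h1 := (hXY j hj).2.2.2.1
        have := hQpos (w (j + 1))
        nlinarith
  have hLK : ((L : ℝ) + 1) * ν ≤ μ * ε * q / 16 := by
    have h1 : (L : ℝ) + 1 ≤ 3 * K + 1 := by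
      have : L + 1 ≤ 3 * K + 1 := by omega
      exact_mod_cast this
    rw [hν]
    rw [mul_div_assoc', div_le_div_iff₀ (by positivity) (by norm_num)]
    have h2 : (0:ℝ) ≤ μ * ε * q := by positivity
    nlinarith
  have hLx0 : ((L : ℝ) + 1) * x0 ≤ μ * ε * q / 16 * n := by
    have h1 : ((L : ℝ) + 1) * x0 ≤ ((L : ℝ) + 1) * (ν * n) :=
      mul_le_mul_of_nonneg_left hx0le (by positivity)
    have h2 : ((L : ℝ) + 1) * ν * n ≤ μ * ε * q / 16 * n :=
      mul_le_mul_of_nonneg_right hLK hn0.le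
    linarith
  obtain ⟨S, hS1, hS2, hS3, hS4⟩ := hsel B L P x0 (by
      intro l hl h
      obtain ⟨i, hi, _⟩ := hPsub l hl
      exact hK i (h.mono hi)) hu0x hx0pos (by
      intro l hl
      obtain ⟨i, hi, hi2⟩ := hPsub l hl
      have h1 := hqn i
      have h2 : (4 * ((L : ℝ) + 1) * x0) ≤ (P l).card := by
        have h3 : μ / 2 * (q * n) ≤ μ / 2 * (Q i).card :=
          mul_le_mul_of_nonneg_left h1 (by positivity)
        have h4 : μ * ε * q * n ≤ μ * 1 * q * n := by
          have : (0:ℝ) ≤ μ * q * n := by positivity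
          nlinarith
        nlinarith
      exact_mod_cast h2) (by
      intro l hl x hx
      obtain ⟨j, rfl | rfl | rfl⟩ := hcase l
      · have hj : j < k := by omega
        rw [hP1]
        rw [hP0] at hx
        have h1 := hnc (w j) x hx
        have h2 : (dg B (X j) x : ℝ) ≤ dg B (Q (w j)) x := by
          exact_mod_cast dg_mono B (hXY j hj).1 x
        have h3 := (hXY j hj).2.2.1
        have h4 : (θ / 4) ^ 2 * (μ / 2 * (Q (w j)).card) ≤ (θ / 4) ^ 2 * (X j).card :=
          mul_le_mul_of_nonneg_left h3 (by positivity)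
        have h5 : δ * ((Q (w j)).card : ℝ) ≤ (θ / 4) ^ 2 * μ / 2 * (Q (w j)).card :=
          mul_le_mul_of_nonneg_right hδ1 (Nat.cast_nonneg _)
        linarith
      · have hj : j < k := by omega
        rw [show 3 * j + 1 + 1 = 3 * j + 2 by ring, hP2]
        rw [hP1] at hx
        exact (hXY j hj).2.2.2.2 x hx
      · have hj : j < k := by omega
        rw [show 3 * j + 2 + 1 = 3 * (j + 1) by ring, hP0]
        rw [hP2] at hx
        have h1 := hnc (w (j + 1)) x ((hXY j hj).2.1 hx)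
        have h5 : δ * ((Q (w (j + 1))).card : ℝ) ≤ (θ / 4) ^ 2 * (Q (w (j + 1))).card := by
          apply mul_le_mul_of_nonneg_right _ (Nat.cast_nonneg _)
          have : (θ / 4) ^ 2 * μ / 2 ≤ (θ / 4) ^ 2 := by
            have : (0:ℝ) ≤ (θ / 4) ^ 2 := by positivity
            nlinarith
          linarith
        linarith)
  -- the bulk sets
  set Used : Finset V := (Finset.range (L + 1)).biUnion S with hUsed
  have hUsedc : (Used.card : ℝ) ≤ ε * q / 16 * n := by
    have h6 : Used.card ≤ ∑ l ∈ Finset.range (L + 1), (S l).card := Finset.card_biUnion_le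
    have h7 : ∑ l ∈ Finset.range (L + 1), (S l).card ≤ ∑ _l ∈ Finset.range (L + 1), x0 := by
      apply Finset.sum_le_sum
      intro l hl
      exact (hS1 l (by simpa [Nat.lt_succ_iff] using hl)).2.2
    rw [Finset.sum_const, Finset.card_range, smul_eq_mul] at h7
    have h8 : (Used.card : ℝ) ≤ ((L : ℝ) + 1) * x0 := by exact_mod_cast h6.trans h7
    have h9 : μ * ε * q / 16 * n ≤ ε * q / 16 * n := by
      have : (0:ℝ) ≤ ε * q / 16 * n := by positivity
      nlinarith
    linarith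
  set Bulk : ℕ → Finset V := fun l => (Q (w (l / 3)) \ Used).filter (fun y =>
    (1 ≤ l → (dg B (S (l - 1)) y : ℝ) ≤ θ * (S (l - 1)).card) ∧
    (l < L → (dg B (S (l + 1)) y : ℝ) ≤ θ * (S (l + 1)).card)) with hBulk
  have hBulkQ : ∀ j, Bulk (3 * j) ⊆ Q (w j) := by
    intro j
    have e1 : 3 * j / 3 = j := by omega
    simp only [hBulk, e1]
    exact (Finset.filter_subset _ _).trans Finset.sdiff_subset
  have hSprev : ∀ j, 1 ≤ j → j ≤ k → S (3 * j - 1) ⊆ Q (w j) := by
    intro j hj1 hj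
    have h1 := (hS1 (3 * j - 1) (by omega)).1
    have e1 : 3 * j - 1 = 3 * (j - 1) + 2 := by omega
    rw [e1, hP2] at h1
    have h2 := (hXY (j - 1) (by omega)).2.1
    rw [e1]
    rw [Nat.sub_add_cancel hj1] at h2
    exact h1.trans h2
  have hSnext : ∀ j, j < k → S (3 * j + 1) ⊆ Q (w j) := by
    intro j hj
    have h1 := (hS1 (3 * j + 1) (by omega)).1
    rw [hP1] at h1
    exact h1.trans (hXY j hj).1
  have hSpos : ∀ l ≤ L, (0:ℝ) < (S l).card := fun l hl =>
    lt_of_lt_of_le (mul_pos hc (by exact_mod_cast hx0pos)) (hS1 l hl).2.1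
  have hbadc : ∀ j, ∀ s : Finset V, s ⊆ Q (w j) → (0:ℝ) < s.card →
      (((Q (w j)).filter (fun y => θ * s.card < (dg B s y : ℝ))).card : ℝ) ≤
        ε / 32 * (Q (w j)).card := by
    intro j s hs hspos
    have h1 : ∑ y ∈ Q (w j), (dg B s y : ℝ) ≤ s.card * (δ * (Q (w j)).card) := by
      have h2 : (∑ y ∈ Q (w j), (dg B s y : ℝ)) = ∑ x ∈ s, (dg B (Q (w j)) x : ℝ) := by
        exact_mod_cast sum_dg_comm B (Q (w j)) s
      rw [h2]
      have h3 : ∑ x ∈ s, (dg B (Q (w j)) x : ℝ) ≤ ∑ _x ∈ s, (δ * (Q (w j)).card) :=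
        Finset.sum_le_sum (fun x hx => hnc (w j) x (hs hx))
      rwa [Finset.sum_const, nsmul_eq_mul] at h3
    have h2 := markov B (Q (w j)) s (θ * s.card) _ h1
    have h3 : (s.card : ℝ) * (δ * (Q (w j)).card) ≤ (s.card : ℝ) * (θ * ε / 32 * (Q (w j)).card) := by
      apply mul_le_mul_of_nonneg_left _ hspos.le
      exact mul_le_mul_of_nonneg_right hδ2 (Nat.cast_nonneg _)
    have h4 : (θ * (s.card : ℝ)) * ((Q (w j)).filter (fun y => θ * s.card < (dg B s y : ℝ))).card ≤
        (θ * s.card) * (ε / 32 * (Q (w j)).card) := by nlinarith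
    exact le_of_mul_le_mul_left h4 (by positivity)
  have hBulkc : ∀ j ≤ k, (1 - ε / 8) * (Q (w j)).card ≤ (Bulk (3 * j)).card := by
    intro j hj
    have e1 : 3 * j / 3 = j := by omega
    have hQw := hQpos (w j)
    set bad1 : Finset V := if 1 ≤ j then (Q (w j)).filter (fun y => θ * (S (3 * j - 1)).card <
      (dg B (S (3 * j - 1)) y : ℝ)) else ∅ with hbad1
    set bad2 : Finset V := if j < k then (Q (w j)).filter (fun y => θ * (S (3 * j + 1)).card <
      (dg B (S (3 * j + 1)) y : ℝ)) else ∅ with hbad2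
    have hb1 : (bad1.card : ℝ) ≤ ε / 32 * (Q (w j)).card := by
      rw [hbad1]
      split_ifs with h
      · exact hbadc j _ (hSprev j h hj) (hSpos _ (by omega))
      · simp only [Finset.card_empty, Nat.cast_zero]; positivity
    have hb2 : (bad2.card : ℝ) ≤ ε / 32 * (Q (w j)).card := by
      rw [hbad2]
      split_ifs with h
      · exact hbadc j _ (hSnext j h) (hSpos _ (by omega))
      · simp only [Finset.card_empty, Nat.cast_zero]; positivity
    have hcov : Q (w j) ⊆ Bulk (3 * j) ∪ Used ∪ bad1 ∪ bad2 := by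
      intro y hy
      by_contra hcon
      simp only [Finset.mem_union, not_or] at hcon
      obtain ⟨⟨⟨h1, h2⟩, h3⟩, h4⟩ := hcon
      apply h1
      simp only [hBulk, e1, Finset.mem_filter, Finset.mem_sdiff]
      refine ⟨⟨hy, h2⟩, ?_, ?_⟩
      · intro h
        have hj1 : 1 ≤ j := by omega
        rw [hbad1, if_pos hj1, Finset.mem_filter, not_and, not_lt] at h3
        exact h3 hy
      · intro h
        have hj1 : j < k := by omega
        rw [hbad2, if_pos hj1, Finset.mem_filter, not_and, not_lt] at h4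
        exact h4 hy
    have h5 := Finset.card_le_card hcov
    have h6 := Finset.card_union_le (Bulk (3 * j) ∪ Used ∪ bad1) bad2
    have h7 := Finset.card_union_le (Bulk (3 * j) ∪ Used) bad1
    have h8 := Finset.card_union_le (Bulk (3 * j)) Used
    have h9 : ((Q (w j)).card : ℝ) ≤ (Bulk (3 * j)).card + Used.card + bad1.card + bad2.card := by
      exact_mod_cast (by omega : (Q (w j)).card ≤ (Bulk (3 * j)).card + Used.card + bad1.card +
        bad2.card)
    have h10 : ε * q / 16 * n ≤ ε / 16 * (Q (w j)).card := by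
      have := hqn (w j)
      have h11 : ε / 16 * (q * n) ≤ ε / 16 * (Q (w j)).card :=
        mul_le_mul_of_nonneg_left this (by positivity)
      linarith
    linarith
  have hBulkhalf : ∀ j ≤ k, ((Q (w j)).card : ℝ) / 2 ≤ (Bulk (3 * j)).card := by
    intro j hj
    have := hBulkc j hj
    have h1 := hQpos (w j)
    nlinarith
  -- first occurrences
  set isB : ℕ → Prop := fun l => l % 3 = 0 ∧ w (l / 3) ∈ C ∧ ∀ j' < l / 3, w j' ≠ w (l / 3) with hisB
  set S' : ℕ → Finset V := fun l => if isB l then Bulk l else S l with hS'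
  have hS'B : ∀ l, isB l → S' l = Bulk l := fun l h => by simp only [hS']; rw [if_pos h]
  have hS'S : ∀ l, ¬ isB l → S' l = S l := fun l h => by simp only [hS']; rw [if_neg h]
  have hUsedmem : ∀ l ≤ L, S l ⊆ Used := by
    intro l hl
    exact Finset.subset_biUnion_of_mem S (by simpa [Nat.lt_succ_iff] using hl)
  have hBulkUsed : ∀ l, Disjoint (Bulk l) Used := by
    intro l
    rw [Finset.disjoint_left]
    intro y hy
    simp only [hBulk, Finset.mem_filter, Finset.mem_sdiff] at hy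
    exact hy.1.2
  have hBl : ∀ l, isB l → ∃ j, l = 3 * j := by
    intro l hl
    exact ⟨l / 3, by have := hl.1; omega⟩
  have hdisj' : ∀ l ≤ L, ∀ l' ≤ L, l ≠ l' → Disjoint (S' l) (S' l') := by
    intro l hl l' hl' hne
    by_cases hB1 : isB l
    · by_cases hB2 : isB l'
      · rw [hS'B l hB1, hS'B l' hB2]
        obtain ⟨j, rfl⟩ := hBl l hB1
        obtain ⟨j', rfl⟩ := hBl l' hB2
        have e1 : 3 * j / 3 = j := by omega
        have e2 : 3 * j' / 3 = j' := by omega
        have hww : w j ≠ w j' := by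
          have h1 := hB1.2.2
          have h2 := hB2.2.2
          rw [e1] at h1
          rw [e2] at h2
          rcases Nat.lt_or_gt_of_ne (show j ≠ j' by omega) with h | h
          · exact h2 j h
          · exact (h1 j' h).symm
        exact Finset.disjoint_of_subset_left (hBulkQ j) (Finset.disjoint_of_subset_right
          (hBulkQ j') (hdisj _ _ hww))
      · rw [hS'B l hB1, hS'S l' hB2]
        exact Finset.disjoint_of_subset_right (hUsedmem l' hl') (hBulkUsed l)
    · by_cases hB2 : isB l'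
      · rw [hS'S l hB1, hS'B l' hB2]
        exact (Finset.disjoint_of_subset_right (hUsedmem l hl) (hBulkUsed l')).symm
      · rw [hS'S l hB1, hS'S l' hB2]
        exact hS2 l hl l' hl' hne
  have hBdeg : ∀ j ≤ k, ∀ x ∈ Q (w j), (dg B (Bulk (3 * j)) x : ℝ) ≤ θ * (Bulk (3 * j)).card := by
    intro j hj x hx
    have h1 := hnc (w j) x hx
    have h2 : (dg B (Bulk (3 * j)) x : ℝ) ≤ dg B (Q (w j)) x := by
      exact_mod_cast dg_mono B (hBulkQ j) x
    have h3 := hBulkhalf j hj
    have h4 := hQpos (w j)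
    have h5 : δ ≤ θ / 2 := by nlinarith
    have h6 : δ * ((Q (w j)).card : ℝ) ≤ θ / 2 * (Q (w j)).card :=
      mul_le_mul_of_nonneg_right h5 h4.le
    nlinarith
  have hself : ∀ l ≤ L, ∀ x ∈ S' l, (dg B (S' l) x : ℝ) ≤ θ * (S' l).card := by
    intro l hl x hx
    by_cases hB1 : isB l
    · rw [hS'B l hB1] at hx ⊢
      obtain ⟨j, rfl⟩ := hBl l hB1
      exact hBdeg j (by omega) x (hBulkQ j hx)
    · rw [hS'S l hB1] at hx ⊢
      exact hS3 l hl x hx
  have hlink' : ∀ l < L, (∀ x ∈ S' l, (dg B (S' (l + 1)) x : ℝ) ≤ θ * (S' (l + 1)).card) ∧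
      (∀ y ∈ S' (l + 1), (dg B (S' l) y : ℝ) ≤ θ * (S' l).card) := by
    intro l hl
    by_cases hB1 : isB l
    · have hB2 : ¬ isB (l + 1) := by
        intro h
        have h1 := hB1.1
        have h2 := h.1
        omega
      rw [hS'B l hB1, hS'S _ hB2]
      obtain ⟨j, rfl⟩ := hBl l hB1
      refine ⟨?_, ?_⟩
      · intro x hx
        simp only [hBulk, Finset.mem_filter] at hx
        exact hx.2.2 hl
      · intro y hy
        exact hBdeg j (by omega) y (hSnext j (by omega) hy)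
    · by_cases hB2 : isB (l + 1)
      · rw [hS'S l hB1, hS'B _ hB2]
        obtain ⟨j, hj⟩ := hBl (l + 1) hB2
        have hj1 : 1 ≤ j := by omega
        have el : l = 3 * j - 1 := by omega
        rw [hj]
        refine ⟨?_, ?_⟩
        · intro x hx
          rw [el] at hx
          exact hBdeg j (by omega) x (hSprev j hj1 (by omega) hx)
        · intro y hy
          simp only [hBulk, Finset.mem_filter] at hy
          have := hy.2.1 (by omega)
          rw [el]
          exact this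
      · rw [hS'S l hB1, hS'S _ hB2]
        exact hS4 l hl
  -- lengths
  set len : ℕ → ℕ := fun l => if isB l then max b ⌊(1 - ε / 16) * ((Bulk l).card : ℝ)⌋₊ else b with hlen
  have hlenB : ∀ l, isB l → len l = max b ⌊(1 - ε / 16) * ((Bulk l).card : ℝ)⌋₊ := fun l h => by
    simp only [hlen]; rw [if_pos h]
  have hlenS : ∀ l, ¬ isB l → len l = b := fun l h => by simp only [hlen]; rw [if_neg h]
  have hlenb : ∀ l ≤ L, b ≤ len l := by
    intro l _
    by_cases h : isB l
    · rw [hlenB l h]; exact le_max_left _ _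
    · rw [hlenS l h]
  -- total length
  have htot : n ≤ ∑ l ∈ Finset.range (L + 1), len l := by
    have hfirst : ∀ i ∈ C, ∃ j ≤ k, w j = i ∧ ∀ j' < j, w j' ≠ i := by
      intro i hi
      have hex : ∃ j, j ≤ k ∧ w j = i := hC i hi
      refine ⟨Nat.find hex, (Nat.find_spec hex).1, (Nat.find_spec hex).2, ?_⟩
      intro j' hj' he
      exact Nat.find_min hex hj' ⟨by have := (Nat.find_spec hex).1; omega, he⟩
    choose! fj hfj1 hfj2 hfj3 using hfirst
    have hfB : ∀ i ∈ C, isB (3 * fj i) := by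
      intro i hi
      have e1 : 3 * fj i / 3 = fj i := by omega
      refine ⟨by omega, ?_, ?_⟩
      · rw [e1, hfj2 i hi]; exact hi
      · rw [e1]
        intro j' hj'
        rw [hfj2 i hi]
        exact hfj3 i hi j' hj'
    have hinj : Set.InjOn (fun i => 3 * fj i) (C : Set ι) := by
      intro i hi i' hi' he
      have he' : fj i = fj i' := by
        have : 3 * fj i = 3 * fj i' := he
        omega
      rw [← hfj2 i hi, ← hfj2 i' hi', he']
    have h1 : ∑ i ∈ C, len (3 * fj i) ≤ ∑ l ∈ Finset.range (L + 1), len l := by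
      rw [← Finset.sum_image (f := len) (g := fun i => 3 * fj i) hinj]
      apply Finset.sum_le_sum_of_subset
      intro l hl
      rw [Finset.mem_image] at hl
      obtain ⟨i, hi, rfl⟩ := hl
      have := hfj1 i hi
      rw [Finset.mem_range]
      omega
    have h2 : ∀ i ∈ C, (1 - ε / 4) * ((Q i).card : ℝ) ≤ len (3 * fj i) := by
      intro i hi
      rw [hlenB _ (hfB i hi)]
      have h3 : ((max b ⌊(1 - ε / 16) * ((Bulk (3 * fj i)).card : ℝ)⌋₊ : ℕ) : ℝ) ≥
          (⌊(1 - ε / 16) * ((Bulk (3 * fj i)).card : ℝ)⌋₊ : ℝ) := by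
        exact_mod_cast le_max_right _ _
      have h4 := Nat.lt_floor_add_one ((1 - ε / 16) * ((Bulk (3 * fj i)).card : ℝ))
      have h5 := hBulkc (fj i) (hfj1 i hi)
      rw [hfj2 i hi] at h5
      have h6 := hqn i
      have h7 : (1 - ε / 16) * ((1 - ε / 8) * ((Q i).card : ℝ)) ≤
          (1 - ε / 16) * ((Bulk (3 * fj i)).card : ℝ) :=
        mul_le_mul_of_nonneg_left h5 (by linarith)
      have h8 : (1:ℝ) ≤ ε / 16 * (Q i).card := by
        have h9 : ε / 16 * (q * n) ≤ ε / 16 * (Q i).card :=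
          mul_le_mul_of_nonneg_left h6 (by positivity)
        linarith
      have h10 : (0:ℝ) ≤ (Q i).card := Nat.cast_nonneg _
      have h11 : (1 - ε / 4) * ((Q i).card : ℝ) ≤
          (1 - ε / 16) * ((1 - ε / 8) * ((Q i).card : ℝ)) - ε / 16 * (Q i).card := by
        nlinarith [mul_nonneg (mul_nonneg hε.le hε.le) h10]
      linarith
    have h3 : (1 - ε / 4) * ∑ i ∈ C, ((Q i).card : ℝ) ≤ ∑ i ∈ C, (len (3 * fj i) : ℝ) := by
      rw [Finset.mul_sum]
      exact Finset.sum_le_sum h2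
    have h4 : (n : ℝ) ≤ (1 - ε / 4) * ((1 + ε) * n) := by
      nlinarith [mul_nonneg (mul_nonneg hε.le (sub_nonneg.mpr hε1)) hn0.le]
    have h5 : (1 - ε / 4) * ((1 + ε) * n) ≤ (1 - ε / 4) * ∑ i ∈ C, ((Q i).card : ℝ) :=
      mul_le_mul_of_nonneg_left hsum (by linarith)
    have h6 : (n : ℝ) ≤ ∑ i ∈ C, (len (3 * fj i) : ℝ) := by linarith
    have h7 : n ≤ ∑ i ∈ C, len (3 * fj i) := by exact_mod_cast h6
    exact h7.trans h1
  obtain ⟨lam, hlam1, hlam2, hlam3⟩ := exists_lam n b L len hlenb htot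
  have hbn : (b : ℝ) ≤ q * n / 4 := by
    have h1 : c * ν / 8 * n ≤ q * n / 4 := by
      have h2 : ν ≤ q := by
        rw [hν, div_le_iff₀ (by positivity)]
        have h3 : μ * ε * q ≤ 1 * 1 * q := by
          apply mul_le_mul_of_nonneg_right _ hq.le
          exact mul_le_mul hμ1 hε1 hε.le (by norm_num)
        have h4 : (0:ℝ) ≤ K := Nat.cast_nonneg _
        nlinarith
      have h3 : c * ν ≤ 1 * q := mul_le_mul hc1 h2 hν0.le (by norm_num)
      nlinarith
    linarith
  have hS'pos : ∀ l ≤ L, (0:ℝ) ≤ (S' l).card := fun l _ => Nat.cast_nonneg _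
  have hdθ0 : 0 ≤ (d:ℝ) * θ := by positivity
  obtain ⟨φ, hφ1, hφ2, hφ3⟩ := embed_greedy G B d hG lam S' Finset.univ (by
      intro u _ v _ hne
      exact hdisj' _ (hlam1 u) _ (hlam1 v) hne) θ (by
      intro u _ v _ huv y hy
      have h1 := hlam2 u v (hbw u v huv)
      have h2 := hlam2 v u (hbw v u huv.symm)
      rcases lt_trichotomy (lam u) (lam v) with h | h | h
      · have e : lam v = lam u + 1 := by omega
        rw [e]
        exact (hlink' (lam u) (by have := hlam1 v; omega)).1 y hy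
      · rw [← h]
        exact hself _ (hlam1 u) y hy
      · have e : lam u = lam v + 1 := by omega
        rw [e] at hy
        exact (hlink' (lam v) (by have := hlam1 u; omega)).2 y hy) (by
      intro v _
      have h1 := hlam3 (lam v)
      have h2 : ((Finset.univ.filter (fun u : Fin n => lam u = lam v)).card : ℝ) ≤
          (len (lam v) : ℝ) := by exact_mod_cast h1
      have h3 : d * (θ * ((S' (lam v)).card : ℝ)) ≤ ε / 16 * (S' (lam v)).card := by
        have := mul_le_mul_of_nonneg_right hdθ (hS'pos _ (hlam1 v))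
        linarith
      suffices h4 : (len (lam v) : ℝ) ≤ (1 - ε / 16) * (S' (lam v)).card by linarith
      by_cases hB1 : isB (lam v)
      · rw [hlenB _ hB1, hS'B _ hB1]
        rw [Nat.cast_max]
        apply max_le
        · obtain ⟨j, hj⟩ := hBl _ hB1
          have hjk : j ≤ k := by
            have := hlam1 v
            omega
          rw [hj]
          have h5 := hBulkhalf j hjk
          have h6 := hqn (w j)
          have h7 : (1:ℝ) / 2 ≤ 1 - ε / 16 := by linarith
          have h8 : (0:ℝ) ≤ (Bulk (3 * j)).card := Nat.cast_nonneg _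
          have h9 : 1 / 2 * ((Bulk (3 * j)).card : ℝ) ≤ (1 - ε / 16) * (Bulk (3 * j)).card :=
            mul_le_mul_of_nonneg_right h7 h8
          linarith
        · exact Nat.floor_le (mul_nonneg (by linarith) (Nat.cast_nonneg _))
      · rw [hlenS _ hB1, hS'S _ hB1]
        have h5 := (hS1 (lam v) (hlam1 v)).2.1
        have h7 : (1:ℝ) / 2 ≤ 1 - ε / 16 := by linarith
        have h8 : (0:ℝ) ≤ (S (lam v)).card := Nat.cast_nonneg _
        have h9 : 1 / 2 * ((S (lam v)).card : ℝ) ≤ (1 - ε / 16) * (S (lam v)).card :=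
          mul_le_mul_of_nonneg_right h7 h8
        linarith) hθ0.le
  refine ⟨φ, ?_, ?_⟩
  · intro u v huv
    exact hφ1 (by simp) (by simp) huv
  · intro u v huv
    exact hφ3 u (Finset.mem_univ _) v (Finset.mem_univ _) huv

end Pool.Agent.L7h70.RG
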