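import Pool.Agent.L7h70.RG.Finish

/-!
# The upper bound
-/

set_option autoImplicit false

namespace Pool.Agent.L7h70.RG

open Finset
open scoped Classical

set_option maxHeartbeats 4000000 in
theorem upper (d T m s : ℕ) (hd : 1 ≤ d) (hT : 1 ≤ T) (hs : 1 ≤ s) (hsm : s ≤ m) : ∃ γ : ℝ, 0 < γ ∧
    ∃ n0 : ℕ, ∀ n, n0 ≤ n → ∀ (G : SimpleGraph (Fin n)),
    (∀ S : Finset (Fin n), S.Nonempty → ∃ v ∈ S, dg G S v ≤ d) → ∀ b : ℕ, (b : ℝ) ≤ γ * n →
    (∀ u v, G.Adj u v → (u : ℕ) ≤ v + b) → ∀ {V : Type} [Fintype V] (B : SimpleGraph V),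
    Fintype.card V = T * (n - 1) + s →
    (¬ ∃ (A0 : Finset V) (A : Fin T → Finset V), A0.card = s ∧ (∀ a, (A a).card = m) ∧
      (∀ a, Cmp B A0 (A a)) ∧ ∀ a b, a < b → Cmp B (A a) (A b)) →
    ∃ φ : Fin n → V, Function.Injective φ ∧ ∀ u v, G.Adj u v → ¬ B.Adj (φ u) (φ v) := by
  have hT0 : (0:ℝ) < T := by exact_mod_cast hT
  have hT1 : (1:ℝ) ≤ T := by exact_mod_cast hT
  have hs0 : (0:ℝ) < s := by exact_mod_cast hs
  have hs1 : (1:ℝ) ≤ s := by exact_mod_cast hs
  obtain ⟨δ, hδ, hfin⟩ := finish d T m s hd hT hs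
  set ρ1 : ℝ := min (δ / 8) (1 / (8 * s)) with hρ1
  have hρ10 : 0 < ρ1 := by rw [hρ1]; positivity
  set ε : ℝ := min (1 / (8 * T)) (δ / (16 * T)) with hε
  have hε0 : 0 < ε := by rw [hε]; positivity
  have hεT1 : T * ε ≤ 1 / 8 := by
    have h1 : ε ≤ 1 / (8 * T) := min_le_left _ _
    have h2 := mul_le_mul_of_nonneg_left h1 hT0.le
    have h3 : (T:ℝ) * (1 / (8 * T)) = 1 / 8 := by field_simp
    linarith
  have hεT2 : T * ε ≤ δ / 16 := by
    have h1 : ε ≤ δ / (16 * T) := min_le_right _ _
    have h2 := mul_le_mul_of_nonneg_left h1 hT0.le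
    have h3 : (T:ℝ) * (δ / (16 * T)) = δ / 16 := by field_simp
    linarith
  have hε1 : ε ≤ 1 / 8 := by nlinarith
  set η : ℝ := min (1 / 8) (δ / 16) with hη
  have hη0 : 0 < η := by rw [hη]; positivity
  have hη1 : η ≤ 1 / 8 := min_le_left _ _
  have hη2 : η ≤ δ / 16 := min_le_right _ _
  obtain ⟨α, hα, hslack⟩ := slack_comp d (T + 1) m ε hε0 (by linarith)
  obtain ⟨μ1, p1, hμ1, hμ11, hp1, hinner⟩ := inner α (ρ1 ^ 2) hα (by positivity) m T
  obtain ⟨p2, κ2, hκ2, hκ21, hcm⟩ := common_multi (δ / 4) (by positivity) m T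
  obtain ⟨μ2, p3, hμ2, hμ21, hp3, hcK⟩ := comp_K α (min κ2 (1 / 2)) hα (by positivity) m T
  obtain ⟨μ3, p4, hμ3, hμ31, htool⟩ := tool1 α hα m (T + 1) 1 one_pos
  set μ : ℝ := min μ1 (min μ2 μ3) with hμ
  have hμ0 : 0 < μ := by rw [hμ]; positivity
  have hμa : μ ≤ μ1 := min_le_left _ _
  have hμb : μ ≤ μ2 := (min_le_right _ _).trans (min_le_left _ _)
  have hμc : μ ≤ μ3 := (min_le_right _ _).trans (min_le_right _ _)
  have hμle1 : μ ≤ 1 := hμa.trans hμ11
  obtain ⟨δS, hδS, hslack⟩ := hslack μ hμ0 hμle1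
  obtain ⟨c, u0, hc, hc1, hdec⟩ := decomp (T + 1) m δS hδS
  set q : ℝ := c * η with hq
  have hq0 : 0 < q := by rw [hq]; positivity
  obtain ⟨γ1, hγ1, n1, hslack⟩ := hslack ⌈(T + 2 : ℝ) / q⌉₊ q hq0
  obtain ⟨γ2, hγ2, n2, hfin⟩ := hfin p2
  refine ⟨min γ1 γ2, by positivity, n1 + n2 + s + 8 * T + ⌈16 * T / δ⌉₊ + ⌈u0 / η⌉₊ + ⌈p1 / q⌉₊ +
    ⌈p3 / q⌉₊ + ⌈p4 / q⌉₊ + 1, ?_⟩
  intro n hn G hG b hb hbw V _ B hV hH
  have hn0 : (0:ℝ) < n := by
    have : 0 < n := by omega
    exact_mod_cast this
  have hns : (s : ℝ) ≤ n := by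
    have : s ≤ n := by omega
    exact_mod_cast this
  have hnT : 8 * (T : ℝ) ≤ n := by
    have : 8 * T ≤ n := by omega
    exact_mod_cast this
  have hnceil : ∀ x : ℝ, ⌈x⌉₊ ≤ n → x ≤ n := by
    intro x hx
    refine (Nat.le_ceil x).trans ?_
    exact_mod_cast hx
  have hnδ : (T : ℝ) ≤ δ / 16 * n := by
    have h1 := hnceil (16 * T / δ) (by omega)
    rw [div_le_iff₀ hδ] at h1
    linarith
  have hnu : (u0 : ℝ) ≤ η * n := by
    have h1 := hnceil (u0 / η) (by omega)
    rw [div_le_iff₀ hη0] at h1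
    linarith
  have hnp1 : p1 ≤ q * n := by
    have h1 := hnceil (p1 / q) (by omega)
    rw [div_le_iff₀ hq0] at h1
    linarith
  have hnp3 : p3 ≤ q * n := by
    have h1 := hnceil (p3 / q) (by omega)
    rw [div_le_iff₀ hq0] at h1
    linarith
  have hnp4 : p4 ≤ q * n := by
    have h1 := hnceil (p4 / q) (by omega)
    rw [div_le_iff₀ hq0] at h1
    linarith
  have hb1 : (b : ℝ) ≤ γ1 * n := hb.trans (mul_le_mul_of_nonneg_right (min_le_left _ _) hn0.le)
  have hb2 : (b : ℝ) ≤ γ2 * n := hb.trans (mul_le_mul_of_nonneg_right (min_le_right _ _) hn0.le)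
  have : Nonempty V := by
    rw [← Fintype.card_pos_iff, hV]
    omega
  -- no complete multipartite blue graph
  have hno : ∀ (A0 : Finset V) (A : Fin T → Finset V) (U : Fin T → Finset V), s ≤ A0.card →
      (∀ a, A a ⊆ cn B A0 (U a) ∧ (A a).card = m) → (∀ a b, a < b → Cmp B (A a) (A b)) → False := by
    intro A0 A U hA0 hA hAC
    obtain ⟨A1, hA1, hA1c⟩ := Finset.exists_subset_card_eq hA0
    apply hH
    refine ⟨A1, A, hA1c, fun a => (hA a).2, ?_, hAC⟩
    intro a x hx y hy
    have := (hA a).1 hy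
    simp only [cn, Finset.mem_filter] at this
    exact this.2 x (hA1 hx)
  have hK : ¬ HasK B (T + 1) m univ := by
    rintro ⟨A, hA, hAC⟩
    apply hno (A 0) (fun a => A a.succ) (fun a => A a.succ) (by rw [(hA 0).2]; exact hsm)
    · intro a
      refine ⟨?_, (hA _).2⟩
      intro y hy
      simp only [cn, Finset.mem_filter]
      exact ⟨hy, fun x hx => hAC 0 a.succ (Fin.succ_pos a) x hx y hy⟩
    · intro a b hab
      exact hAC _ _ (by simpa using hab)
  have hKU : ∀ U : Finset V, ¬ HasK B (T + 1) m U := fun U h => hK (h.mono (Finset.subset_univ _))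
  -- decomposition
  obtain ⟨M, Q, _, hQd, hQc, hQnc, hQsum⟩ := hdec B (η * n) hnu (by positivity) univ hK
  have hQc' : ∀ i, q * n ≤ (Q i).card := by
    intro i
    have := hQc i
    rw [hq]; linarith
  have hsumQ : ∑ i, ((Q i).card : ℝ) ≤ Fintype.card V := by
    have h1 : ((univ : Finset (Fin M)).biUnion Q).card = ∑ i, (Q i).card :=
      Finset.card_biUnion (fun i _ j _ hij => hQd i j hij)
    have h2 : ((univ : Finset (Fin M)).biUnion Q).card ≤ Fintype.card V := Finset.card_le_univ _
    rw [h1] at h2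
    exact_mod_cast h2
  have hVR : (Fintype.card V : ℝ) = T * (n - 1) + s := by
    rw [hV]
    push_cast
    rw [Nat.cast_sub (by omega)]
    simp
  rw [Finset.card_univ] at hQsum
  have hM : M ≤ ⌈(T + 2 : ℝ) / q⌉₊ := by
    have h1 : (M : ℝ) * (q * n) ≤ ∑ i, ((Q i).card : ℝ) := by
      have h2 : ∑ _i : Fin M, (q * n) ≤ ∑ i, ((Q i).card : ℝ) := Finset.sum_le_sum (fun i _ => hQc' i)
      rw [Finset.sum_const, Finset.card_univ, Fintype.card_fin, nsmul_eq_mul] at h2
      exact h2
    have h2 : (M : ℝ) * q * n ≤ (T + 2) * n := by nlinarith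
    have h3 : (M : ℝ) * q ≤ T + 2 := le_of_mul_le_mul_right h2 hn0
    have h4 : (M : ℝ) ≤ (T + 2) / q := by
      rw [le_div_iff₀ hq0]; exact h3
    have h5 : (M : ℝ) ≤ (⌈(T + 2 : ℝ) / q⌉₊ : ℝ) := h4.trans (Nat.le_ceil _)
    exact_mod_cast h5
  set CG := CGr B α μ Q with hCG
  set comp : CG.ConnectedComponent → Finset (Fin M) := fun k =>
    univ.filter (fun i => CG.connectedComponentMk i = k) with hcomp
  have hmem : ∀ k i, i ∈ comp k ↔ CG.connectedComponentMk i = k := by
    intro k i; simp [hcomp]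
  have hDn : ∀ i j, CG.connectedComponentMk i ≠ CG.connectedComponentMk j →
      Dn B (Q i) (Q j) (μ * (Q i).card) (μ * (Q j).card) α := by
    intro i j hij
    apply notConn_Dn
    intro hc
    apply hij
    have hne : i ≠ j := by rintro rfl; exact hij rfl
    have hadj : CG.Adj i j := ⟨hne, hc⟩
    exact SimpleGraph.ConnectedComponent.sound hadj.reachable
  -- heavy component
  by_cases hheavy : ∃ k : CG.ConnectedComponent, (1 + ε) * n ≤ ∑ i ∈ comp k, ((Q i).card : ℝ)
  · obtain ⟨k, hk⟩ := hheavy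
    have hout : CG.connectedComponentMk (Quot.out k) = k := Quot.out_eq k
    refine hslack n (by omega) G hG b hb1 hbw B M Q hM hQd hQnc (fun i => hKU _) hQc' (Quot.out k)
      (comp k) ?_ hk
    intro i hi
    rw [hmem] at hi
    apply SimpleGraph.ConnectedComponent.exact
    rw [hi]; exact hout
  · push Not at hheavy
    have hsumk : ∑ k : CG.ConnectedComponent, ∑ i ∈ comp k, ((Q i).card : ℝ) =
        ∑ i, ((Q i).card : ℝ) :=
      Finset.sum_fiberwise (Finset.univ : Finset (Fin M)) (fun i => CG.connectedComponentMk i)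
        (fun i => ((Q i).card : ℝ))
    have hcard : Fintype.card CG.ConnectedComponent = T := by
      apply le_antisymm
      · by_contra hcon
        push Not at hcon
        have hcon' : Fintype.card (Fin (T + 1)) ≤ Fintype.card CG.ConnectedComponent := by
          rw [Fintype.card_fin]; exact hcon
        obtain ⟨e⟩ := Function.Embedding.nonempty_of_card_le hcon'
        obtain ⟨A, hA1, hA2⟩ := htool B μ hμ0.le hμc (fun a => Q (Quot.out (e a)))
          (fun a => Q (Quot.out (e a))) (fun a => ⟨Finset.Subset.refl _, by rw [one_mul]⟩) (by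
            intro a a' haa'
            apply hDn
            have h1 : CG.connectedComponentMk (Quot.out (e a)) = e a := Quot.out_eq _
            have h2 : CG.connectedComponentMk (Quot.out (e a')) = e a' := Quot.out_eq _
            rw [h1, h2]
            intro h
            exact haa'.ne (e.injective h)) (fun a => hnp4.trans (hQc' _))
        exact hK ⟨A, fun i => ⟨Finset.subset_univ _, (hA1 i).2⟩, hA2⟩
      · by_contra hcon
        push Not at hcon
        have h1 : ∑ k : CG.ConnectedComponent, ∑ i ∈ comp k, ((Q i).card : ℝ) ≤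
            ∑ _k : CG.ConnectedComponent, ((1 + ε) * n) :=
          Finset.sum_le_sum (fun k _ => (hheavy k).le)
        rw [Finset.sum_const, Finset.card_univ, nsmul_eq_mul, hsumk] at h1
        have h2 : (Fintype.card CG.ConnectedComponent : ℝ) ≤ T - 1 := by
          have : Fintype.card CG.ConnectedComponent + 1 ≤ T := hcon
          have : (Fintype.card CG.ConnectedComponent : ℝ) + 1 ≤ T := by exact_mod_cast this
          linarith
        have h3 : (Fintype.card CG.ConnectedComponent : ℝ) * ((1 + ε) * n) ≤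
            (T - 1) * ((1 + ε) * n) := mul_le_mul_of_nonneg_right h2 (by positivity)
        have h4 : (T * ε) * (n:ℝ) ≤ 1 / 8 * n := mul_le_mul_of_nonneg_right hεT1 hn0.le
        have h5 : η * (n:ℝ) ≤ 1 / 8 * n := mul_le_mul_of_nonneg_right hη1 hn0.le
        have h6 : 0 ≤ ε * (n:ℝ) := by positivity
        nlinarith
    set e : CG.ConnectedComponent ≃ Fin T := Fintype.equivFinOfCardEq hcard with he
    set C : Fin T → Finset (Fin M) := fun a => comp (e.symm a) with hC
    set U : Fin T → Finset V := fun a => (C a).biUnion Q with hU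
    have hCmem : ∀ a i, i ∈ C a ↔ CG.connectedComponentMk i = e.symm a := fun a i => hmem _ i
    have hCne : ∀ a, (C a).Nonempty := by
      intro a
      refine ⟨Quot.out (e.symm a), ?_⟩
      rw [hCmem]
      exact Quot.out_eq _
    have hDnC : ∀ a b, a ≠ b → ∀ i ∈ C a, ∀ j ∈ C b,
        Dn B (Q i) (Q j) (μ * (Q i).card) (μ * (Q j).card) α := by
      intro a b hab i hi j hj
      apply hDn
      rw [hCmem] at hi hj
      rw [hi, hj]
      intro h
      exact hab (e.symm.injective h)
    have hUcard : ∀ a, ((U a).card : ℝ) = ∑ i ∈ C a, ((Q i).card : ℝ) := by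
      intro a
      have h1 : ((C a).biUnion Q).card = ∑ i ∈ C a, (Q i).card :=
        Finset.card_biUnion (fun i _ j _ hij => hQd i j hij)
      have h2 : (((C a).biUnion Q).card : ℝ) = ∑ i ∈ C a, ((Q i).card : ℝ) := by exact_mod_cast h1
      exact h2
    have hUlt : ∀ a, ((U a).card : ℝ) < (1 + ε) * n := by
      intro a
      rw [hUcard]
      exact hheavy _
    have hUsum : ∑ a, ((U a).card : ℝ) = ∑ i, ((Q i).card : ℝ) := by
      rw [← hsumk, ← Equiv.sum_comp e.symm (fun k => ∑ i ∈ comp k, ((Q i).card : ℝ))]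
      exact Finset.sum_congr rfl (fun a _ => hUcard a)
    have hUlow : ∀ a, (n : ℝ) ≤ (U a).card + T + η * n + T * ε * n := by
      intro a
      have h1 : ∑ a, ((U a).card : ℝ) = (U a).card + ∑ b ∈ univ.erase a, ((U b).card : ℝ) :=
        (Finset.add_sum_erase univ (fun b => ((U b).card : ℝ)) (Finset.mem_univ a)).symm
      have h2 : ∑ b ∈ univ.erase a, ((U b).card : ℝ) ≤ ∑ _b ∈ univ.erase a, ((1 + ε) * n) :=
        Finset.sum_le_sum (fun b _ => (hUlt b).le)
      rw [Finset.sum_const, Finset.card_erase_of_mem (Finset.mem_univ a), Finset.card_univ,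
        Fintype.card_fin, nsmul_eq_mul, Nat.cast_sub hT] at h2
      push_cast at h2
      have h3 : 0 ≤ ε * (n:ℝ) := by positivity
      nlinarith
    have hUd : ∀ a b, a ≠ b → Disjoint (U a) (U b) := by
      intro a b hab
      rw [Finset.disjoint_left]
      intro x hx hx'
      simp only [hU, Finset.mem_biUnion] at hx hx'
      obtain ⟨i, hi, hxi⟩ := hx
      obtain ⟨j, hj, hxj⟩ := hx'
      have hij : i = j := by
        by_contra hne
        exact Finset.disjoint_left.mp (hQd i j hne) hxi hxj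
      subst hij
      rw [hCmem] at hi hj
      exact hab (e.symm.injective (hi.symm.trans hj))
    have hTn8 : (T:ℝ) ≤ n / 8 := by linarith
    have hηn8 : η * (n:ℝ) ≤ 1 / 8 * n := mul_le_mul_of_nonneg_right hη1 hn0.le
    have hηnδ : η * (n:ℝ) ≤ δ / 16 * n := mul_le_mul_of_nonneg_right hη2 hn0.le
    have hεn8 : T * ε * (n:ℝ) ≤ 1 / 8 * n := mul_le_mul_of_nonneg_right hεT1 hn0.le
    have hεnδ : T * ε * (n:ℝ) ≤ δ / 16 * n := mul_le_mul_of_nonneg_right hεT2 hn0.le
    have hU1 : ∀ a, ((U a).card : ℝ) ≤ 2 * n := by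
      intro a
      have h1 := (hUlt a).le
      have h2 : (1 + ε) * (n:ℝ) ≤ 2 * n := mul_le_mul_of_nonneg_right (by linarith) hn0.le
      linarith
    have hU2 : ∀ a, (n : ℝ) / 2 ≤ (U a).card := by
      intro a
      have := hUlow a
      linarith
    have hU3 : ∀ a, (n : ℝ) ≤ (U a).card + δ / 4 * n := by
      intro a
      have h1 := hUlow a
      have h2 : 0 ≤ δ * (n:ℝ) := by positivity
      linarith
    have hUpos : ∀ a, (0:ℝ) < (U a).card := fun a => lt_of_lt_of_le (by positivity) (hU2 a)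
    -- density inside the components
    have hpair : ∀ a, ∀ i ∈ C a, ∀ j ∈ C a, ∑ x ∈ Q i, (dg B (Q j) x : ℝ) ≤
        ρ1 ^ 2 * (Q i).card * (Q j).card := by
      intro a i hi j hj
      by_contra hcon
      push Not at hcon
      set r : Fin T → Fin M := fun b => if b = a then j else Quot.out (e.symm b) with hr
      have hra : r a = j := by simp [hr]
      have hrC : ∀ b, r b ∈ C b := by
        intro b
        by_cases hba : b = a
        · subst hba; rw [hra]; exact hj
        · simp only [hr, if_neg hba]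
          rw [hCmem]
          exact Quot.out_eq _
      obtain ⟨A0, hA0, hA0c, A, hA1, hA2⟩ := hinner B μ hμ0.le hμa (fun b => Q (r b)) a (Q i)
        (fun b b' hbb' => hDnC b b' hbb' _ (hrC b) _ (hrC b'))
        (fun b hb => hDnC a b (Ne.symm hb) _ hi _ (hrC b)) (fun b => hnp1.trans (hQc' _))
        (hnp1.trans (hQc' _)) (by simp only [hra]; exact hcon)
      exact hno A0 A (fun b => Q (r b)) (by rw [hA0c]; exact hsm) hA1 hA2
    have hdens : ∀ a, ∑ v ∈ U a, (dg B (U a) v : ℝ) ≤ ρ1 ^ 2 * ((U a).card : ℝ) ^ 2 := by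
      intro a
      have h1 : ∑ v ∈ U a, (dg B (U a) v : ℝ) = ∑ i ∈ C a, ∑ v ∈ Q i, (dg B (U a) v : ℝ) := by
        simp only [hU]
        exact Finset.sum_biUnion (fun i _ j _ hij => hQd i j hij)
      have h2 : ∀ v, (dg B (U a) v : ℝ) ≤ ∑ j ∈ C a, (dg B (Q j) v : ℝ) := by
        intro v
        have h3 : nb B (U a) v ⊆ (C a).biUnion (fun j => nb B (Q j) v) := by
          intro x hx
          simp only [hU, nb, Finset.mem_filter, Finset.mem_biUnion] at hx ⊢
          obtain ⟨⟨j, hj, hxj⟩, hvx⟩ := hx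
          exact ⟨j, hj, hxj, hvx⟩
        have h4 := (Finset.card_le_card h3).trans Finset.card_biUnion_le
        exact_mod_cast h4
      rw [h1]
      calc ∑ i ∈ C a, ∑ v ∈ Q i, (dg B (U a) v : ℝ)
          ≤ ∑ i ∈ C a, ∑ v ∈ Q i, ∑ j ∈ C a, (dg B (Q j) v : ℝ) :=
            Finset.sum_le_sum (fun i _ => Finset.sum_le_sum (fun v _ => h2 v))
        _ = ∑ i ∈ C a, ∑ j ∈ C a, ∑ v ∈ Q i, (dg B (Q j) v : ℝ) :=
            Finset.sum_congr rfl (fun i _ => Finset.sum_comm)
        _ ≤ ∑ i ∈ C a, ∑ j ∈ C a, ρ1 ^ 2 * (Q i).card * (Q j).card :=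
            Finset.sum_le_sum (fun i hi => Finset.sum_le_sum (fun j hj => hpair a i hi j hj))
        _ = ρ1 ^ 2 * ((U a).card : ℝ) ^ 2 := by
            rw [hUcard a, sq (∑ i ∈ C a, ((Q i).card : ℝ)), Finset.sum_mul_sum, Finset.mul_sum]
            apply Finset.sum_congr rfl
            intro i _
            rw [Finset.mul_sum]
            apply Finset.sum_congr rfl
            intro j _
            ring
    refine hfin n (by omega) G hG b hb2 hbw B hK hV U hUd ρ1 hρ10 (min_le_left _ _)
      (min_le_right _ _) hU1 hU2 hU3 hdens ?_ ?_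
    · -- far vertices
      by_contra hcon
      push Not at hcon
      obtain ⟨X, hX, hXc⟩ := Finset.exists_subset_card_eq hcon
      have hcn : ∀ a, min κ2 (1 / 2) * ((U a).card : ℝ) ≤ (cn B X (U a)).card := by
        intro a
        have h1 : U a ⊆ cn B X (U a) ∪ X.biUnion (fun x => U a \ nb B (U a) x) := by
          intro y hy
          by_cases h : ∀ x ∈ X, B.Adj x y
          · apply Finset.mem_union_left
            simp only [cn, Finset.mem_filter]
            exact ⟨hy, h⟩
          · push Not at h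
            obtain ⟨x, hx, hxy⟩ := h
            apply Finset.mem_union_right
            rw [Finset.mem_biUnion]
            refine ⟨x, hx, ?_⟩
            simp only [nb, Finset.mem_sdiff, Finset.mem_filter, not_and]
            exact ⟨hy, fun _ => hxy⟩
        have h2 := (Finset.card_le_card h1).trans (Finset.card_union_le _ _)
        have h3 : (X.biUnion (fun x => U a \ nb B (U a) x)).card ≤
            ∑ x ∈ X, (U a \ nb B (U a) x).card := Finset.card_biUnion_le
        have h4 : ∀ x ∈ X, ((U a \ nb B (U a) x).card : ℝ) ≤ 1 / (2 * s) * (U a).card := by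
          intro x hx
          have h5 := hX hx
          rw [Finset.mem_filter] at h5
          have h6 := h5.2 a
          have h7 : (U a \ nb B (U a) x).card + (nb B (U a) x).card = (U a).card :=
            Finset.card_sdiff_add_card_eq_card (nb_sub B (U a) x)
          have h8 : ((U a \ nb B (U a) x).card : ℝ) + dg B (U a) x = (U a).card := by
            unfold dg
            exact_mod_cast h7
          linarith
        have h5 : ((∑ x ∈ X, (U a \ nb B (U a) x).card : ℕ) : ℝ) ≤
            ∑ _x ∈ X, (1 / (2 * s) * ((U a).card : ℝ)) := by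
          push_cast
          exact Finset.sum_le_sum h4
        rw [Finset.sum_const, hXc, nsmul_eq_mul] at h5
        have h6 : (s:ℝ) * (1 / (2 * s) * ((U a).card : ℝ)) = (U a).card / 2 := by
          field_simp
        have h7 : ((U a).card : ℝ) ≤ (cn B X (U a)).card +
            ((∑ x ∈ X, (U a \ nb B (U a) x).card : ℕ) : ℝ) := by
          have h8 := h2.trans (Nat.add_le_add_left h3 _)
          exact_mod_cast h8
        have h8 : min κ2 (1 / 2) * ((U a).card : ℝ) ≤ 1 / 2 * (U a).card :=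
          mul_le_mul_of_nonneg_right (min_le_right _ _) (Nat.cast_nonneg _)
        linarith
      obtain ⟨A, hA1, hA2⟩ := hcK B μ hμ0.le hμb M Q C hQd hCne hDnC
        (fun i => hnp3.trans (hQc' i)) X hcn
      exact hno X A U hXc.ge hA1 hA2
    · -- vertices not near any component
      by_contra hcon
      push Not at hcon
      obtain ⟨X, hX, hXc, hXk⟩ := hcm B _ U hcon.le (by
        intro x hx a
        rw [Finset.mem_filter] at hx
        have h1 := hx.2 a
        have h2 : δ / 4 * ((U a).card : ℝ) ≤ δ / 4 * (2 * n) :=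
          mul_le_mul_of_nonneg_left (hU1 a) (by positivity)
        linarith)
      have hcn : ∀ a, min κ2 (1 / 2) * ((U a).card : ℝ) ≤ (cn B X (U a)).card := by
        intro a
        refine le_trans ?_ (hXk a)
        exact mul_le_mul_of_nonneg_right (min_le_left _ _) (Nat.cast_nonneg _)
      obtain ⟨A, hA1, hA2⟩ := hcK B μ hμ0.le hμb M Q C hQd hCne hDnC
        (fun i => hnp3.trans (hQc' i)) X hcn
      exact hno X A U (by rw [hXc]; exact hsm) hA1 hA2

end Pool.Agent.L7h70.RG
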